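import Mathlib
import Pool.Agent.Helper93.Sph.D

/-! Gaussian pairing in space and time for functions `exp (i t p(ξ)) F(ξ)`. -/

set_option autoImplicit false

open MeasureTheory Real Set Filter Topology
open scoped ENNReal RealInnerProductSpace

namespace Run7.h726.Fl

open Pool.Agent.Helper93.Sph

/-- multiplication by `exp (i t p)` -/
noncomputable def tw {n : ℕ} (p : En n → ℝ) (t : ℝ) (F : En n → ℂ) : En n → ℂ :=
  fun ξ => Complex.exp (((t * p ξ : ℝ) : ℂ) * Complex.I) * F ξ

lemma tw_norm {n : ℕ} (p : En n → ℝ) (t : ℝ) (F : En n → ℂ) (ξ : En n) :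
    ‖tw p t F ξ‖ = ‖F ξ‖ := by
  rw [tw, norm_mul, Complex.norm_exp_ofReal_mul_I, one_mul]

lemma tw_meas {n : ℕ} {p : En n → ℝ} (hp : Measurable p) (t : ℝ) {F : En n → ℂ}
    (hF : AEStronglyMeasurable F) : AEStronglyMeasurable (tw p t F) := by
  refine AEStronglyMeasurable.mul ?_ hF
  have : Measurable fun ξ : En n => Complex.exp (((t * p ξ : ℝ) : ℂ) * Complex.I) := by fun_prop
  exact this.aestronglyMeasurable

lemma tw_int {n : ℕ} {p : En n → ℝ} (hp : Measurable p) (t : ℝ) {F : En n → ℂ}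
    (hF : Integrable F) : Integrable (tw p t F) :=
  hF.mono (tw_meas hp t hF.aestronglyMeasurable) (Eventually.of_forall fun ξ => (tw_norm p t F ξ).le)

/-- the evolution -/
noncomputable def U {n : ℕ} (p : En n → ℝ) (F : En n → ℂ) (z : En n × ℝ) : ℂ := Fi (tw p z.2 F) z.1

lemma U_cont {n : ℕ} {p : En n → ℝ} (hp : Measurable p) {F : En n → ℂ} (hF : Integrable F) :
    Continuous (U p F) := by
  refine continuous_of_dominated (bound := fun ξ => ‖F ξ‖) ?_ ?_ hF.norm ?_
  · intro z; exact (ek_int (tw_int hp z.2 hF) z.1).aestronglyMeasurable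
  · intro z; refine Eventually.of_forall fun ξ => ?_
    rw [norm_mul, ek_norm, one_mul, tw_norm]
  · refine Eventually.of_forall fun ξ => ?_
    have h1 : Continuous fun z : En n × ℝ => ek z.1 ξ :=
      ek_cont.comp (by fun_prop : Continuous fun z : En n × ℝ => (z.1, ξ))
    refine h1.mul ?_
    unfold tw
    fun_prop

lemma U_bdd {n : ℕ} (p : En n → ℝ) (F : En n → ℂ) (z : En n × ℝ) : ‖U p F z‖ ≤ ∫ ξ, ‖F ξ‖ := by
  refine (Fi_bdd z.1).trans (le_of_eq ?_)
  simp_rw [tw_norm]

lemma gint1 {a : ℝ} (ha : 0 < a) : Integrable (fun t : ℝ => rexp (-a * t ^ 2)) :=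
  integrable_exp_neg_mul_sq ha

lemma gauss_ft1 {a : ℝ} (ha : 0 < a) (w : ℝ) :
    ∫ t : ℝ, Complex.exp (((t * w : ℝ) : ℂ) * Complex.I) * ((rexp (-a * t ^ 2) : ℝ) : ℂ)
      = (((π / a) ^ ((1 : ℝ) / 2) * rexp (-w ^ 2 / (4 * a)) : ℝ) : ℂ) := by
  have h := fourierIntegral_gaussian (b := (a : ℂ)) (by simpa using ha) (w : ℂ)
  have e1 : ∀ t : ℝ, Complex.exp (((t * w : ℝ) : ℂ) * Complex.I) * ((rexp (-a * t ^ 2) : ℝ) : ℂ) =
      Complex.exp (Complex.I * (w : ℂ) * (t : ℂ)) * Complex.exp (-(a : ℂ) * (t : ℂ) ^ 2) := by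
    intro t
    rw [Complex.ofReal_exp]
    congr 1
    · congr 1; push_cast; ring
    · congr 1; push_cast; ring
  simp_rw [e1]
  rw [h, Complex.ofReal_mul, Complex.ofReal_cpow (by positivity), Complex.ofReal_exp]
  congr 1
  · push_cast; rfl
  · congr 1
    push_cast
    ring

/-- the kernel in space and time -/
noncomputable def KK {n : ℕ} (p : En n → ℝ) (a b : ℝ) (ξ η : En n) : ℝ :=
  ((π / b) ^ ((n : ℝ) / 2) * rexp (-(π ^ 2 / b) * ‖ξ - η‖ ^ 2)) *
    ((π / a) ^ ((1 : ℝ) / 2) * rexp (-(p ξ - p η) ^ 2 / (4 * a)))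

/-- Gaussian pairing in space and time -/
lemma pairT {n : ℕ} {a b : ℝ} (ha : 0 < a) (hb : 0 < b) {p : En n → ℝ} (hp : Measurable p)
    {F : En n → ℂ} (hF : Integrable F) :
    ∫ z : En n × ℝ, ‖U p F z‖ ^ 2 * (rexp (-b * ‖z.1‖ ^ 2) * rexp (-a * z.2 ^ 2)) ≤
      ∫ z : En n × En n, ‖F z.1‖ * ‖F z.2‖ * KK p a b z.1 z.2 := by
  set g : En n × ℝ → ℝ := fun x => rexp (-b * ‖x.1‖ ^ 2) * rexp (-a * x.2 ^ 2) with hg
  have hgi : Integrable g := (gint hb).mul_prod (gint1 ha)
  have hg0 : ∀ x, 0 ≤ g x := fun x => by rw [hg]; positivity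
  set H : En n × ℝ → En n × En n → ℂ := fun x z =>
    (ek x.1 z.1 * tw p x.2 F z.1) * (starRingEnd ℂ) (ek x.1 z.2 * tw p x.2 F z.2) * (g x : ℂ) with hH
  have hGG : Integrable (fun z : En n × En n => ‖F z.1‖ * ‖F z.2‖) (volume.prod volume) :=
    hF.norm.mul_prod hF.norm
  have hHm : AEStronglyMeasurable (Function.uncurry H) (volume.prod (volume.prod volume)) := by
    have c1 : AEStronglyMeasurable (fun p : (En n × ℝ) × (En n × En n) => ek p.1.1 p.2.1)
        (volume.prod (volume.prod volume)) :=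
      (ek_cont.comp (by fun_prop : Continuous fun p : (En n × ℝ) × (En n × En n) =>
        (p.1.1, p.2.1))).aestronglyMeasurable
    have c2 : AEStronglyMeasurable (fun p : (En n × ℝ) × (En n × En n) => ek p.1.1 p.2.2)
        (volume.prod (volume.prod volume)) :=
      (ek_cont.comp (by fun_prop : Continuous fun p : (En n × ℝ) × (En n × En n) =>
        (p.1.1, p.2.2))).aestronglyMeasurable
    have q1 : Measure.QuasiMeasurePreserving (fun p : (En n × ℝ) × (En n × En n) => p.2.1)
        (volume.prod (volume.prod volume)) volume :=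
      Measure.quasiMeasurePreserving_fst.comp Measure.quasiMeasurePreserving_snd
    have q2 : Measure.QuasiMeasurePreserving (fun p : (En n × ℝ) × (En n × En n) => p.2.2)
        (volume.prod (volume.prod volume)) volume :=
      Measure.quasiMeasurePreserving_snd.comp Measure.quasiMeasurePreserving_snd
    have d1 := hF.aestronglyMeasurable.comp_quasiMeasurePreserving q1
    have d2 := hF.aestronglyMeasurable.comp_quasiMeasurePreserving q2
    have t1 : AEStronglyMeasurable (fun q : (En n × ℝ) × (En n × En n) =>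
        Complex.exp (((q.1.2 * p q.2.1 : ℝ) : ℂ) * Complex.I)) (volume.prod (volume.prod volume)) := by
      have : Measurable (fun q : (En n × ℝ) × (En n × En n) =>
        Complex.exp (((q.1.2 * p q.2.1 : ℝ) : ℂ) * Complex.I)) := by fun_prop
      exact this.aestronglyMeasurable
    have t2 : AEStronglyMeasurable (fun q : (En n × ℝ) × (En n × En n) =>
        Complex.exp (((q.1.2 * p q.2.2 : ℝ) : ℂ) * Complex.I)) (volume.prod (volume.prod volume)) := by
      have : Measurable (fun q : (En n × ℝ) × (En n × En n) =>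
        Complex.exp (((q.1.2 * p q.2.2 : ℝ) : ℂ) * Complex.I)) := by fun_prop
      exact this.aestronglyMeasurable
    have d3 : AEStronglyMeasurable (fun p : (En n × ℝ) × (En n × En n) => (g p.1 : ℂ))
        (volume.prod (volume.prod volume)) := by
      have : Continuous (fun p : (En n × ℝ) × (En n × En n) => (g p.1 : ℂ)) := by
        rw [hg]; fun_prop
      exact this.aestronglyMeasurable
    exact ((c1.mul (t1.mul d1)).mul (Complex.continuous_conj.comp_aestronglyMeasurable
      (c2.mul (t2.mul d2)))).mul d3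
  have hHn : ∀ x z, ‖H x z‖ = g x * (‖F z.1‖ * ‖F z.2‖) := by
    intro x z
    rw [hH]
    simp only [norm_mul, RCLike.norm_conj, ek_norm, one_mul, Complex.norm_real, tw_norm,
      Real.norm_of_nonneg (hg0 x)]
    ring
  have hHi : Integrable (Function.uncurry H) (volume.prod (volume.prod volume)) := by
    have h1 : Integrable (fun p : (En n × ℝ) × (En n × En n) => g p.1 * (‖F p.2.1‖ * ‖F p.2.2‖))
        (volume.prod (volume.prod volume)) := hgi.mul_prod hGG
    refine h1.mono' hHm (Eventually.of_forall fun p => ?_)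
    exact (hHn p.1 p.2).le
  have e1 : ∀ x, ((‖U p F x‖ ^ 2 * g x : ℝ) : ℂ) = ∫ z : En n × En n, H x z := by
    intro x
    rw [hH]
    simp only
    rw [integral_mul_const, Measure.volume_eq_prod,
      integral_prod_mul (fun ξ => ek x.1 ξ * tw p x.2 F ξ)
        (fun η => (starRingEnd ℂ) (ek x.1 η * tw p x.2 F η)),
      integral_conj]
    change _ = U p F x * (starRingEnd ℂ) (U p F x) * _
    rw [Complex.mul_conj, Complex.normSq_eq_norm_sq]
    push_cast
    ring
  have e2 : ((∫ x, ‖U p F x‖ ^ 2 * g x : ℝ) : ℂ) = ∫ z : En n × En n, ∫ x, H x z := by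
    rw [← integral_complex_ofReal]
    simp_rw [e1]
    exact integral_integral_swap hHi
  have e3 : ∀ z : En n × En n, ∫ x, H x z = F z.1 * (starRingEnd ℂ) (F z.2) *
      ((KK p a b z.1 z.2 : ℝ) : ℂ) := by
    intro z
    rw [KK, Complex.ofReal_mul, ← gauss_ft hb, ← gauss_ft1 ha, ← integral_prod_mul,
      ← integral_const_mul]
    refine integral_congr_ae (Eventually.of_forall fun x => ?_)
    simp only [hH, hg, tw]
    rw [← ek_mul_conj]
    have hc : Complex.exp (((x.2 * (p z.1 - p z.2) : ℝ) : ℂ) * Complex.I) =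
        Complex.exp (((x.2 * p z.1 : ℝ) : ℂ) * Complex.I) *
          (starRingEnd ℂ) (Complex.exp (((x.2 * p z.2 : ℝ) : ℂ) * Complex.I)) := by
      rw [← Complex.exp_conj, ← Complex.exp_add]
      congr 1
      rw [map_mul, Complex.conj_I, Complex.conj_ofReal]
      push_cast
      ring
    rw [hc]
    push_cast
    simp only [map_mul]
    ring
  have e4 : ‖((∫ x, ‖U p F x‖ ^ 2 * g x : ℝ) : ℂ)‖ ≤ ∫ z : En n × En n, ‖F z.1‖ * ‖F z.2‖ *
        KK p a b z.1 z.2 := by
    rw [e2]
    refine (norm_integral_le_integral_norm _).trans (le_of_eq ?_)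
    refine integral_congr_ae (Eventually.of_forall fun z => ?_)
    simp only
    rw [e3, norm_mul, norm_mul, RCLike.norm_conj, Complex.norm_real, Real.norm_of_nonneg
      (by unfold KK; positivity)]
  rw [Complex.norm_real] at e4
  exact (le_abs_self _).trans e4

end Run7.h726.Fl
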