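import Mathlib
import Pool.Agent.Run7.h726.Fl.A

/-! The dispersive local estimate. -/

set_option autoImplicit false

open MeasureTheory Real Set Filter Topology
open scoped ENNReal RealInnerProductSpace

namespace Run7.h726.Fl

open Pool.Agent.Helper93.Sph

/-- Schur test -/
lemma schur {n : ℕ} {S : Set (En n)} (hS : MeasurableSet S) {F : En n → ℂ} (hF : AEStronglyMeasurable F)
    (hFS : ∀ ξ, ξ ∉ S → F ξ = 0) {K : En n → En n → ℝ} (hK0 : ∀ ξ η, 0 ≤ K ξ η)
    (hKs : ∀ ξ η, K ξ η = K η ξ) (hKm : Measurable (fun z : En n × En n => K z.1 z.2)) {A : ℝ≥0∞}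
    (hker : ∀ ξ ∈ S, ∫⁻ η, S.indicator (1 : En n → ℝ≥0∞) η * ENNReal.ofReal (K ξ η) ≤ A) :
    ∫⁻ z : En n × En n, ENNReal.ofReal (‖F z.1‖ * ‖F z.2‖ * K z.1 z.2) ≤ A * ∫⁻ ξ, ‖F ξ‖ₑ ^ 2 := by
  have hm1 : AEMeasurable (fun z : En n × En n =>
      ‖F z.1‖ₑ ^ 2 * (S.indicator (1 : En n → ℝ≥0∞) z.2 * ENNReal.ofReal (K z.1 z.2)))
      (volume.prod volume) := by
    refine ((hF.comp_fst).enorm.pow_const 2).mul (AEMeasurable.mul ?_ ?_)
    · exact ((measurable_one.indicator hS).comp measurable_snd).aemeasurable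
    · exact (ENNReal.measurable_ofReal.comp hKm).aemeasurable
  have hm2 : AEMeasurable (fun z : En n × En n =>
      ‖F z.2‖ₑ ^ 2 * (S.indicator (1 : En n → ℝ≥0∞) z.1 * ENNReal.ofReal (K z.1 z.2)))
      (volume.prod volume) := by
    refine ((hF.comp_snd).enorm.pow_const 2).mul (AEMeasurable.mul ?_ ?_)
    · exact ((measurable_one.indicator hS).comp measurable_fst).aemeasurable
    · exact (ENNReal.measurable_ofReal.comp hKm).aemeasurable
  have hle : ∀ ξ, ‖F ξ‖ₑ ^ 2 * ∫⁻ η, S.indicator (1 : En n → ℝ≥0∞) η * ENNReal.ofReal (K ξ η) ≤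
      A * ‖F ξ‖ₑ ^ 2 := by
    intro ξ
    by_cases h : ξ ∈ S
    · rw [mul_comm]; exact mul_le_mul_left (hker ξ h) _
    · rw [hFS ξ h]; simp
  have hmeas1 : ∀ ξ, AEMeasurable (fun η => S.indicator (1 : En n → ℝ≥0∞) η * ENNReal.ofReal (K ξ η)) := by
    intro ξ
    refine AEMeasurable.mul (measurable_one.indicator hS).aemeasurable ?_
    exact (ENNReal.measurable_ofReal.comp (hKm.comp
      (measurable_const.prodMk measurable_id : Measurable fun η : En n => (ξ, η)))).aemeasurable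
  have hcm : AEMeasurable (fun ξ => ‖F ξ‖ₑ ^ 2) := hF.enorm.pow_const 2
  have t1 : ∫⁻ z : En n × En n,
      ‖F z.1‖ₑ ^ 2 * (S.indicator (1 : En n → ℝ≥0∞) z.2 * ENNReal.ofReal (K z.1 z.2))
      ≤ A * ∫⁻ ξ, ‖F ξ‖ₑ ^ 2 := by
    rw [Measure.volume_eq_prod, lintegral_prod _ hm1, ← lintegral_const_mul'' _ hcm]
    refine lintegral_mono fun ξ => ?_
    simp only
    rw [lintegral_const_mul'' _ (hmeas1 ξ)]
    exact hle ξ
  have t2 : ∫⁻ z : En n × En n,
      ‖F z.2‖ₑ ^ 2 * (S.indicator (1 : En n → ℝ≥0∞) z.1 * ENNReal.ofReal (K z.1 z.2))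
      ≤ A * ∫⁻ ξ, ‖F ξ‖ₑ ^ 2 := by
    rw [Measure.volume_eq_prod, lintegral_prod_symm _ hm2, ← lintegral_const_mul'' _ hcm]
    refine lintegral_mono fun ξ => ?_
    simp only
    have e : ∀ η, S.indicator (1 : En n → ℝ≥0∞) η * ENNReal.ofReal (K η ξ) =
        S.indicator (1 : En n → ℝ≥0∞) η * ENNReal.ofReal (K ξ η) := fun η => by rw [hKs η ξ]
    simp_rw [e]
    rw [lintegral_const_mul'' _ (hmeas1 ξ)]
    exact hle ξ
  have h1 : ∀ z : En n × En n,
      ENNReal.ofReal (‖F z.1‖ * ‖F z.2‖ * K z.1 z.2) ≤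
      ENNReal.ofReal (1 / 2) * (‖F z.1‖ₑ ^ 2 *
        (S.indicator (1 : En n → ℝ≥0∞) z.2 * ENNReal.ofReal (K z.1 z.2))) +
      ENNReal.ofReal (1 / 2) * (‖F z.2‖ₑ ^ 2 *
        (S.indicator (1 : En n → ℝ≥0∞) z.1 * ENNReal.ofReal (K z.1 z.2))) := by
    rintro ⟨x, y⟩
    simp only
    by_cases hx : x ∈ S
    · by_cases hy : y ∈ S
      · rw [indicator_of_mem hx, indicator_of_mem hy]
        simp only [Pi.one_apply, one_mul]
        rw [← ofReal_norm, ← ofReal_norm, ← ENNReal.ofReal_pow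
          (norm_nonneg _), ← ENNReal.ofReal_pow (norm_nonneg _), ← ENNReal.ofReal_mul
          (by positivity), ← ENNReal.ofReal_mul (by positivity), ← ENNReal.ofReal_mul
          (by positivity), ← ENNReal.ofReal_mul (by positivity), ← ENNReal.ofReal_add
          (by have := hK0 x y; positivity) (by have := hK0 x y; positivity)]
        refine ENNReal.ofReal_le_ofReal ?_
        have := hK0 x y
        nlinarith [mul_nonneg (sq_nonneg (‖F x‖ - ‖F y‖)) this]
      · have : F y = 0 := hFS y hy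
        simp [this]
    · have : F x = 0 := hFS x hx
      simp [this]
  refine (lintegral_mono h1).trans ?_
  rw [Measure.volume_eq_prod] at t1 t2 ⊢
  rw [lintegral_add_left' (hm1.const_mul _), lintegral_const_mul'' _ hm1,
    lintegral_const_mul'' _ hm2]
  refine (add_le_add (mul_le_mul_right t1 _) (mul_le_mul_right t2 _)).trans (le_of_eq ?_)
  rw [← add_mul, ← ENNReal.ofReal_add (by norm_num) (by norm_num)]
  norm_num

/-- constant -/
noncomputable def cd (m : ℕ) : ℝ := 24 * π * (m + 1) * √(m + 1)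

lemma cd_pos (m : ℕ) : 0 < cd m := by unfold cd; positivity

/-- the kernel bound in space and time -/
lemma kernT {m : ℕ} {a lam ρ : ℝ} (ha : 0 < a) (hl : 0 < lam) (hρ : 0 < ρ) {p : En (m + 1) → ℝ}
    {S : Set (En (m + 1))} (hS : MeasurableSet S)
    (hlam : ∀ ξ ∈ S, ∀ η ∈ S, lam * |‖ξ‖ - ‖η‖| ≤ |p ξ - p η|)
    {ξ : En (m + 1)} (hξ : ξ ∈ S) :
    ∫⁻ η, S.indicator (1 : En (m + 1) → ℝ≥0∞) η * ENNReal.ofReal (KK p a (1 / ρ ^ 2) ξ η)
      ≤ ENNReal.ofReal (cd m * ρ / lam) := by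
  set w : ℝ := 2 * √a / lam with hw
  have hsa : 0 < √a := Real.sqrt_pos.2 ha
  have hw0 : 0 < w := by positivity
  set KX : En (m + 1) → ℝ := fun η => (π / (1 / ρ ^ 2)) ^ (((m + 1 : ℕ) : ℝ) / 2) *
    rexp (-(π ^ 2 / (1 / ρ ^ 2)) * ‖ξ - η‖ ^ 2) with hKX
  have hKX0 : ∀ η, 0 ≤ KX η := fun η => by rw [hKX]; positivity
  set C1 : ℝ := 2 * (m + 1) * √(m + 1) * √π * ρ with hC1
  have hC10 : 0 ≤ C1 := by positivity
  let T : ℕ → Set (En (m + 1)) := fun i => {η | (i : ℝ) * w ≤ |‖ξ‖ - ‖η‖| ∧ |‖ξ‖ - ‖η‖| < (i + 1) * w}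
  have hTm : ∀ i, MeasurableSet (T i) := fun i => by
    have hm : Measurable fun η : En (m + 1) => |‖ξ‖ - ‖η‖| := by fun_prop
    exact (measurableSet_le measurable_const hm).inter (measurableSet_lt hm measurable_const)
  have hTu : ∀ η, ∃ i, η ∈ T i := by
    intro η
    refine ⟨⌊|‖ξ‖ - ‖η‖| / w⌋₊, ?_, ?_⟩
    · have := Nat.floor_le (a := |‖ξ‖ - ‖η‖| / w) (by positivity)
      rwa [le_div_iff₀ hw0] at this
    · have := Nat.lt_floor_add_one (|‖ξ‖ - ‖η‖| / w)
      rwa [div_lt_iff₀ hw0] at this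
  have hTint : ∀ i, ∫⁻ η in T i, ENNReal.ofReal (KX η) ≤ ENNReal.ofReal (3 * C1 * w) := by
    intro i
    have hsub : T i ⊆ shell (m + 1) (max 0 (‖ξ‖ - (i + 1) * w)) (max 0 (‖ξ‖ - (i + 1) * w) + 2 * w) ∪
        shell (m + 1) (‖ξ‖ + i * w) (‖ξ‖ + i * w + w) := by
      rintro η ⟨h1, h2⟩
      rcases le_total ‖η‖ ‖ξ‖ with h | h
      · left
        rw [abs_of_nonneg (by linarith)] at h1 h2
        refine ⟨max_le (norm_nonneg _) (by linarith), ?_⟩
        have := le_max_right 0 (‖ξ‖ - (i + 1) * w)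
        nlinarith
      · right
        rw [abs_of_nonpos (by linarith)] at h1 h2
        exact ⟨by linarith, by linarith⟩
    refine (lintegral_mono_set hsub).trans ((lintegral_union_le _ _ _).trans ?_)
    have k1 := kern (m := m) (r := max 0 (‖ξ‖ - (i + 1) * w)) (δ := 2 * w) (le_max_left _ _)
      (by positivity) hρ ξ
    have k2 := kern (m := m) (r := ‖ξ‖ + i * w) (δ := w) (by positivity) hw0.le hρ ξ
    refine (add_le_add k1 k2).trans ?_
    rw [← ENNReal.ofReal_add (by positivity) (by positivity)]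
    refine ENNReal.ofReal_le_ofReal (le_of_eq ?_)
    rw [hC1]; ring
  have hpt : ∀ i, ∀ η ∈ T i, S.indicator (1 : En (m + 1) → ℝ≥0∞) η *
      ENNReal.ofReal (KK p a (1 / ρ ^ 2) ξ η) ≤
      (ENNReal.ofReal ((π / a) ^ ((1 : ℝ) / 2)) * (2⁻¹ : ℝ≥0∞) ^ i) * ENNReal.ofReal (KX η) := by
    intro i η hη
    by_cases hS' : η ∈ S
    · rw [indicator_of_mem hS', Pi.one_apply, one_mul, KK, ENNReal.ofReal_mul (hKX0 η), mul_comm]
      refine mul_le_mul_left ?_ _
      rw [ENNReal.ofReal_mul (by positivity)]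
      refine mul_le_mul_right ?_ _
      have h1 : lam * ((i : ℝ) * w) ≤ |p ξ - p η| :=
        (mul_le_mul_of_nonneg_left hη.1 hl.le).trans (hlam ξ hξ η hS')
      have h2 : (lam * ((i : ℝ) * w)) ^ 2 ≤ (p ξ - p η) ^ 2 := by
        rw [← sq_abs (p ξ - p η)]
        exact pow_le_pow_left₀ (by positivity) h1 2
      have h3 : (lam * ((i : ℝ) * w)) ^ 2 = 4 * a * (i : ℝ) ^ 2 := by
        rw [hw]
        field_simp
        rw [Real.sq_sqrt ha.le]
        ring
      have h4 : -(p ξ - p η) ^ 2 / (4 * a) ≤ -(i : ℝ) := by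
        rw [div_le_iff₀ (by positivity)]
        have h5 : (i : ℝ) ≤ (i : ℝ) ^ 2 := by
          have : i ≤ i ^ 2 := Nat.le_self_pow two_ne_zero i
          exact_mod_cast this
        nlinarith
      have h6 : rexp (-(p ξ - p η) ^ 2 / (4 * a)) ≤ (2⁻¹ : ℝ) ^ i := by
        refine (Real.exp_le_exp.2 h4).trans ?_
        have : rexp (-(i : ℝ)) = (rexp (-1)) ^ i := by
          rw [← Real.exp_nat_mul]; congr 1; ring
        rw [this]
        refine pow_le_pow_left₀ (exp_pos _).le ?_ i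
        rw [Real.exp_neg]
        refine inv_anti₀ (by norm_num) ?_
        have := Real.add_one_le_exp (1 : ℝ)
        linarith
      refine (ENNReal.ofReal_le_ofReal h6).trans (le_of_eq ?_)
      rw [ENNReal.ofReal_pow (by norm_num), ENNReal.ofReal_inv_of_pos (by norm_num)]
      norm_num
    · rw [indicator_of_notMem hS']; simp
  have huniv : (univ : Set (En (m + 1))) = ⋃ i, T i := by
    ext η; simpa using hTu η
  calc ∫⁻ η, S.indicator (1 : En (m + 1) → ℝ≥0∞) η * ENNReal.ofReal (KK p a (1 / ρ ^ 2) ξ η)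
      = ∫⁻ η in ⋃ i, T i, S.indicator (1 : En (m + 1) → ℝ≥0∞) η *
          ENNReal.ofReal (KK p a (1 / ρ ^ 2) ξ η) := by rw [← huniv, setLIntegral_univ]
    _ ≤ ∑' i, ∫⁻ η in T i, S.indicator (1 : En (m + 1) → ℝ≥0∞) η *
          ENNReal.ofReal (KK p a (1 / ρ ^ 2) ξ η) := lintegral_iUnion_le _ _
    _ ≤ ∑' i, (ENNReal.ofReal ((π / a) ^ ((1 : ℝ) / 2)) * ENNReal.ofReal (3 * C1 * w)) *
          (2⁻¹ : ℝ≥0∞) ^ i := by
        refine ENNReal.tsum_le_tsum fun i => ?_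
        refine (setLIntegral_mono' (hTm i) (hpt i)).trans ?_
        rw [lintegral_const_mul' _ _ (by
          refine ENNReal.mul_ne_top ENNReal.ofReal_ne_top (ENNReal.pow_ne_top ?_)
          simp)]
        refine (mul_le_mul_right (hTint i) _).trans (le_of_eq ?_)
        ring
    _ = (ENNReal.ofReal ((π / a) ^ ((1 : ℝ) / 2)) * ENNReal.ofReal (3 * C1 * w)) * 2 := by
        rw [ENNReal.tsum_mul_left, ENNReal.tsum_geometric, ENNReal.one_sub_inv_two, inv_inv]
    _ ≤ _ := by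
        rw [← ENNReal.ofReal_mul (by positivity), show (2 : ℝ≥0∞) = ENNReal.ofReal 2 by norm_num,
          ← ENNReal.ofReal_mul (by positivity)]
        refine ENNReal.ofReal_le_ofReal (le_of_eq ?_)
        rw [← Real.sqrt_eq_rpow, Real.sqrt_div pi_pos.le, hC1, hw, cd]
        have hp : √π * √π = π := Real.mul_self_sqrt pi_pos.le
        field_simp
        ring_nf
        rw [show √π ^ 2 = π by rw [sq, hp]]

/-- **dispersive estimate**: `S` may be any measurable set on which `p` expands radial distances. -/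
theorem disp {m : ℕ} {lam ρ T : ℝ} (hl : 0 < lam) (hρ : 0 < ρ) (hT : 0 < T) {p : En (m + 1) → ℝ}
    (hp : Measurable p) {S : Set (En (m + 1))} (hS : MeasurableSet S)
    (hlam : ∀ ξ ∈ S, ∀ η ∈ S, lam * |‖ξ‖ - ‖η‖| ≤ |p ξ - p η|)
    {F : En (m + 1) → ℂ} (hF : Integrable F) (hFS : ∀ ξ, ξ ∉ S → F ξ = 0) :
    ∫⁻ z in Metric.closedBall (0 : En (m + 1)) ρ ×ˢ Icc (-T) T, ‖U p F z‖ₑ ^ 2
      ≤ ENNReal.ofReal (9 * cd m * ρ / lam) * ∫⁻ ξ, ‖F ξ‖ₑ ^ 2 := by
  set b : ℝ := 1 / ρ ^ 2 with hb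
  set a : ℝ := 1 / T ^ 2 with ha
  have hb0 : 0 < b := by positivity
  have ha0 : 0 < a := by positivity
  set g : En (m + 1) × ℝ → ℝ := fun z => rexp (-b * ‖z.1‖ ^ 2) * rexp (-a * z.2 ^ 2) with hg
  have hgi : Integrable g := (gint hb0).mul_prod (gint1 ha0)
  have hK0 : ∀ ξ η, 0 ≤ KK p a b ξ η := fun ξ η => by unfold KK; positivity
  have hKs : ∀ ξ η, KK p a b ξ η = KK p a b η ξ := fun ξ η => by
    unfold KK; rw [norm_sub_rev ξ η, ← neg_sub (p η) (p ξ), neg_sq]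
  have hKm : Measurable (fun z : En (m + 1) × En (m + 1) => KK p a b z.1 z.2) := by
    unfold KK; fun_prop
  have i1 : Integrable (fun z => ‖U p F z‖ ^ 2 * g z) := by
    refine hgi.bdd_mul (c := (∫ ξ, ‖F ξ‖) ^ 2) ?_ ?_
    · exact ((U_cont hp hF).norm.pow 2).aestronglyMeasurable
    · refine Eventually.of_forall fun x => ?_
      rw [norm_pow, norm_norm]
      exact pow_le_pow_left₀ (norm_nonneg _) (U_bdd p F x) 2
  have hmeasS : MeasurableSet (Metric.closedBall (0 : En (m + 1)) ρ ×ˢ Icc (-T) T) :=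
    Metric.isClosed_closedBall.measurableSet.prod measurableSet_Icc
  have s1 : ∫⁻ z in Metric.closedBall (0 : En (m + 1)) ρ ×ˢ Icc (-T) T, ‖U p F z‖ₑ ^ 2
      ≤ ENNReal.ofReal (rexp 2) * ENNReal.ofReal (∫ z, ‖U p F z‖ ^ 2 * g z) := by
    rw [ofReal_integral_eq_lintegral_ofReal i1 (Eventually.of_forall fun x => by
      rw [hg]; positivity),
      ← lintegral_const_mul' _ _ ENNReal.ofReal_ne_top, ← lintegral_indicator hmeasS]
    refine lintegral_mono fun z => ?_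
    rw [Set.indicator]
    split_ifs with hz
    · have hx' : ‖z.1‖ ≤ ρ := by simpa using hz.1
      have ht' : |z.2| ≤ T := abs_le.2 ⟨hz.2.1, hz.2.2⟩
      rw [← ENNReal.ofReal_mul (exp_pos _).le, ← ofReal_norm, ← ENNReal.ofReal_pow
        (norm_nonneg _)]
      refine ENNReal.ofReal_le_ofReal ?_
      have h1 : 1 ≤ rexp 2 * g z := by
        simp only [hg]
        rw [← Real.exp_add, ← Real.exp_add]
        refine Real.one_le_exp ?_
        have h2 : b * ‖z.1‖ ^ 2 ≤ 1 := by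
          rw [hb, one_div, inv_mul_le_iff₀ (by positivity), mul_one]
          exact pow_le_pow_left₀ (norm_nonneg _) hx' 2
        have h3 : a * z.2 ^ 2 ≤ 1 := by
          rw [ha, one_div, inv_mul_le_iff₀ (by positivity), mul_one, ← sq_abs]
          exact pow_le_pow_left₀ (abs_nonneg _) ht' 2
        linarith
      calc ‖U p F z‖ ^ 2 = ‖U p F z‖ ^ 2 * 1 := (mul_one _).symm
        _ ≤ ‖U p F z‖ ^ 2 * (rexp 2 * g z) :=
            mul_le_mul_of_nonneg_left h1 (by positivity)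
        _ = _ := by ring
    · exact zero_le
  have s2 : ENNReal.ofReal (∫ z, ‖U p F z‖ ^ 2 * g z) ≤
      ∫⁻ z : En (m + 1) × En (m + 1), ENNReal.ofReal (‖F z.1‖ * ‖F z.2‖ * KK p a b z.1 z.2) := by
    refine (ENNReal.ofReal_le_ofReal (pairT ha0 hb0 hp hF)).trans ?_
    rw [integral_eq_lintegral_of_nonneg_ae]
    · exact ENNReal.ofReal_toReal_le
    · exact Eventually.of_forall fun z => mul_nonneg (by positivity) (hK0 _ _)
    · rw [Measure.volume_eq_prod]
      exact ((hF.aestronglyMeasurable.norm.comp_fst).mul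
        (hF.aestronglyMeasurable.norm.comp_snd)).mul hKm.aestronglyMeasurable
  have s3 := schur hS hF.aestronglyMeasurable hFS hK0 hKs hKm
    (fun ξ hξ => kernT ha0 hl hρ hS hlam hξ)
  refine s1.trans ((mul_le_mul_right (s2.trans s3) _).trans ?_)
  rw [← mul_assoc]
  refine mul_le_mul_left ?_ _
  rw [← ENNReal.ofReal_mul (exp_pos _).le]
  refine ENNReal.ofReal_le_ofReal ?_
  have he : rexp 2 ≤ 9 := by
    have h1 : rexp 1 < 2.7182818286 := Real.exp_one_lt_d9
    have h2 : rexp 2 = rexp 1 * rexp 1 := by rw [← Real.exp_add]; norm_num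
    rw [h2]
    nlinarith [exp_pos (1 : ℝ)]
  have hc : 0 ≤ cd m * ρ / lam := by have := cd_pos m; positivity
  calc rexp 2 * (cd m * ρ / lam) ≤ 9 * (cd m * ρ / lam) := mul_le_mul_of_nonneg_right he hc
    _ = _ := by ring

end Run7.h726.Fl
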