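import Mathlib
import Pool.Agent.Run7.h726.Fl.A

/-! Suprema over short time intervals and over dyadic grids. -/

set_option autoImplicit false

open MeasureTheory Real Set Filter Topology
open scoped ENNReal RealInnerProductSpace

namespace Run7.h726.Fl

open Pool.Agent.Helper93.Sph

/-- the value of a function against the averages of it and its derivative -/
lemma osc {f f' : ℝ → ℂ} (hf : ∀ t, HasDerivAt f (f' t) t) (hf' : Continuous f') {c d : ℝ}
    (hcd : c < d) {t : ℝ} (ht : t ∈ Icc c d) :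
    ‖f t‖ ^ 2 ≤ 2 / (d - c) * (∫ s in c..d, ‖f s‖ ^ 2) + 2 * (d - c) * (∫ s in c..d, ‖f' s‖ ^ 2) := by
  have hfc : Continuous f := continuous_iff_continuousAt.2 fun t => (hf t).continuousAt
  set J : ℝ := ∫ s in c..d, ‖f' s‖ with hJ
  have hd : 0 < d - c := by linarith
  have hJ0 : 0 ≤ J := intervalIntegral.integral_nonneg hcd.le fun s _ => norm_nonneg _
  have key : ∀ s ∈ Icc c d, ‖f t‖ ≤ ‖f s‖ + J := by
    intro s hs
    have h1 : ∫ u in s..t, f' u = f t - f s :=
      intervalIntegral.integral_eq_sub_of_hasDerivAt (fun u _ => hf u)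
        (hf'.intervalIntegrable _ _)
    have h2 : ‖f t - f s‖ ≤ J := by
      rw [← h1]
      refine intervalIntegral.norm_integral_le_abs_integral_norm.trans ?_
      have h3 : |∫ u in s..t, ‖f' u‖| ≤ |∫ u in c..d, ‖f' u‖| := by
        refine intervalIntegral.abs_integral_mono_interval ?_ ?_ (hf'.norm.intervalIntegrable _ _)
        · rw [uIoc_of_le hcd.le]
          intro u hu
          rcases le_total s t with h | h
          · rw [uIoc_of_le h] at hu
            exact ⟨lt_of_le_of_lt hs.1 hu.1, hu.2.trans ht.2⟩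
          · rw [uIoc_of_ge h] at hu
            exact ⟨lt_of_le_of_lt ht.1 hu.1, hu.2.trans hs.2⟩
        · exact Eventually.of_forall fun u => norm_nonneg _
      rwa [← hJ, abs_of_nonneg hJ0] at h3
    calc ‖f t‖ = ‖f s + (f t - f s)‖ := by congr 1; ring
      _ ≤ ‖f s‖ + ‖f t - f s‖ := norm_add_le _ _
      _ ≤ _ := by linarith
  have i1 : IntervalIntegrable (fun s => ‖f s‖ ^ 2) volume c d :=
    (hfc.norm.pow 2).intervalIntegrable _ _
  have i2 : IntervalIntegrable (fun s => ‖f' s‖ ^ 2) volume c d :=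
    (hf'.norm.pow 2).intervalIntegrable _ _
  have i3 : IntervalIntegrable (fun s => ‖f' s‖) volume c d := hf'.norm.intervalIntegrable _ _
  have s1 : (d - c) * ‖f t‖ ^ 2 ≤ 2 * (∫ s in c..d, ‖f s‖ ^ 2) + 2 * (d - c) * J ^ 2 := by
    have h1 : ∫ s in c..d, ‖f t‖ ^ 2 ≤ ∫ s in c..d, (2 * ‖f s‖ ^ 2 + 2 * J ^ 2) := by
      refine intervalIntegral.integral_mono_on hcd.le (by simp) ((i1.const_mul 2).add (by simp)) ?_
      intro s hs
      have h2 := key s hs
      have h3 := norm_nonneg (f t)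
      have h4 := norm_nonneg (f s)
      nlinarith [sq_nonneg (‖f s‖ - J)]
    rw [intervalIntegral.integral_const, intervalIntegral.integral_add (i1.const_mul 2) (by simp),
      intervalIntegral.integral_const_mul, intervalIntegral.integral_const, smul_eq_mul,
      smul_eq_mul] at h1
    linarith
  have s2 : J ^ 2 ≤ (d - c) * ∫ s in c..d, ‖f' s‖ ^ 2 := by
    have h1 : 0 ≤ ∫ s in c..d, (‖f' s‖ ^ 2 - 2 * (J / (d - c)) * ‖f' s‖ + (J / (d - c)) ^ 2) := by
      refine intervalIntegral.integral_nonneg hcd.le fun s _ => ?_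
      nlinarith [sq_nonneg (‖f' s‖ - J / (d - c))]
    rw [intervalIntegral.integral_add (i2.sub (i3.const_mul _)) (by simp),
      intervalIntegral.integral_sub i2 (i3.const_mul _), intervalIntegral.integral_const_mul,
      intervalIntegral.integral_const, smul_eq_mul, ← hJ] at h1
    have h2 : (d - c) * (2 * (J / (d - c)) * J) = 2 * J ^ 2 := by field_simp
    have h3 : (d - c) * ((d - c) * (J / (d - c)) ^ 2) = J ^ 2 := by field_simp
    nlinarith [mul_nonneg hd.le h1]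
  have s3 : ‖f t‖ ^ 2 ≤ (2 * (∫ s in c..d, ‖f s‖ ^ 2) + 2 * (d - c) * J ^ 2) / (d - c) := by
    rw [le_div_iff₀ hd]; linarith
  have s4 : (2 * (∫ s in c..d, ‖f s‖ ^ 2) + 2 * (d - c) * J ^ 2) / (d - c) =
      2 / (d - c) * (∫ s in c..d, ‖f s‖ ^ 2) + 2 * J ^ 2 := by field_simp
  rw [s4] at s3
  linarith

/-- the same, for lower Lebesgue integrals -/
lemma osc_e {f f' : ℝ → ℂ} (hf : ∀ t, HasDerivAt f (f' t) t) (hf' : Continuous f') {c d : ℝ}
    (hcd : c < d) {t : ℝ} (ht : t ∈ Icc c d) :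
    ‖f t‖ₑ ^ 2 ≤ ENNReal.ofReal (2 / (d - c)) * (∫⁻ s in Ioc c d, ‖f s‖ₑ ^ 2) +
      ENNReal.ofReal (2 * (d - c)) * (∫⁻ s in Ioc c d, ‖f' s‖ₑ ^ 2) := by
  have hfc : Continuous f := continuous_iff_continuousAt.2 fun t => (hf t).continuousAt
  have hd : 0 < d - c := by linarith
  have conv : ∀ g : ℝ → ℂ, Continuous g →
      ∫⁻ s in Ioc c d, ‖g s‖ₑ ^ 2 = ENNReal.ofReal (∫ s in c..d, ‖g s‖ ^ 2) := by
    intro g hg
    rw [intervalIntegral.integral_of_le hcd.le, ofReal_integral_eq_lintegral_ofReal]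
    · refine lintegral_congr fun s => ?_
      rw [ENNReal.ofReal_pow (norm_nonneg _), ofReal_norm]
    · have := (hg.norm.pow 2).intervalIntegrable (μ := volume) c d
      rwa [intervalIntegrable_iff_integrableOn_Ioc_of_le hcd.le] at this
    · exact Eventually.of_forall fun s => by positivity
  rw [conv f hfc, conv f' hf', ← ENNReal.ofReal_mul (by positivity),
    ← ENNReal.ofReal_mul (by positivity), ← ENNReal.ofReal_add, ← ofReal_norm,
    ← ENNReal.ofReal_pow (norm_nonneg _)]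
  · exact ENNReal.ofReal_le_ofReal (osc hf hf' hcd ht)
  · exact mul_nonneg (by positivity) (intervalIntegral.integral_nonneg hcd.le fun s _ => by positivity)
  · exact mul_nonneg (by positivity) (intervalIntegral.integral_nonneg hcd.le fun s _ => by positivity)

/-- the amplitude of the normalised time derivative -/
noncomputable def dm {n : ℕ} (p : En n → ℝ) (V : ℝ) (F : En n → ℂ) : En n → ℂ :=
  fun ξ => ((p ξ / V : ℝ) : ℂ) * Complex.I * F ξ

lemma dm_norm {n : ℕ} {p : En n → ℝ} {V : ℝ} (hV : 0 < V) {F : En n → ℂ}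
    (hp : ∀ ξ, F ξ ≠ 0 → |p ξ| ≤ V) (ξ : En n) : ‖dm p V F ξ‖ ≤ ‖F ξ‖ := by
  rw [dm, norm_mul, norm_mul, Complex.norm_I, mul_one, Complex.norm_real, Real.norm_eq_abs,
    abs_div, abs_of_pos hV]
  by_cases h : F ξ = 0
  · simp [h]
  · have : |p ξ| / V ≤ 1 := by rw [div_le_one hV]; exact hp ξ h
    calc |p ξ| / V * ‖F ξ‖ ≤ 1 * ‖F ξ‖ := mul_le_mul_of_nonneg_right this (norm_nonneg _)
      _ = _ := one_mul _

lemma dm_int {n : ℕ} {p : En n → ℝ} (hm : Measurable p) {V : ℝ} (hV : 0 < V) {F : En n → ℂ}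
    (hF : Integrable F) (hp : ∀ ξ, F ξ ≠ 0 → |p ξ| ≤ V) : Integrable (dm p V F) := by
  refine hF.mono ?_ (Eventually.of_forall fun ξ => dm_norm hV hp ξ)
  refine AEStronglyMeasurable.mul ?_ hF.aestronglyMeasurable
  have : Measurable fun ξ : En n => ((p ξ / V : ℝ) : ℂ) * Complex.I := by fun_prop
  exact this.aestronglyMeasurable

lemma U_deriv {n : ℕ} {p : En n → ℝ} (hm : Measurable p) {V : ℝ} (hV : 0 < V) {F : En n → ℂ}
    (hF : Integrable F) (hp : ∀ ξ, F ξ ≠ 0 → |p ξ| ≤ V) (x : En n) (t : ℝ) :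
    HasDerivAt (fun t => U p F (x, t)) (V * U p (dm p V F) (x, t)) t := by
  have h := hasDerivAt_integral_of_dominated_loc_of_deriv_le (μ := (volume : Measure (En n)))
    (F := fun (s : ℝ) ξ => ek x ξ * tw p s F ξ)
    (F' := fun (s : ℝ) ξ => ek x ξ * (V * tw p s (dm p V F) ξ)) (x₀ := t) (s := univ)
    (bound := fun ξ => V * ‖dm p V F ξ‖) univ_mem
    (Eventually.of_forall fun s => (ek_int (tw_int hm s hF) x).aestronglyMeasurable)
    (ek_int (tw_int hm t hF) x)
    ((ek_int ((tw_int hm t (dm_int hm hV hF hp)).const_mul (V : ℂ)) x).aestronglyMeasurable)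
    (Eventually.of_forall fun ξ s _ => by
      rw [norm_mul, norm_mul, ek_norm, one_mul, tw_norm, Complex.norm_real,
        Real.norm_of_nonneg hV.le])
    ((dm_int hm hV hF hp).norm.const_mul V)
    (Eventually.of_forall fun ξ s _ => by
      have h1 : HasDerivAt (fun s : ℝ => (((s * p ξ : ℝ) : ℂ) * Complex.I))
          (((p ξ : ℝ) : ℂ) * Complex.I) s := by
        have h2 : HasDerivAt (fun s : ℝ => ((s * p ξ : ℝ) : ℂ)) ((p ξ : ℝ) : ℂ) s := by
          have := ((hasDerivAt_id s).mul_const (p ξ)).ofReal_comp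
          simpa using this
        exact h2.mul_const _
      have h3 := ((h1.cexp).mul_const (F ξ)).const_mul (ek x ξ)
      refine h3.congr_deriv ?_
      simp only [tw, dm]
      have hV' : (V : ℂ) ≠ 0 := by exact_mod_cast hV.ne'
      push_cast
      field_simp)
  have e : V * U p (dm p V F) (x, t) = ∫ ξ, ek x ξ * (V * tw p t (dm p V F) ξ) := by
    rw [U, Fi, ← integral_const_mul]
    refine integral_congr_ae (Eventually.of_forall fun ξ => ?_)
    simp only
    ring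
  rw [e]
  exact h.2

/-- the square function in time on an interval -/
noncomputable def HH {n : ℕ} (p : En n → ℝ) (V : ℝ) (F : En n → ℂ) (x : En n) (I : Set ℝ) : ℝ≥0∞ :=
  ∫⁻ s in I, (‖U p F (x, s)‖ₑ ^ 2 + ‖U p (dm p V F) (x, s)‖ₑ ^ 2)

lemma HH_meas {n : ℕ} {p : En n → ℝ} (hm : Measurable p) {V : ℝ} (hV : 0 < V) {F : En n → ℂ}
    (hF : Integrable F) (hp : ∀ ξ, F ξ ≠ 0 → |p ξ| ≤ V) (I : Set ℝ) :
    Measurable fun x => HH p V F x I := by
  have h : Measurable fun z : En n × ℝ => ‖U p F z‖ₑ ^ 2 + ‖U p (dm p V F) z‖ₑ ^ 2 :=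
    ((U_cont hm hF).enorm.measurable.pow_const 2).add
      ((U_cont hm (dm_int hm hV hF hp)).enorm.measurable.pow_const 2)
  exact h.lintegral_prod_right'

lemma sup_time {n : ℕ} {p : En n → ℝ} (hm : Measurable p) {V : ℝ} (hV : 0 < V) {F : En n → ℂ}
    (hF : Integrable F) (hp : ∀ ξ, F ξ ≠ 0 → |p ξ| ≤ V) (x : En n) {c t : ℝ}
    (ht : t ∈ Icc c (c + 1 / V)) :
    ‖U p F (x, t)‖ₑ ^ 2 ≤ ENNReal.ofReal (2 * V) * HH p V F x (Ioc c (c + 1 / V)) := by
  have hc' : Continuous fun t => (V : ℂ) * U p (dm p V F) (x, t) :=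
    continuous_const.mul ((U_cont hm (dm_int hm hV hF hp)).comp (by fun_prop))
  have hV1 : 0 < 1 / V := by positivity
  have h := osc_e (fun t => U_deriv hm hV hF hp x t) hc' (by linarith : c < c + 1 / V) ht
  refine h.trans (le_of_eq ?_)
  have e0 : c + 1 / V - c = 1 / V := by ring
  have e1 : ENNReal.ofReal (2 / (c + 1 / V - c)) = ENNReal.ofReal (2 * V) := by
    rw [e0]; congr 1; field_simp
  have e2 : ∫⁻ s in Ioc c (c + 1 / V), ‖(V : ℂ) * U p (dm p V F) (x, s)‖ₑ ^ 2 =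
      ENNReal.ofReal (V ^ 2) * ∫⁻ s in Ioc c (c + 1 / V), ‖U p (dm p V F) (x, s)‖ₑ ^ 2 := by
    rw [← lintegral_const_mul' _ _ ENNReal.ofReal_ne_top]
    refine lintegral_congr fun s => ?_
    rw [enorm_mul, mul_pow, ← ofReal_norm (V : ℂ), Complex.norm_real, Real.norm_of_nonneg hV.le,
      ENNReal.ofReal_pow hV.le]
  have e3 : (0 : ℝ) ≤ 2 * (c + 1 / V - c) := by rw [e0]; positivity
  rw [e1, e2, HH, lintegral_add_left, mul_add, ← mul_assoc, ← ENNReal.ofReal_mul e3]
  · congr 3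
    rw [e0]
    field_simp
  · have hcc : Continuous fun s : ℝ => ‖U p F (x, s)‖ₑ ^ 2 := by
      have : Continuous fun s : ℝ => U p F (x, s) := (U_cont hm hF).comp (by fun_prop)
      exact (ENNReal.continuous_pow 2).comp this.enorm
    exact hcc.measurable

/-- chaining -/
lemma chain_real (L : ℕ) : ∀ (s : ℕ → ℂ) (i : ℕ), i ≤ 2 ^ L →
    ‖s i - s 0‖ ^ 2 ≤ (L + 1) * ∑ j ∈ Finset.range (L + 1), ∑ k ∈ Finset.range (2 ^ j),
      ‖s ((k + 1) * 2 ^ (L - j)) - s (k * 2 ^ (L - j))‖ ^ 2 := by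
  induction L with
  | zero =>
    intro s i hi
    simp only [pow_zero] at hi
    have : i = 0 ∨ i = 1 := by omega
    rcases this with rfl | rfl
    · simp
    · simp
  | succ L ih =>
    intro s i hi
    have h1 := ih (fun k => s (2 * k)) (i / 2) (by
      have : 2 ^ (L + 1) = 2 * 2 ^ L := by ring
      omega)
    simp only [mul_zero] at h1
    set A := ∑ j ∈ Finset.range (L + 1), ∑ k ∈ Finset.range (2 ^ j),
      ‖s ((k + 1) * 2 ^ (L + 1 - j)) - s (k * 2 ^ (L + 1 - j))‖ ^ 2 with hA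
    have hAe : ∑ j ∈ Finset.range (L + 1), ∑ k ∈ Finset.range (2 ^ j),
        ‖s (2 * ((k + 1) * 2 ^ (L - j))) - s (2 * (k * 2 ^ (L - j)))‖ ^ 2 = A := by
      refine Finset.sum_congr rfl fun j hj => Finset.sum_congr rfl fun k _ => ?_
      have hj' : j ≤ L := by simpa [Nat.lt_succ_iff] using hj
      have e1 : 2 * ((k + 1) * 2 ^ (L - j)) = (k + 1) * 2 ^ (L + 1 - j) := by
        rw [show L + 1 - j = (L - j) + 1 by omega, pow_succ]; ring
      have e2 : 2 * (k * 2 ^ (L - j)) = k * 2 ^ (L + 1 - j) := by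
        rw [show L + 1 - j = (L - j) + 1 by omega, pow_succ]; ring
      rw [e1, e2]
    rw [hAe] at h1
    set B := ∑ k ∈ Finset.range (2 ^ (L + 1)), ‖s ((k + 1) * 2 ^ (L + 1 - (L + 1))) -
      s (k * 2 ^ (L + 1 - (L + 1)))‖ ^ 2 with hB
    have hB0 : 0 ≤ B := Finset.sum_nonneg fun k _ => by positivity
    have h2 : ‖s i - s (2 * (i / 2))‖ ^ 2 ≤ B := by
      rcases Nat.even_or_odd' i with ⟨c, hc | hc⟩
      · have : 2 * (i / 2) = i := by omega
        rw [this]; simpa using hB0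
      · have e : i = 2 * (i / 2) + 1 := by omega
        have hk : 2 * (i / 2) ∈ Finset.range (2 ^ (L + 1)) := by
          rw [Finset.mem_range]; omega
        have := Finset.single_le_sum (f := fun k => ‖s ((k + 1) * 2 ^ (L + 1 - (L + 1))) -
          s (k * 2 ^ (L + 1 - (L + 1)))‖ ^ 2) (fun k _ => by positivity) hk
        refine le_trans (le_of_eq ?_) this
        simp only [Nat.sub_self, pow_zero, mul_one]
        rw [← e]
    have h3 : ‖s i - s 0‖ ≤ ‖s (2 * (i / 2)) - s 0‖ + ‖s i - s (2 * (i / 2))‖ := by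
      calc ‖s i - s 0‖ = ‖(s (2 * (i / 2)) - s 0) + (s i - s (2 * (i / 2)))‖ := by congr 1; ring
        _ ≤ _ := norm_add_le _ _
    rw [Finset.sum_range_succ, ← hA, ← hB]
    set x := ‖s (2 * (i / 2)) - s 0‖ with hx
    set y := ‖s i - s (2 * (i / 2))‖ with hy
    have hx0 : 0 ≤ x := norm_nonneg _
    have hy0 : 0 ≤ y := norm_nonneg _
    have hL : (0 : ℝ) < L + 1 := by positivity
    have h4 : ‖s i - s 0‖ ^ 2 ≤ (x + y) ^ 2 := pow_le_pow_left₀ (norm_nonneg _) h3 2
    have h5 : (x + y) ^ 2 ≤ (L + 2) * (x ^ 2 / (L + 1) + y ^ 2) := by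
      have h6 : 0 ≤ (x - (L + 1) * y) ^ 2 / (L + 1) := by positivity
      have h7 : (L + 2) * (x ^ 2 / (L + 1) + y ^ 2) - (x + y) ^ 2 =
          (x - (L + 1) * y) ^ 2 / (L + 1) := by
        field_simp
        ring
      linarith
    have h8 : x ^ 2 / (L + 1) ≤ A := by
      rw [div_le_iff₀ hL]; linarith
    push_cast
    calc ‖s i - s 0‖ ^ 2 ≤ (L + 2) * (x ^ 2 / (L + 1) + y ^ 2) := h4.trans h5
      _ ≤ (L + 2) * (A + B) := by
          refine mul_le_mul_of_nonneg_left (add_le_add h8 h2) (by positivity)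
      _ = _ := by ring

lemma chain (L : ℕ) (s : ℕ → ℂ) {i : ℕ} (hi : i ≤ 2 ^ L) :
    ‖s i - s 0‖ₑ ^ 2 ≤ (L + 1) * ∑ j ∈ Finset.range (L + 1), ∑ k ∈ Finset.range (2 ^ j),
      ‖s ((k + 1) * 2 ^ (L - j)) - s (k * 2 ^ (L - j))‖ₑ ^ 2 := by
  have h := ENNReal.ofReal_le_ofReal (chain_real L s i hi)
  rw [ENNReal.ofReal_pow (norm_nonneg _), ofReal_norm, ENNReal.ofReal_mul (by positivity),
    ENNReal.ofReal_sum_of_nonneg (fun j _ => Finset.sum_nonneg fun k _ => by positivity)] at h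
  refine h.trans (le_of_eq ?_)
  congr 1
  · rw [ENNReal.ofReal_add (by positivity) (by norm_num)]; simp
  · refine Finset.sum_congr rfl fun j _ => ?_
    rw [ENNReal.ofReal_sum_of_nonneg (fun k _ => by positivity)]
    refine Finset.sum_congr rfl fun k _ => ?_
    rw [ENNReal.ofReal_pow (norm_nonneg _), ofReal_norm]

end Run7.h726.Fl
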