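import Mathlib
import Pool.Agent.Run7.h726.Fl.B
import Pool.Agent.Run7.h726.Fl.C
import Pool.Agent.Helper93.Sph.F
import Pool.Agent.Helper93.Sph.W1

/-! One dyadic block: all radii, and suprema over short time intervals. -/

set_option autoImplicit false

open MeasureTheory Real Set Filter Topology
open scoped ENNReal RealInnerProductSpace

namespace Run7.h726.Fl

open Pool.Agent.Helper93.Sph

/-- the symbol `|ξ|^e` -/
noncomputable def pw {n : ℕ} (e : ℝ) : En n → ℝ := fun ξ => ‖ξ‖ ^ e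

lemma pw_meas {n : ℕ} (e : ℝ) : Measurable (pw (n := n) e) := measurable_norm.pow_const e

lemma pw_diff {e : ℝ} (he : 1 ≤ e) {b : ℝ} (hb : 0 < b) : ∀ {x y : ℝ}, b ≤ x → b ≤ y →
    b ^ (e - 1) * |x - y| ≤ |x ^ e - y ^ e| := by
  have main : ∀ x y : ℝ, b ≤ x → b ≤ y → y ≤ x →
      b ^ (e - 1) * |x - y| ≤ |x ^ e - y ^ e| := by
    intro x y hx hy h
    have hx0 : 0 < x := hb.trans_le hx
    have hy0 : 0 < y := hb.trans_le hy
    have e1 : x ^ e = x ^ (e - 1) * x := by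
      rw [← Real.rpow_add_one hx0.ne']; congr 1; ring
    have e2 : y ^ e = y ^ (e - 1) * y := by
      rw [← Real.rpow_add_one hy0.ne']; congr 1; ring
    have h1 : y ^ (e - 1) ≤ x ^ (e - 1) := Real.rpow_le_rpow hy0.le h (by linarith)
    have h2 : b ^ (e - 1) ≤ y ^ (e - 1) := Real.rpow_le_rpow hb.le hy (by linarith)
    rw [abs_of_nonneg (sub_nonneg.2 h), e1, e2]
    refine le_trans ?_ (le_abs_self _)
    nlinarith [mul_le_mul_of_nonneg_right h1 hx0.le,
      mul_le_mul_of_nonneg_right h2 (sub_nonneg.2 h)]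
  intro x y hx hy
  rcases le_total y x with h | h
  · exact main x y hx hy h
  · rw [abs_sub_comm, abs_sub_comm (x ^ e)]; exact main y x hy hx h

lemma time_sum {m : ℕ} {p : En (m + 1) → ℝ} (hp : Measurable p) {V lam ρ T : ℝ} (hV : 0 < V)
    (hl : 0 < lam) (hρ : 0 < ρ) (hT : 0 < T) {S : Set (En (m + 1))} (hS : MeasurableSet S)
    (hlam : ∀ ξ ∈ S, ∀ η ∈ S, lam * |‖ξ‖ - ‖η‖| ≤ |p ξ - p η|)
    {F : En (m + 1) → ℂ} (hF : Integrable F) (hFS : ∀ ξ, ξ ∉ S → F ξ = 0)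
    (hpV : ∀ ξ, F ξ ≠ 0 → |p ξ| ≤ V) {Q : ℕ} (hQ : Q / V ≤ 2 * T + 1) :
    ∑ q ∈ Finset.range Q, ∫⁻ x in Metric.closedBall (0 : En (m + 1)) ρ,
        HH p V F x (Ioc (-T + q / V) (-T + q / V + 1 / V))
      ≤ ENNReal.ofReal (18 * cd m * ρ / lam) * ∫⁻ ξ, ‖F ξ‖ₑ ^ 2 := by
  have hdi := dm_int hp hV hF hpV
  have c1 : Measurable fun z : En (m + 1) × ℝ => ‖U p F z‖ₑ ^ 2 :=
    (U_cont hp hF).enorm.measurable.pow_const 2
  have c2 : Measurable fun z : En (m + 1) × ℝ => ‖U p (dm p V F) z‖ₑ ^ 2 :=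
    (U_cont hp hdi).enorm.measurable.pow_const 2
  have e1 : ∀ q ∈ Finset.range Q, ∫⁻ x in Metric.closedBall (0 : En (m + 1)) ρ,
        HH p V F x (Ioc (-T + q / V) (-T + q / V + 1 / V)) =
      ∫⁻ z in Metric.closedBall (0 : En (m + 1)) ρ ×ˢ Ioc (-T + q / V) (-T + q / V + 1 / V),
        (‖U p F z‖ₑ ^ 2 + ‖U p (dm p V F) z‖ₑ ^ 2) := by
    intro q _
    have c12 : Measurable fun z : En (m + 1) × ℝ =>
      ‖U p F z‖ₑ ^ 2 + ‖U p (dm p V F) z‖ₑ ^ 2 := c1.add c2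
    rw [Measure.volume_eq_prod, ← Measure.prod_restrict, lintegral_prod _ c12.aemeasurable]
    rfl
  rw [Finset.sum_congr rfl e1, ← lintegral_biUnion_finset]
  rotate_left
  · intro i _ j _ hij
    rw [Function.onFun, Set.disjoint_prod]
    right
    rw [Set.disjoint_left]
    intro s hs hs'
    have key : ∀ a b : ℕ, a < b → s ∈ Ioc (-T + a / V) (-T + a / V + 1 / V) →
        s ∈ Ioc (-T + b / V) (-T + b / V + 1 / V) → False := by
      intro a b hab h1 h2
      have h3 : ((a : ℝ) + 1) / V ≤ b / V :=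
        div_le_div_of_nonneg_right (by exact_mod_cast hab) hV.le
      rw [add_div] at h3
      linarith [h1.2, h2.1]
    rcases lt_or_gt_of_ne hij with h | h
    · exact key i j h hs hs'
    · exact key j i h hs' hs
  · intro q _
    exact Metric.isClosed_closedBall.measurableSet.prod measurableSet_Ioc
  have hsub : (⋃ q ∈ Finset.range Q, Metric.closedBall (0 : En (m + 1)) ρ ×ˢ
      Ioc (-T + (q : ℝ) / V) (-T + q / V + 1 / V)) ⊆
      Metric.closedBall (0 : En (m + 1)) ρ ×ˢ Icc (-(T + 1)) (T + 1) := by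
    intro z hz
    simp only [mem_iUnion] at hz
    obtain ⟨q, hq, hz⟩ := hz
    refine ⟨hz.1, ?_, ?_⟩
    · have : 0 ≤ (q : ℝ) / V := by positivity
      linarith [hz.2.1]
    · have h1 : ((q : ℝ) + 1) / V ≤ Q / V := by
        refine div_le_div_of_nonneg_right ?_ hV.le
        exact_mod_cast Nat.succ_le_of_lt (Finset.mem_range.1 hq)
      rw [add_div] at h1
      linarith [hz.2.2]
  refine (lintegral_mono_set hsub).trans ?_
  rw [lintegral_add_left c1]
  have d1 := disp hl hρ (by linarith : 0 < T + 1) hp hS hlam hF hFS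
  have d2 := disp hl hρ (by linarith : 0 < T + 1) hp hS hlam hdi
    (fun ξ hξ => by rw [dm, hFS ξ hξ, mul_zero])
  have d3 : ∫⁻ ξ, ‖dm p V F ξ‖ₑ ^ 2 ≤ ∫⁻ ξ, ‖F ξ‖ₑ ^ 2 := by
    refine lintegral_mono fun ξ => ?_
    refine pow_le_pow_left₀ (by simp) ?_ 2
    rw [← ofReal_norm, ← ofReal_norm]
    exact ENNReal.ofReal_le_ofReal (dm_norm hV hpV ξ)
  calc _ ≤ ENNReal.ofReal (9 * cd m * ρ / lam) * (∫⁻ ξ, ‖F ξ‖ₑ ^ 2) +
        ENNReal.ofReal (9 * cd m * ρ / lam) * ∫⁻ ξ, ‖F ξ‖ₑ ^ 2 :=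
        add_le_add d1 (d2.trans (mul_le_mul_right d3 _))
    _ = _ := by
        have := cd_pos m
        rw [← add_mul, ← ENNReal.ofReal_add (by positivity) (by positivity)]
        congr 2
        ring

/-- bound for the symbol on the block -/
noncomputable def VV (e : ℝ) (l : ℕ) : ℝ := ((2 : ℝ) ^ (l + 1)) ^ e

lemma VV_pos (e : ℝ) (l : ℕ) : 0 < VV e l := by unfold VV; positivity

/-- radii -/
noncomputable def rr (l L i : ℕ) : ℝ := 2 ^ l + i * (2 ^ l / 2 ^ L)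

lemma rr_zero (l L : ℕ) : rr l L 0 = 2 ^ l := by simp [rr]

lemma rr_top (l L : ℕ) : rr l L (2 ^ L) = 2 ^ (l + 1) := by
  rw [rr]; push_cast; field_simp; ring

lemma rr_mono (l L : ℕ) : Monotone (rr l L) := by
  intro a b h
  unfold rr
  have : (a : ℝ) ≤ b := by exact_mod_cast h
  gcongr

lemma U_shell_add {n : ℕ} {p : En n → ℝ} (hp : Measurable p) {G : En n → ℂ} (hG : MemLp G 2)
    {r s u : ℝ} (h1 : r ≤ s) (h2 : s ≤ u) (z : En n × ℝ) :
    U p ((shell n r u).indicator G) z =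
      U p ((shell n r s).indicator G) z + U p ((shell n s u).indicator G) z := by
  rw [U, U, U, Fi, Fi, Fi, ← integral_add (ek_int (tw_int hp _ (ind_int hG _ _)) _)
    (ek_int (tw_int hp _ (ind_int hG _ _)) _)]
  refine integral_congr_ae (Eventually.of_forall fun ξ => ?_)
  simp only [tw]
  by_cases a : r ≤ ‖ξ‖
  · by_cases b : ‖ξ‖ < s
    · have m1 : ξ ∈ shell n r u := ⟨a, b.trans_le h2⟩
      have m2 : ξ ∈ shell n r s := ⟨a, b⟩
      have m3 : ξ ∉ shell n s u := fun h => absurd h.1 (not_le.2 b)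
      rw [indicator_of_mem m1, indicator_of_mem m2, indicator_of_notMem m3]; ring
    · by_cases c : ‖ξ‖ < u
      · have m1 : ξ ∈ shell n r u := ⟨a, c⟩
        have m2 : ξ ∉ shell n r s := fun h => b h.2
        have m3 : ξ ∈ shell n s u := ⟨not_lt.1 b, c⟩
        rw [indicator_of_mem m1, indicator_of_notMem m2, indicator_of_mem m3]; ring
      · have m1 : ξ ∉ shell n r u := fun h => c h.2
        have m2 : ξ ∉ shell n r s := fun h => b h.2
        have m3 : ξ ∉ shell n s u := fun h => c h.2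
        rw [indicator_of_notMem m1, indicator_of_notMem m2, indicator_of_notMem m3]; ring
  · have m1 : ξ ∉ shell n r u := fun h => a h.1
    have m2 : ξ ∉ shell n r s := fun h => a h.1
    have m3 : ξ ∉ shell n s u := fun h => a (h1.trans h.1)
    rw [indicator_of_notMem m1, indicator_of_notMem m2, indicator_of_notMem m3]; ring

lemma U_shell_self {n : ℕ} {p : En n → ℝ} {G : En n → ℂ} (r : ℝ) (z : En n × ℝ) :
    U p ((shell n r r).indicator G) z = 0 := by
  have : shell n r r = ∅ := by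
    ext ξ; simp only [shell, mem_ofPred_eq, mem_empty_iff_false, iff_false]
    rintro ⟨h1, h2⟩; exact absurd h2 (not_lt.2 h1)
  rw [U, Fi, this]
  simp [tw]

/-- the block square function -/
noncomputable def Ph {m : ℕ} (e : ℝ) (G : En (m + 1) → ℂ) (l L : ℕ) (x : En (m + 1)) (I : Set ℝ) :
    ℝ≥0∞ :=
  ENNReal.ofReal (2 * VV e l) * ((L + 1) * ∑ j ∈ Finset.range (L + 1), ∑ k ∈ Finset.range (2 ^ j),
    HH (pw e) (VV e l) ((shell (m + 1) (rr l L (k * 2 ^ (L - j)))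
      (rr l L ((k + 1) * 2 ^ (L - j)))).indicator G) x I)

lemma idx_le {L j k : ℕ} (hj : j ∈ Finset.range (L + 1)) (hk : k ∈ Finset.range (2 ^ j)) :
    (k + 1) * 2 ^ (L - j) ≤ 2 ^ L := by
  rw [Finset.mem_range] at hj hk
  calc (k + 1) * 2 ^ (L - j) ≤ 2 ^ j * 2 ^ (L - j) := Nat.mul_le_mul_right _ hk
    _ = 2 ^ L := by rw [← pow_add]; congr 1; omega

lemma blk_V {m : ℕ} {e : ℝ} (he : 1 ≤ e) {G : En (m + 1) → ℂ} {l : ℕ} {a b : ℝ}
    (hb : b ≤ 2 ^ (l + 1)) (ξ : En (m + 1)) (h : (shell (m + 1) a b).indicator G ξ ≠ 0) :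
    |pw e ξ| ≤ VV e l := by
  have hξ : ξ ∈ shell (m + 1) a b := by
    by_contra h'
    exact h (indicator_of_notMem h' _)
  rw [pw, abs_of_nonneg (by positivity), VV]
  exact Real.rpow_le_rpow (norm_nonneg _) (hξ.2.le.trans hb) (by linarith)

lemma Ph_meas {m : ℕ} {e : ℝ} (he : 1 ≤ e) {G : En (m + 1) → ℂ} (hG : MemLp G 2) (l L : ℕ)
    (I : Set ℝ) : Measurable fun x => Ph e G l L x I := by
  unfold Ph
  refine Measurable.const_mul (Measurable.const_mul ?_ _) _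
  refine Finset.measurable_sum _ fun j hj => Finset.measurable_sum _ fun k hk => ?_
  refine HH_meas (pw_meas e) (VV_pos e l) (ind_int hG _ _) ?_ I
  intro ξ hξ
  refine blk_V he ?_ ξ hξ
  rw [← rr_top l L]; exact rr_mono l L (idx_le hj hk)

lemma grid_sup {m : ℕ} {e : ℝ} (he : 1 ≤ e) {G : En (m + 1) → ℂ} (hG : MemLp G 2) (l L : ℕ)
    {i : ℕ} (hi : i ≤ 2 ^ L) (x : En (m + 1)) {c t : ℝ} (ht : t ∈ Icc c (c + 1 / VV e l)) :
    ‖U (pw e) ((shell (m + 1) (2 ^ l) (rr l L i)).indicator G) (x, t)‖ₑ ^ 2 ≤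
      Ph e G l L x (Ioc c (c + 1 / VV e l)) := by
  set s : ℕ → ℂ := fun i => U (pw e) ((shell (m + 1) (2 ^ l) (rr l L i)).indicator G) (x, t)
    with hs
  have s0 : s 0 = 0 := by rw [hs]; simp only [rr_zero]; exact U_shell_self _ _
  have sd : ∀ a b, a ≤ b → s b - s a =
      U (pw e) ((shell (m + 1) (rr l L a) (rr l L b)).indicator G) (x, t) := by
    intro a b hab
    simp only [hs]
    rw [U_shell_add (pw_meas e) hG (show (2 : ℝ) ^ l ≤ rr l L a by
      rw [← rr_zero l L]; exact rr_mono l L (Nat.zero_le _)) (rr_mono l L hab)]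
    ring
  have h := chain L s hi
  rw [s0, sub_zero] at h
  refine h.trans ?_
  rw [Ph, mul_left_comm]
  refine mul_le_mul_right ?_ _
  rw [Finset.mul_sum]
  refine Finset.sum_le_sum fun j hj => ?_
  rw [Finset.mul_sum]
  refine Finset.sum_le_sum fun k hk => ?_
  rw [sd _ _ (Nat.mul_le_mul_right _ (Nat.le_succ k))]
  refine sup_time (pw_meas e) (VV_pos e l) (ind_int hG _ _) ?_ x ht
  intro ξ hξ
  refine blk_V he ?_ ξ hξ
  rw [← rr_top l L]; exact rr_mono l L (idx_le hj hk)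

lemma shell_sum {n : ℕ} {r : ℕ → ℝ} (hr : Monotone r) (g : En n → ℝ≥0∞) (N : ℕ) :
    ∑ k ∈ Finset.range N, ∫⁻ ξ in shell n (r k) (r (k + 1)), g ξ =
      ∫⁻ ξ in shell n (r 0) (r N), g ξ := by
  induction N with
  | zero =>
    have : shell n (r 0) (r 0) = ∅ := by
      ext ξ; simp only [shell, mem_ofPred_eq, mem_empty_iff_false, iff_false]
      rintro ⟨h1, h2⟩; exact absurd h2 (not_lt.2 h1)
    rw [this]; simp
  | succ N ih =>
    rw [Finset.sum_range_succ, ih, ← lintegral_union (shell_meas _ _ _)]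
    · congr 2
      ext ξ
      simp only [shell, mem_union, mem_ofPred_eq]
      have h1 := hr (Nat.zero_le N)
      have h2 := hr (Nat.le_succ N)
      constructor
      · rintro (⟨a, b⟩ | ⟨a, b⟩)
        · exact ⟨a, b.trans_le h2⟩
        · exact ⟨h1.trans a, b⟩
      · rintro ⟨a, b⟩
        rcases lt_or_ge ‖ξ‖ (r N) with c | c
        · exact Or.inl ⟨a, c⟩
        · exact Or.inr ⟨c, b⟩
    · rw [Set.disjoint_left]
      rintro ξ ⟨_, h1⟩ ⟨h2, _⟩
      exact absurd h2 (not_le.2 h1)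

lemma Ph_sum {m : ℕ} {e : ℝ} (he : 1 ≤ e) {G : En (m + 1) → ℂ} (hG : MemLp G 2) (l L : ℕ)
    {ρ T : ℝ} (hρ : 0 < ρ) (hT : 0 < T) {Q : ℕ} (hQ : Q / VV e l ≤ 2 * T + 1) :
    ∑ q ∈ Finset.range Q, ∫⁻ x in Metric.closedBall (0 : En (m + 1)) ρ,
        Ph e G l L x (Ioc (-T + q / VV e l) (-T + q / VV e l + 1 / VV e l))
      ≤ ENNReal.ofReal (36 * cd m * ρ * 2 ^ e * 2 ^ l) * (L + 1) ^ 2 *
        ∫⁻ ξ in shell (m + 1) (2 ^ l) (2 ^ (l + 1)), ‖G ξ‖ₑ ^ 2 := by
  set lam : ℝ := ((2 : ℝ) ^ l) ^ (e - 1) with hlam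
  have hl0 : 0 < lam := by positivity
  have hcd := cd_pos m
  set V := VV e l with hV
  have hV0 : 0 < V := VV_pos e l
  set I : ℕ → Set ℝ := fun q => Ioc (-T + q / V) (-T + q / V + 1 / V) with hI
  have hS : ∀ ξ ∈ shell (m + 1) (2 ^ l) (2 ^ (l + 1)), ∀ η ∈ shell (m + 1) (2 ^ l) (2 ^ (l + 1)),
      lam * |‖ξ‖ - ‖η‖| ≤ |pw e ξ - pw e η| := fun ξ hξ η hη =>
    pw_diff he (by positivity) hξ.1 hη.1
  have main : ∀ j ∈ Finset.range (L + 1), ∀ k ∈ Finset.range (2 ^ j),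
      ∑ q ∈ Finset.range Q, ∫⁻ x in Metric.closedBall (0 : En (m + 1)) ρ,
        HH (pw e) V ((shell (m + 1) (rr l L (k * 2 ^ (L - j)))
          (rr l L ((k + 1) * 2 ^ (L - j)))).indicator G) x (I q) ≤
      ENNReal.ofReal (18 * cd m * ρ / lam) * ∫⁻ ξ in shell (m + 1) (rr l L (k * 2 ^ (L - j)))
          (rr l L ((k + 1) * 2 ^ (L - j))), ‖G ξ‖ₑ ^ 2 := by
    intro j hj k hk
    have hlow : (2 : ℝ) ^ l ≤ rr l L (k * 2 ^ (L - j)) := by
      rw [← rr_zero l L]; exact rr_mono l L (Nat.zero_le _)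
    have hup : rr l L ((k + 1) * 2 ^ (L - j)) ≤ 2 ^ (l + 1) := by
      rw [← rr_top l L]; exact rr_mono l L (idx_le hj hk)
    have h := time_sum (pw_meas e) hV0 hl0 hρ hT (shell_meas _ _ _) hS
      (ind_int hG (rr l L (k * 2 ^ (L - j))) (rr l L ((k + 1) * 2 ^ (L - j))))
      (fun ξ hξ => by
        refine indicator_of_notMem (fun h' => hξ ?_) _
        exact ⟨hlow.trans h'.1, h'.2.trans_le hup⟩)
      (fun ξ hξ => blk_V he hup ξ hξ) hQ
    refine h.trans (le_of_eq ?_)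
    congr 1
    rw [← lintegral_indicator (shell_meas _ _ _)]
    refine lintegral_congr fun ξ => ?_
    by_cases h : ξ ∈ shell (m + 1) (rr l L (k * 2 ^ (L - j))) (rr l L ((k + 1) * 2 ^ (L - j)))
    · rw [indicator_of_mem h, indicator_of_mem h]
    · rw [indicator_of_notMem h, indicator_of_notMem h]; simp
  have hHm : ∀ j ∈ Finset.range (L + 1), ∀ k ∈ Finset.range (2 ^ j), ∀ q : ℕ,
      Measurable fun x => HH (pw e) V ((shell (m + 1) (rr l L (k * 2 ^ (L - j)))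
          (rr l L ((k + 1) * 2 ^ (L - j)))).indicator G) x (I q) := by
    intro j hj k hk q
    refine HH_meas (pw_meas e) hV0 (ind_int hG _ _) ?_ _
    intro ξ hξ
    refine blk_V he ?_ ξ hξ
    rw [← rr_top l L]; exact rr_mono l L (idx_le hj hk)
  have e1 : ∀ q, ∫⁻ x in Metric.closedBall (0 : En (m + 1)) ρ, Ph e G l L x (I q) =
      ENNReal.ofReal (2 * V) * ((L + 1) * ∑ j ∈ Finset.range (L + 1), ∑ k ∈ Finset.range (2 ^ j),
        ∫⁻ x in Metric.closedBall (0 : En (m + 1)) ρ,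
        HH (pw e) V ((shell (m + 1) (rr l L (k * 2 ^ (L - j)))
          (rr l L ((k + 1) * 2 ^ (L - j)))).indicator G) x (I q)) := by
    intro q
    unfold Ph
    rw [lintegral_const_mul' _ _ ENNReal.ofReal_ne_top, lintegral_const_mul' _ _ (by simp),
      lintegral_finsetSum']
    · congr 2
      refine Finset.sum_congr rfl fun j hj => ?_
      rw [lintegral_finsetSum']
      exact fun k hk => (hHm j hj k hk q).aemeasurable
    · intro j hj
      exact (Finset.measurable_sum _ fun k hk => hHm j hj k hk q).aemeasurable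
  have e2 : ∑ q ∈ Finset.range Q, ∫⁻ x in Metric.closedBall (0 : En (m + 1)) ρ, Ph e G l L x (I q)
      = ENNReal.ofReal (2 * V) * ((L + 1) * ∑ j ∈ Finset.range (L + 1), ∑ k ∈ Finset.range (2 ^ j),
        ∑ q ∈ Finset.range Q, ∫⁻ x in Metric.closedBall (0 : En (m + 1)) ρ,
        HH (pw e) V ((shell (m + 1) (rr l L (k * 2 ^ (L - j)))
          (rr l L ((k + 1) * 2 ^ (L - j)))).indicator G) x (I q)) := by
    rw [Finset.sum_congr rfl (fun q _ => e1 q), ← Finset.mul_sum, ← Finset.mul_sum]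
    congr 2
    rw [Finset.sum_comm]
    refine Finset.sum_congr rfl fun j _ => ?_
    rw [Finset.sum_comm]
  have e3 : ∀ j ∈ Finset.range (L + 1), ∑ k ∈ Finset.range (2 ^ j),
      ∫⁻ ξ in shell (m + 1) (rr l L (k * 2 ^ (L - j))) (rr l L ((k + 1) * 2 ^ (L - j))),
        ‖G ξ‖ₑ ^ 2 = ∫⁻ ξ in shell (m + 1) (2 ^ l) (2 ^ (l + 1)), ‖G ξ‖ₑ ^ 2 := by
    intro j hj
    have hj' : j ≤ L := by simpa [Nat.lt_succ_iff] using hj
    have hm : Monotone fun k : ℕ => rr l L (k * 2 ^ (L - j)) := fun a b h =>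
      rr_mono l L (Nat.mul_le_mul_right _ h)
    have h := shell_sum (n := m + 1) hm (fun ξ => ‖G ξ‖ₑ ^ 2) (2 ^ j)
    rw [h, zero_mul, rr_zero, ← pow_add, show j + (L - j) = L by omega, rr_top]
  change ∑ q ∈ Finset.range Q, ∫⁻ x in Metric.closedBall (0 : En (m + 1)) ρ,
    Ph e G l L x (I q) ≤ _
  rw [e2]
  calc _ ≤ ENNReal.ofReal (2 * V) * ((L + 1) * ∑ j ∈ Finset.range (L + 1),
        ∑ k ∈ Finset.range (2 ^ j), ENNReal.ofReal (18 * cd m * ρ / lam) *
          ∫⁻ ξ in shell (m + 1) (rr l L (k * 2 ^ (L - j)))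
          (rr l L ((k + 1) * 2 ^ (L - j))), ‖G ξ‖ₑ ^ 2) :=
        mul_le_mul_right (mul_le_mul_right (Finset.sum_le_sum fun j hj =>
          Finset.sum_le_sum fun k hk => main j hj k hk) _) _
    _ = ENNReal.ofReal (2 * V) * ((L + 1) * ∑ j ∈ Finset.range (L + 1),
        ENNReal.ofReal (18 * cd m * ρ / lam) *
          ∫⁻ ξ in shell (m + 1) (2 ^ l) (2 ^ (l + 1)), ‖G ξ‖ₑ ^ 2) := by
        congr 2
        refine Finset.sum_congr rfl fun j hj => ?_
        rw [← Finset.mul_sum, e3 j hj]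
    _ = _ := by
        rw [Finset.sum_const, Finset.card_range, nsmul_eq_mul]
        have e4 : ENNReal.ofReal (36 * cd m * ρ * 2 ^ e * 2 ^ l) =
            ENNReal.ofReal (2 * V) * ENNReal.ofReal (18 * cd m * ρ / lam) := by
          rw [← ENNReal.ofReal_mul (by positivity)]
          congr 1
          have e5 : V = 2 ^ e * (lam * 2 ^ l) := by
            rw [hV, VV, hlam, pow_succ, mul_comm ((2 : ℝ) ^ l) 2, Real.mul_rpow (by norm_num)
              (by positivity)]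
            congr 1
            rw [← Real.rpow_add_one (by positivity)]
            congr 1
            ring
          rw [e5]
          field_simp
          ring
        rw [e4]
        push_cast
        ring

lemma shell_vol {m : ℕ} {r R b : ℝ} (hr : 0 ≤ r) (hR : r ≤ R) (hb : 0 < b) (hRb : R ≤ b) :
    volume (shell (m + 1) r R) ≤ ENNReal.ofReal (rexp 1 * (2 * (m + 1) * √(m + 1) * (R - r) *
      (π / (1 / b ^ 2)) ^ ((m : ℝ) / 2))) := by
  have h := shell_bound (m := m) hr (sub_nonneg.2 hR) (show 0 < 1 / b ^ 2 by positivity) 0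
  rw [add_sub_cancel] at h
  rw [ENNReal.ofReal_mul (exp_pos 1).le]
  refine le_trans ?_ (mul_le_mul_right h _)
  rw [← lintegral_const_mul' _ _ ENNReal.ofReal_ne_top, ← setLIntegral_one]
  refine setLIntegral_mono' (shell_meas _ _ _) fun ξ hξ => ?_
  rw [← ENNReal.ofReal_mul (exp_pos 1).le, ← Real.exp_add, ← ENNReal.ofReal_one]
  refine ENNReal.ofReal_le_ofReal (Real.one_le_exp ?_)
  rw [zero_sub, norm_neg]
  have h1 : ‖ξ‖ ^ 2 ≤ b ^ 2 := pow_le_pow_left₀ (norm_nonneg _) (hξ.2.le.trans hRb) 2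
  have h2 : 1 / b ^ 2 * ‖ξ‖ ^ 2 ≤ 1 := by
    rw [div_mul_eq_mul_div, one_mul, div_le_one (by positivity)]; exact h1
  linarith

/-- the deterministic error of the radial grid -/
noncomputable def cell (m l L : ℕ) : ℝ := rexp 1 * (2 * (m + 1) * √(m + 1) * (2 ^ l / 2 ^ L) *
      (π / (1 / ((2 : ℝ) ^ (l + 1)) ^ 2)) ^ ((m : ℝ) / 2))

lemma radial_sup {m : ℕ} {e : ℝ} (he : 1 ≤ e) {G : En (m + 1) → ℂ} (hG : MemLp G 2) (l L : ℕ)
    {R : ℝ} (hR : R ∈ Icc ((2 : ℝ) ^ l) (2 ^ (l + 1))) (x : En (m + 1)) {c t : ℝ}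
    (ht : t ∈ Icc c (c + 1 / VV e l)) :
    ‖U (pw e) ((shell (m + 1) (2 ^ l) R).indicator G) (x, t)‖ₑ ^ 2 ≤
      2 * (Ph e G l L x (Ioc c (c + 1 / VV e l)) +
        ENNReal.ofReal (cell m l L) * ∫⁻ ξ in shell (m + 1) (2 ^ l) (2 ^ (l + 1)), ‖G ξ‖ₑ ^ 2) := by
  set h : ℝ := 2 ^ l / 2 ^ L with hh
  have hh0 : 0 < h := by positivity
  set i : ℕ := ⌊(R - 2 ^ l) / h⌋₊ with hi
  have h0 : 0 ≤ (R - 2 ^ l) / h := div_nonneg (sub_nonneg.2 hR.1) hh0.le
  have h1 : (i : ℝ) ≤ (R - 2 ^ l) / h := Nat.floor_le h0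
  have h2 : (R - 2 ^ l) / h < i + 1 := Nat.lt_floor_add_one _
  rw [le_div_iff₀ hh0] at h1
  rw [div_lt_iff₀ hh0] at h2
  have hiL : i ≤ 2 ^ L := by
    have : (i : ℝ) * h ≤ 2 ^ L * h := by
      have e1 : 2 ^ L * h = 2 ^ l := by rw [hh]; field_simp
      rw [e1]
      have := hR.2
      rw [pow_succ] at this
      linarith
    exact_mod_cast le_of_mul_le_mul_right this hh0
  have ri : rr l L i ≤ R := by rw [rr, ← hh]; linarith
  have ri2 : R - rr l L i ≤ h := by rw [rr, ← hh]; linarith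
  have ri0 : (2 : ℝ) ^ l ≤ rr l L i := by rw [← rr_zero l L]; exact rr_mono l L (Nat.zero_le _)
  rw [U_shell_add (pw_meas e) hG ri0 ri]
  refine (enorm_add_sq_le _ _).trans (mul_le_mul_right (add_le_add ?_ ?_) _)
  · exact grid_sup he hG l L hiL x ht
  · have hG' : MemLp (tw (pw e) t G) 2 := by
      refine (memLp_congr_norm (tw_meas (pw_meas e) t hG.aestronglyMeasurable)
        hG.aestronglyMeasurable (Eventually.of_forall fun ξ => tw_norm _ _ _ _)).2 hG
    have e1 : U (pw e) ((shell (m + 1) (rr l L i) R).indicator G) (x, t) =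
        Fi ((shell (m + 1) (rr l L i) R).indicator (tw (pw e) t G)) x := by
      rw [U]
      congr 1
      funext ξ
      by_cases h : ξ ∈ shell (m + 1) (rr l L i) R
      · simp only [tw, indicator_of_mem h]
      · simp only [tw, indicator_of_notMem h, mul_zero]
    rw [e1]
    refine (piece_pt hG' (shell_meas _ _ _) x).trans (mul_le_mul' ?_ ?_)
    · refine (shell_vol (le_trans (by positivity) ri0) ri (by positivity) hR.2).trans ?_
      refine ENNReal.ofReal_le_ofReal ?_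
      unfold cell
      rw [← hh]
      gcongr
    · simp_rw [← ofReal_norm, tw_norm]
      refine lintegral_mono_set ?_
      intro ξ hξ
      exact ⟨ri0.trans hξ.1, hξ.2.trans_le hR.2⟩

end Run7.h726.Fl
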