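import Mathlib
import Pool.Agent.Run7.h726.Fl.D

/-! Weighted square integrals, blocks, and the numerical coefficients. -/

set_option autoImplicit false

open MeasureTheory Real Set Filter Topology
open scoped ENNReal RealInnerProductSpace

namespace Run7.h726.Fl

open Pool.Agent.Helper93.Sph

/-- the weighted square integral -/
noncomputable def WW {n : ℕ} (σ : ℝ) (G : En n → ℂ) : ℝ≥0∞ :=
  ∫⁻ ξ, ‖G ξ‖ₑ ^ 2 * ENNReal.ofReal ((1 + ‖ξ‖) ^ (-(2 * σ)))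

lemma WW_tw {n : ℕ} (σ : ℝ) (p : En n → ℝ) (t : ℝ) (G : En n → ℂ) :
    WW σ (tw p t G) = WW σ G := by
  unfold WW; simp_rw [← ofReal_norm, tw_norm]

lemma loc_bd {n : ℕ} {σ : ℝ} (hσ : 0 ≤ σ) (G : En n → ℂ) {b : ℝ} {S : Set (En n)}
    (hS : MeasurableSet S) (hb : ∀ ξ ∈ S, ‖ξ‖ ≤ b) :
    ∫⁻ ξ in S, ‖G ξ‖ₑ ^ 2 ≤ ENNReal.ofReal ((1 + b) ^ (2 * σ)) * WW σ G := by
  calc ∫⁻ ξ in S, ‖G ξ‖ₑ ^ 2 ≤ ∫⁻ ξ in S, ENNReal.ofReal ((1 + b) ^ (2 * σ)) *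
        (‖G ξ‖ₑ ^ 2 * ENNReal.ofReal ((1 + ‖ξ‖) ^ (-(2 * σ)))) := by
        refine setLIntegral_mono' hS fun ξ hξ => ?_
        have hb1 := hb ξ hξ
        have hb0 : 0 ≤ b := (norm_nonneg ξ).trans hb1
        have h1 : 1 ≤ (1 + b) ^ (2 * σ) * (1 + ‖ξ‖) ^ (-(2 * σ)) := by
          rw [Real.rpow_neg (by positivity), ← div_eq_mul_inv, one_le_div (by positivity)]
          exact Real.rpow_le_rpow (by positivity) (by linarith) (by positivity)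
        calc ‖G ξ‖ₑ ^ 2 = ‖G ξ‖ₑ ^ 2 * 1 := (mul_one _).symm
          _ ≤ ‖G ξ‖ₑ ^ 2 * ENNReal.ofReal ((1 + b) ^ (2 * σ) * (1 + ‖ξ‖) ^ (-(2 * σ))) := by
              refine mul_le_mul_right ?_ _
              rw [← ENNReal.ofReal_one]; exact ENNReal.ofReal_le_ofReal h1
          _ = _ := by rw [ENNReal.ofReal_mul (by positivity)]; ring
    _ ≤ _ := by
        rw [lintegral_const_mul' _ _ ENNReal.ofReal_ne_top]
        exact mul_le_mul_right (setLIntegral_le_lintegral _ _) _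

lemma ind_sq {n : ℕ} (G : En n → ℂ) {S : Set (En n)} (hS : MeasurableSet S) :
    ∫⁻ ξ, ‖S.indicator G ξ‖ₑ ^ 2 = ∫⁻ ξ in S, ‖G ξ‖ₑ ^ 2 := by
  rw [← lintegral_indicator hS]
  refine lintegral_congr fun ξ => ?_
  by_cases h : ξ ∈ S
  · rw [indicator_of_mem h, indicator_of_mem h]
  · rw [indicator_of_notMem h, indicator_of_notMem h]; simp

lemma loc_mem {n : ℕ} {σ : ℝ} (hσ : 0 ≤ σ) {G : En n → ℂ} (hG : AEStronglyMeasurable G)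
    (hW : WW σ G < ⊤) {b : ℝ} {S : Set (En n)}
    (hS : MeasurableSet S) (hb : ∀ ξ ∈ S, ‖ξ‖ ≤ b) : MemLp (S.indicator G) 2 := by
  refine ⟨hG.indicator hS, ?_⟩
  rw [eLpNorm_lt_top_iff_lintegral_rpow_enorm_lt_top two_ne_zero (by simp)]
  have e : ∫⁻ ξ, ‖S.indicator G ξ‖ₑ ^ (2 : ℝ≥0∞).toReal = ∫⁻ ξ, ‖S.indicator G ξ‖ₑ ^ 2 := by
    refine lintegral_congr fun ξ => ?_
    rw [← ENNReal.rpow_natCast]; norm_num
  rw [e, ind_sq G hS]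
  exact lt_of_le_of_lt (loc_bd hσ G hS hb) (ENNReal.mul_lt_top ENNReal.ofReal_lt_top hW)

/-- the part of `G` on a dyadic shell -/
noncomputable def bl {m : ℕ} (G : En (m + 1) → ℂ) (l : ℕ) : En (m + 1) → ℂ :=
  (shell (m + 1) (2 ^ l) (2 ^ (l + 1))).indicator G

lemma bl_mem {m : ℕ} {σ : ℝ} (hσ : 0 ≤ σ) {G : En (m + 1) → ℂ} (hG : AEStronglyMeasurable G)
    (hW : WW σ G < ⊤) (l : ℕ) : MemLp (bl G l) 2 :=
  loc_mem hσ hG hW (shell_meas _ _ _) (b := 2 ^ (l + 1)) fun _ h => h.2.le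

lemma bl_mass {m : ℕ} {σ : ℝ} (hσ : 0 ≤ σ) (G : En (m + 1) → ℂ) (l : ℕ) :
    ∫⁻ ξ in shell (m + 1) (2 ^ l) (2 ^ (l + 1)), ‖bl G l ξ‖ₑ ^ 2 ≤
      ENNReal.ofReal (((2 : ℝ) ^ (l + 2)) ^ (2 * σ)) * WW σ G := by
  have h1 : ∫⁻ ξ in shell (m + 1) (2 ^ l) (2 ^ (l + 1)), ‖bl G l ξ‖ₑ ^ 2 =
      ∫⁻ ξ in shell (m + 1) (2 ^ l) (2 ^ (l + 1)), ‖G ξ‖ₑ ^ 2 := by
    refine setLIntegral_congr_fun (shell_meas _ _ _) fun ξ hξ => ?_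
    simp only [bl, indicator_of_mem hξ]
  rw [h1]
  refine (loc_bd hσ G (shell_meas _ _ _) (b := 2 ^ (l + 1)) fun _ h => h.2.le).trans
    (mul_le_mul_left ?_ _)
  refine ENNReal.ofReal_le_ofReal (Real.rpow_le_rpow (by positivity) ?_ (by positivity))
  have : (1 : ℝ) ≤ 2 ^ (l + 1) := one_le_pow₀ (by norm_num)
  rw [pow_succ 2 (l + 1)]
  linarith

lemma ps_loc {m : ℕ} {H : En (m + 1) → ℂ} {r b : ℝ} (h : r < b) (x : En (m + 1)) :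
    ps ((shell (m + 1) 0 b).indicator H) r x = ps H r x := by
  unfold ps
  refine setIntegral_congr_fun Metric.isClosed_closedBall.measurableSet fun ξ hξ => ?_
  have : ξ ∈ shell (m + 1) 0 b := ⟨norm_nonneg _, lt_of_le_of_lt (by simpa using hξ) h⟩
  simp only [indicator_of_mem this]

lemma incr_eq {m : ℕ} {σ : ℝ} (hσ : 0 ≤ σ) {e : ℝ} {G : En (m + 1) → ℂ}
    (hG : AEStronglyMeasurable G) (hW : WW σ G < ⊤) (l : ℕ) {R : ℝ}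
    (hR : R ∈ Icc ((2 : ℝ) ^ l) (2 ^ (l + 1))) (x : En (m + 1)) (t : ℝ) :
    ps (tw (pw e) t G) R x - ps (tw (pw e) t G) (2 ^ l) x =
      U (pw e) ((shell (m + 1) (2 ^ l) R).indicator (bl G l)) (x, t) := by
  set H := tw (pw e) t G with hH
  have hm : MemLp ((shell (m + 1) 0 (2 ^ (l + 1) + 1)).indicator H) 2 :=
    loc_mem hσ (tw_meas (pw_meas e) t hG) (by rw [WW_tw]; exact hW) (shell_meas _ _ _)
      (b := 2 ^ (l + 1) + 1) fun _ h => h.2.le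
  have h0 : (0 : ℝ) ≤ 2 ^ l := by positivity
  have h1 := ps_sub hm h0 hR.1 x
  rw [ps_loc (by linarith [hR.2]), ps_loc (by linarith [hR.1, hR.2])] at h1
  rw [h1, U]
  congr 1
  funext ξ
  by_cases h : ξ ∈ shell (m + 1) (2 ^ l) R
  · have h2 : ξ ∈ shell (m + 1) 0 (2 ^ (l + 1) + 1) :=
      ⟨norm_nonneg _, by linarith [h.2, hR.2]⟩
    have h3 : ξ ∈ shell (m + 1) (2 ^ l) (2 ^ (l + 1)) := ⟨h.1, h.2.trans_le hR.2⟩
    rw [indicator_of_mem h, indicator_of_mem h2]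
    simp only [tw, indicator_of_mem h, bl, indicator_of_mem h3, hH]
  · rw [indicator_of_notMem h]
    simp only [tw, indicator_of_notMem h, mul_zero]

lemma blk_bound {m : ℕ} {σ e : ℝ} (hσ : 0 ≤ σ) (he : 1 ≤ e) {G : En (m + 1) → ℂ}
    (hG : AEStronglyMeasurable G) (hW : WW σ G < ⊤) (l L : ℕ) {R : ℝ}
    (hR : R ∈ Icc ((2 : ℝ) ^ l) (2 ^ (l + 1))) (x : En (m + 1)) {c t : ℝ}
    (ht : t ∈ Icc c (c + 1 / VV e l)) :
    ‖ps (tw (pw e) t G) R x - ps (tw (pw e) t G) (2 ^ l) x‖ₑ ^ 2 ≤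
      2 * (Ph e (bl G l) l L x (Ioc c (c + 1 / VV e l)) +
        ENNReal.ofReal (cell m l L * ((2 : ℝ) ^ (l + 2)) ^ (2 * σ)) * WW σ G) := by
  rw [incr_eq hσ hG hW l hR]
  refine (radial_sup he (bl_mem hσ hG hW l) l L hR x ht).trans ?_
  refine mul_le_mul_right (add_le_add le_rfl ?_) _
  rw [ENNReal.ofReal_mul (by unfold cell; positivity), mul_assoc]
  exact mul_le_mul_right (bl_mass hσ G l) _

lemma blk_sum {m : ℕ} {σ e : ℝ} (hσ : 0 ≤ σ) (he : 1 ≤ e) {G : En (m + 1) → ℂ}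
    (hG : AEStronglyMeasurable G) (hW : WW σ G < ⊤) (l L : ℕ)
    {ρ T : ℝ} (hρ : 0 < ρ) (hT : 0 < T) {Q : ℕ} (hQ : Q / VV e l ≤ 2 * T + 1) :
    ∑ q ∈ Finset.range Q, ∫⁻ x in Metric.closedBall (0 : En (m + 1)) ρ,
        Ph e (bl G l) l L x (Ioc (-T + q / VV e l) (-T + q / VV e l + 1 / VV e l))
      ≤ ENNReal.ofReal (36 * cd m * ρ * 2 ^ e * 2 ^ l * (L + 1) ^ 2 *
        ((2 : ℝ) ^ (l + 2)) ^ (2 * σ)) * WW σ G := by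
  have hcd := cd_pos m
  refine (Ph_sum he (bl_mem hσ hG hW l) l L hρ hT hQ).trans ?_
  have hA : 0 ≤ 36 * cd m * ρ * 2 ^ e * 2 ^ l := by positivity
  refine (mul_le_mul_right (bl_mass hσ G l) _).trans (le_of_eq ?_)
  have e1 : ENNReal.ofReal (((L : ℝ) + 1) ^ 2) = ((L : ℝ≥0∞) + 1) ^ 2 := by
    rw [ENNReal.ofReal_pow (by positivity), ENNReal.ofReal_add (by positivity) (by norm_num)]
    simp
  rw [ENNReal.ofReal_mul (mul_nonneg hA (by positivity)), ENNReal.ofReal_mul hA, e1]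
  ring

/-- `2 ^ (-a)` -/
noncomputable def th (a : ℝ) : ℝ := (2 : ℝ) ^ (-a)

lemma th_pos (a : ℝ) : 0 < th a := by unfold th; positivity

lemma th_lt {a : ℝ} (ha : 0 < a) : th a < 1 := by
  unfold th; exact Real.rpow_lt_one_of_one_lt_of_neg (by norm_num) (by linarith)

lemma th_pow (a : ℝ) (l : ℕ) : th a ^ l = (2 : ℝ) ^ (-(a * l)) := by
  rw [th, ← Real.rpow_natCast, ← Real.rpow_mul (by norm_num)]
  congr 1; ring

lemma th_add (a b : ℝ) (l : ℕ) : th (a + b) ^ l = th a ^ l * th b ^ l := by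
  rw [th_pow, th_pow, th_pow, ← Real.rpow_add (by norm_num)]
  congr 1; ring

lemma th_half (a : ℝ) (l : ℕ) : √(th a ^ l) = th (a / 2) ^ l := by
  rw [show a = a / 2 + a / 2 by ring, th_add, Real.sqrt_mul_self (by have := th_pos (a/2); positivity)]
  congr 2; ring

/-- the depth of the radial grid in the `l`-th shell -/
noncomputable def LL (m : ℕ) (σ : ℝ) (l : ℕ) : ℕ := (m + 2 + ⌈2 * σ⌉₊) * l

/-- the coefficient of the `l`-th block -/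
noncomputable def kap (m : ℕ) (ρ e σ : ℝ) (l : ℕ) : ℝ :=
  36 * cd m * ρ * 2 ^ e * 2 ^ l * ((LL m σ l : ℕ) + 1) ^ 2 * ((2 : ℝ) ^ (l + 2)) ^ (2 * σ)

lemma pow2 (l : ℕ) (a : ℝ) : ((2 : ℝ) ^ l) ^ a = (2 : ℝ) ^ (l * a) := by
  rw [← Real.rpow_natCast, ← Real.rpow_mul (by norm_num)]

lemma kap_bd {m : ℕ} {ρ e σ α γ : ℝ} (hρ : 0 < ρ) (he : 1 ≤ e) (hα : 0 ≤ α)
    (hγ : 1 + 2 * σ + γ ≤ e * α) (l : ℕ) :
    kap m ρ e σ l * (th (γ / 2) ^ l)⁻¹ * (1 / VV e l) ^ α ≤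
      (36 * cd m * ρ * 2 ^ e * ((m + 2 + ⌈2 * σ⌉₊ : ℕ) : ℝ) ^ 2 * 2 ^ (4 * σ)) *
        (((l : ℝ) + 1) ^ 2 * th (γ / 2) ^ l) := by
  have hcd := cd_pos m
  have e1 : (1 / VV e l) ^ α = (2 : ℝ) ^ (-((l + 1) * e * α)) := by
    rw [VV, pow2, one_div, ← Real.rpow_neg (by norm_num), ← Real.rpow_mul (by norm_num)]
    congr 1; push_cast; ring
  have e2 : (th (γ / 2) ^ l)⁻¹ = (2 : ℝ) ^ (γ / 2 * l) := by
    rw [th_pow, ← Real.rpow_neg (by norm_num), neg_neg]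
  have e3 : ((2 : ℝ) ^ (l + 2)) ^ (2 * σ) = (2 : ℝ) ^ ((l + 2) * (2 * σ)) := by
    rw [pow2]; push_cast; ring_nf
  have e4 : (2 : ℝ) ^ l = (2 : ℝ) ^ (l : ℝ) := (Real.rpow_natCast _ _).symm
  have h1 : (((LL m σ l : ℕ) : ℝ) + 1) ^ 2 ≤
      ((m + 2 + ⌈2 * σ⌉₊ : ℕ) : ℝ) ^ 2 * ((l : ℝ) + 1) ^ 2 := by
    rw [← mul_pow]
    refine pow_le_pow_left₀ (by positivity) ?_ 2
    rw [LL, Nat.cast_mul]
    have : (1 : ℝ) ≤ ((m + 2 + ⌈2 * σ⌉₊ : ℕ) : ℝ) := by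
      have : 1 ≤ m + 2 + ⌈2 * σ⌉₊ := by omega
      exact_mod_cast this
    nlinarith
  have h2 : (2 : ℝ) ^ (l : ℝ) * (2 : ℝ) ^ ((l + 2) * (2 * σ)) * (2 : ℝ) ^ (γ / 2 * l) *
      (2 : ℝ) ^ (-((l + 1) * e * α)) ≤ 2 ^ (4 * σ) * th (γ / 2) ^ l := by
    rw [th_pow, ← Real.rpow_add (by norm_num), ← Real.rpow_add (by norm_num),
      ← Real.rpow_add (by norm_num), ← Real.rpow_add (by norm_num)]
    refine Real.rpow_le_rpow_of_exponent_le (by norm_num) ?_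
    have hl : (0 : ℝ) ≤ l := Nat.cast_nonneg _
    have : 0 ≤ e * α := by positivity
    nlinarith [mul_le_mul_of_nonneg_left hγ hl]
  have e5 : kap m ρ e σ l * (th (γ / 2) ^ l)⁻¹ * (1 / VV e l) ^ α =
      (36 * cd m * ρ * 2 ^ e) * (((LL m σ l : ℕ) : ℝ) + 1) ^ 2 *
      ((2 : ℝ) ^ (l : ℝ) * (2 : ℝ) ^ ((l + 2) * (2 * σ)) * (2 : ℝ) ^ (γ / 2 * l) *
      (2 : ℝ) ^ (-((l + 1) * e * α))) := by
    rw [e1, e2, kap, e3, e4]; ring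
  rw [e5]
  calc _ ≤ (36 * cd m * ρ * 2 ^ e) * (((m + 2 + ⌈2 * σ⌉₊ : ℕ) : ℝ) ^ 2 * ((l : ℝ) + 1) ^ 2) *
        (2 ^ (4 * σ) * th (γ / 2) ^ l) := by
        gcongr
    _ = _ := by ring

lemma cell_bd {m : ℕ} {σ : ℝ} {a : ℝ} (ha : a ≤ 1) (l : ℕ) :
    cell m l (LL m σ l) * ((2 : ℝ) ^ (l + 2)) ^ (2 * σ) ≤
      (rexp 1 * (2 * (m + 1) * √(m + 1)) * π ^ ((m : ℝ) / 2) * 2 ^ (m + 4 * σ)) * th a ^ l := by
  have hπ := pi_pos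
  have e1 : (π / (1 / ((2 : ℝ) ^ (l + 1)) ^ 2)) ^ ((m : ℝ) / 2) =
      π ^ ((m : ℝ) / 2) * (2 : ℝ) ^ (((l : ℝ) + 1) * m) := by
    rw [div_div_eq_mul_div, div_one, Real.mul_rpow hπ.le (by positivity), ← pow_mul, pow2]
    congr 2; push_cast; ring
  have e2 : (2 : ℝ) ^ l / 2 ^ (LL m σ l) =
      (2 : ℝ) ^ ((l : ℝ) - ((m : ℝ) + 2 + ⌈2 * σ⌉₊) * l) := by
    rw [Real.rpow_sub (by norm_num), Real.rpow_natCast]
    congr 1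
    rw [← Real.rpow_natCast, LL]
    push_cast
    rfl
  have e3 : ((2 : ℝ) ^ (l + 2)) ^ (2 * σ) = (2 : ℝ) ^ ((l + 2) * (2 * σ)) := by
    rw [pow2]; push_cast; ring_nf
  have h2 : (2 : ℝ) ^ ((l : ℝ) - ((m : ℝ) + 2 + ⌈2 * σ⌉₊) * l) * (2 : ℝ) ^ (((l : ℝ) + 1) * m) *
      (2 : ℝ) ^ ((l + 2) * (2 * σ)) ≤ 2 ^ (m + 4 * σ) * th a ^ l := by
    rw [th_pow, ← Real.rpow_add (by norm_num), ← Real.rpow_add (by norm_num),
      ← Real.rpow_add (by norm_num)]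
    refine Real.rpow_le_rpow_of_exponent_le (by norm_num) ?_
    have hl : (0 : ℝ) ≤ l := Nat.cast_nonneg _
    have h3 : 2 * σ ≤ ⌈2 * σ⌉₊ := Nat.le_ceil _
    nlinarith [mul_le_mul_of_nonneg_left h3 hl, mul_le_mul_of_nonneg_left ha hl]
  rw [cell, e1, e2, e3]
  calc _ = rexp 1 * (2 * (m + 1) * √(m + 1)) * π ^ ((m : ℝ) / 2) *
      ((2 : ℝ) ^ ((l : ℝ) - ((m : ℝ) + 2 + ⌈2 * σ⌉₊) * l) * (2 : ℝ) ^ (((l : ℝ) + 1) * m) *
      (2 : ℝ) ^ ((l + 2) * (2 * σ))) := by ring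
    _ ≤ rexp 1 * (2 * (m + 1) * √(m + 1)) * π ^ ((m : ℝ) / 2) *
      (2 ^ (m + 4 * σ) * th a ^ l) := by gcongr
    _ = _ := by ring

/-- convergence along all radii -/
lemma conv {s : ℝ → ℂ} {θ : ℝ} (h0 : 0 < θ) (h1 : θ < 1) {K : ℝ} (l0 : ℕ)
    (h : ∀ l ≥ l0, ∀ R ∈ Icc ((2 : ℝ) ^ l) (2 ^ (l + 1)), ‖s R - s (2 ^ l)‖ ≤ K * θ ^ l) :
    ∃ A, Tendsto s atTop (𝓝 A) := by
  have hc : CauchySeq fun k : ℕ => s (2 ^ (k + l0)) := by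
    refine cauchySeq_of_le_geometric θ (K * θ ^ l0) h1 fun k => ?_
    rw [dist_comm, dist_eq_norm]
    have := h (k + l0) (by omega) (2 ^ (k + l0 + 1)) ⟨by
      rw [pow_succ]; linarith [pow_pos (by norm_num : (0:ℝ) < 2) (k + l0)], le_rfl⟩
    rw [show k + 1 + l0 = k + l0 + 1 by ring]
    refine this.trans (le_of_eq ?_)
    rw [pow_add]; ring
  obtain ⟨A, hA⟩ := cauchySeq_tendsto_of_complete hc
  refine ⟨A, ?_⟩
  have hA' : Tendsto (fun k : ℕ => s (2 ^ k)) atTop (𝓝 A) :=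
    (tendsto_add_atTop_iff_nat l0).1 hA
  have hlog : Tendsto (fun R : ℝ => Nat.log 2 ⌊R⌋₊) atTop atTop := by
    have h2 : Tendsto (fun R : ℝ => ⌊R⌋₊) atTop atTop := tendsto_nat_floor_atTop
    have h3 : Tendsto (Nat.log 2) atTop atTop := by
      refine tendsto_atTop.2 fun b => ?_
      filter_upwards [eventually_ge_atTop (2 ^ b)] with n hn
      exact (Nat.le_log_iff_pow_le (by norm_num) (by
        have : 0 < 2 ^ b := by positivity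
        omega)).2 hn
    exact h3.comp h2
  have hK : Tendsto (fun R : ℝ => K * θ ^ (Nat.log 2 ⌊R⌋₊)) atTop (𝓝 0) := by
    have := ((tendsto_pow_atTop_nhds_zero_of_lt_one h0.le h1).comp hlog).const_mul K
    simpa using this
  have hd : Tendsto (fun R : ℝ => s R - s (2 ^ (Nat.log 2 ⌊R⌋₊))) atTop (𝓝 0) := by
    refine squeeze_zero_norm' ?_ hK
    filter_upwards [hlog.eventually_ge_atTop l0, eventually_ge_atTop (1 : ℝ)] with R hR hR1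
    refine h _ hR R ⟨?_, ?_⟩
    · have h4 : 2 ^ Nat.log 2 ⌊R⌋₊ ≤ ⌊R⌋₊ := Nat.pow_log_le_self 2 (Nat.floor_pos.2 hR1).ne'
      calc (2 : ℝ) ^ Nat.log 2 ⌊R⌋₊ ≤ (⌊R⌋₊ : ℝ) := by exact_mod_cast h4
        _ ≤ R := Nat.floor_le (by linarith)
    · have h4 : ⌊R⌋₊ < 2 ^ (Nat.log 2 ⌊R⌋₊ + 1) := Nat.lt_pow_succ_log_self (by norm_num) _
      have h5 : (⌊R⌋₊ : ℝ) + 1 ≤ 2 ^ (Nat.log 2 ⌊R⌋₊ + 1) := by exact_mod_cast h4
      exact (Nat.lt_floor_add_one R).le.trans h5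
  have := hd.add (hA'.comp hlog)
  simpa using this

/-- bound along all radii -/
lemma bdd_all {s : ℝ → ℂ} {θ : ℝ} (h0 : 0 < θ) (h1 : θ < 1) {K : ℝ} (hK : 0 ≤ K)
    (h : ∀ l, ∀ R ∈ Icc ((2 : ℝ) ^ l) (2 ^ (l + 1)), ‖s R - s (2 ^ l)‖ ≤ K * θ ^ l)
    {R : ℝ} (hR : 1 ≤ R) : ‖s R‖ ≤ ‖s 1‖ + K / (1 - θ) := by
  have hs : ∀ N : ℕ, ‖s (2 ^ N)‖ + K * θ ^ N / (1 - θ) ≤ ‖s 1‖ + K / (1 - θ) := by
    intro N
    induction N with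
    | zero => simp
    | succ N ih =>
      have h2 := h N (2 ^ (N + 1)) ⟨by
        rw [pow_succ]; linarith [pow_pos (by norm_num : (0:ℝ) < 2) N], le_rfl⟩
      have h3 : ‖s (2 ^ (N + 1))‖ ≤ ‖s (2 ^ N)‖ + K * θ ^ N := by
        calc ‖s (2 ^ (N + 1))‖ = ‖s (2 ^ N) + (s (2 ^ (N + 1)) - s (2 ^ N))‖ := by congr 1; ring
          _ ≤ _ := (norm_add_le _ _).trans (by linarith)
      have h4 : K * θ ^ N + K * θ ^ (N + 1) / (1 - θ) = K * θ ^ N / (1 - θ) := by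
        have : (1 - θ) ≠ 0 := by linarith
        field_simp
        ring
      linarith
  set N := Nat.log 2 ⌊R⌋₊ with hN
  have hm : R ∈ Icc ((2 : ℝ) ^ N) (2 ^ (N + 1)) := by
    refine ⟨?_, ?_⟩
    · have h4 : 2 ^ Nat.log 2 ⌊R⌋₊ ≤ ⌊R⌋₊ := Nat.pow_log_le_self 2 (Nat.floor_pos.2 hR).ne'
      calc (2 : ℝ) ^ Nat.log 2 ⌊R⌋₊ ≤ (⌊R⌋₊ : ℝ) := by exact_mod_cast h4
        _ ≤ R := Nat.floor_le (by linarith)
    · have h4 : ⌊R⌋₊ < 2 ^ (Nat.log 2 ⌊R⌋₊ + 1) := Nat.lt_pow_succ_log_self (by norm_num) _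
      have h5 : (⌊R⌋₊ : ℝ) + 1 ≤ 2 ^ (Nat.log 2 ⌊R⌋₊ + 1) := by exact_mod_cast h4
      exact (Nat.lt_floor_add_one R).le.trans h5
  have h2 := h N R hm
  have h3 : ‖s R‖ ≤ ‖s (2 ^ N)‖ + K * θ ^ N := by
    calc ‖s R‖ = ‖s (2 ^ N) + (s R - s (2 ^ N))‖ := by congr 1; ring
      _ ≤ _ := (norm_add_le _ _).trans (by linarith)
  have h4 : K * θ ^ N ≤ K * θ ^ N / (1 - θ) := by
    rw [le_div_iff₀ (by linarith)]
    have : 0 ≤ K * θ ^ N := by positivity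
    nlinarith
  linarith [hs N]

end Run7.h726.Fl
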