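import Mathlib
import Pool.Agent.Run7.h726.Fl.E

/-! The set of bad times. -/

set_option autoImplicit false

open MeasureTheory Real Set Filter Topology
open scoped ENNReal RealInnerProductSpace

namespace Run7.h726.Fl

open Pool.Agent.Helper93.Sph

/-- a limsup set of intervals has Hausdorff measure zero -/
lemma cover_zero {α : ℝ} (hα : 0 < α) {V : ℕ → ℝ} (hV : ∀ l, 0 < V l) (hVm : Monotone V)
    (hVt : Tendsto V atTop atTop) {c : ℕ → ℕ → ℝ} (B : ℕ → ℕ → Prop) (Q : ℕ → ℕ)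
    (f : ℕ → ℝ≥0∞) (hf : ∀ l, ∑ q ∈ Finset.range (Q l),
      (open Classical in if B l q then ENNReal.ofReal (1 / V l) ^ α else 0) ≤ f l)
    (hsum : ∑' l, f l ≠ ⊤) (E : Set ℝ)
    (hE : ∀ t ∈ E, ∀ n, ∃ l ≥ n, ∃ q < Q l, B l q ∧ t ∈ Icc (c l q) (c l q + 1 / V l)) :
    μH[α] E = 0 := by
  classical
  set u : (n : ℕ) → ℕ × ℕ → Set ℝ := fun n i =>
    if i.2 < Q (i.1 + n) ∧ B (i.1 + n) i.2 then
      Icc (c (i.1 + n) i.2) (c (i.1 + n) i.2 + 1 / V (i.1 + n)) else ∅ with hu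
  have hr : Tendsto (fun n => ENNReal.ofReal (1 / V n)) atTop (𝓝 0) := by
    have h1 : Tendsto (fun n => 1 / V n) atTop (𝓝 0) := by
      simp only [one_div]; exact tendsto_inv_atTop_zero.comp hVt
    have := ENNReal.tendsto_ofReal h1
    simpa using this
  have hdiam : ∀ n i, Metric.ediam (u n i) ≤ ENNReal.ofReal (1 / V (i.1 + n)) := by
    intro n i
    simp only [hu]
    split_ifs with h
    · rw [Real.ediam_Icc]
      refine ENNReal.ofReal_le_ofReal (by linarith)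
    · simp
  have key := Measure.hausdorffMeasure_le_liminf_tsum (β := ℕ) (ι := fun _ => ℕ × ℕ) α E
    (l := atTop) (fun n => ENNReal.ofReal (1 / V n)) hr u
    (Eventually.of_forall fun n i => (hdiam n i).trans (ENNReal.ofReal_le_ofReal
      (one_div_le_one_div_of_le (hV n) (hVm (Nat.le_add_left _ _)))))
    (Eventually.of_forall fun n t ht => by
      obtain ⟨l, hl, q, hq, hB, ht'⟩ := hE t ht n
      refine mem_iUnion.2 ⟨(l - n, q), ?_⟩
      simp only [hu]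
      rw [show l - n + n = l by omega, if_pos ⟨hq, hB⟩]
      exact ht')
  refine le_antisymm (key.trans ?_) zero_le
  have h2 : ∀ n, ∑' i : ℕ × ℕ, Metric.ediam (u n i) ^ α ≤ ∑' l, f (l + n) := by
    intro n
    rw [ENNReal.tsum_prod']
    refine ENNReal.tsum_le_tsum fun l => ?_
    refine le_trans ?_ (hf (l + n))
    rw [tsum_eq_sum (s := Finset.range (Q (l + n)))]
    · refine Finset.sum_le_sum fun q hq => ?_
      split_ifs with h
      · exact ENNReal.rpow_le_rpow (hdiam n (l, q)) hα.le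
      · simp only [hu]
        rw [if_neg (fun h' => h h'.2)]
        simp [ENNReal.zero_rpow_of_pos hα]
    · intro q hq
      simp only [hu]
      rw [if_neg (fun h' => hq (Finset.mem_range.2 h'.1))]
      simp [ENNReal.zero_rpow_of_pos hα]
  have h3 : Tendsto (fun n => ∑' l, f (l + n)) atTop (𝓝 0) :=
    ENNReal.tendsto_sum_nat_add f hsum
  rw [← h3.liminf_eq]
  exact liminf_le_liminf (Eventually.of_forall h2)

/-- block integrals over a ball -/
noncomputable def JJ {m : ℕ} (e σ ρ T : ℝ) (G : En (m + 1) → ℂ) (l q : ℕ) : ℝ≥0∞ :=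
  ∫⁻ x in Metric.closedBall (0 : En (m + 1)) ρ,
    Ph e (bl G l) l (LL m σ l) x (Ioc (-T + q / VV e l) (-T + q / VV e l + 1 / VV e l))

/-- the number of time intervals -/
noncomputable def QQ (e T : ℝ) (l : ℕ) : ℕ := ⌊2 * T * VV e l⌋₊ + 1

/-- the index of the time interval -/
noncomputable def qq (e T : ℝ) (l : ℕ) (t : ℝ) : ℕ := ⌊(t + T) * VV e l⌋₊

lemma VV_one {e : ℝ} (he : 1 ≤ e) (l : ℕ) : 1 ≤ VV e l := by
  unfold VV
  exact Real.one_le_rpow (one_le_pow₀ (by norm_num)) (by linarith)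

lemma VV_mono {e : ℝ} (he : 1 ≤ e) : Monotone (VV e) := by
  intro a b h
  unfold VV
  refine Real.rpow_le_rpow (by positivity) ?_ (by linarith)
  exact pow_le_pow_right₀ (by norm_num) (by omega)

lemma VV_tendsto {e : ℝ} (he : 1 ≤ e) : Tendsto (VV e) atTop atTop := by
  unfold VV
  refine (tendsto_rpow_atTop (by linarith)).comp ?_
  exact (tendsto_pow_atTop_atTop_of_one_lt (by norm_num : (1 : ℝ) < 2)).comp (tendsto_add_atTop_nat 1)

lemma qq_lt {e T t : ℝ} (l : ℕ) (ht : t ∈ Icc (-T) T) : qq e T l t < QQ e T l := by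
  unfold qq QQ
  refine Nat.lt_succ_of_le (Nat.floor_mono ?_)
  refine mul_le_mul_of_nonneg_right (by linarith [ht.2]) (VV_pos e l).le

lemma qq_mem {e T t : ℝ} (l : ℕ) (ht : t ∈ Icc (-T) T) :
    t ∈ Icc (-T + (qq e T l t : ℝ) / VV e l) (-T + (qq e T l t : ℝ) / VV e l + 1 / VV e l) := by
  have hV := VV_pos e l
  have h0 : 0 ≤ (t + T) * VV e l := mul_nonneg (by linarith [ht.1]) hV.le
  have h1 : (qq e T l t : ℝ) / VV e l ≤ t + T := by
    rw [div_le_iff₀ hV]; exact Nat.floor_le h0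
  have h2 : t + T ≤ ((qq e T l t : ℝ) + 1) / VV e l := by
    rw [le_div_iff₀ hV]; exact (Nat.lt_floor_add_one _).le
  rw [add_div] at h2
  constructor <;> linarith

lemma JJ_sum {m : ℕ} {σ e : ℝ} (hσ : 0 ≤ σ) (he : 1 ≤ e) {G : En (m + 1) → ℂ}
    (hG : AEStronglyMeasurable G) (hW : WW σ G < ⊤) (l : ℕ) {ρ T : ℝ} (hρ : 0 < ρ) (hT : 0 < T) :
    ∑ q ∈ Finset.range (QQ e T l), JJ e σ ρ T G l q ≤
      ENNReal.ofReal (kap m ρ e σ l) * WW σ G := by
  refine blk_sum hσ he hG hW l (LL m σ l) hρ hT ?_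
  have hV := VV_pos e l
  have h1 : (QQ e T l : ℝ) ≤ 2 * T * VV e l + 1 := by
    unfold QQ
    push_cast
    linarith [Nat.floor_le (show 0 ≤ 2 * T * VV e l by positivity)]
  rw [div_le_iff₀ hV]
  nlinarith [VV_one he l]

/-- the coefficient constant -/
noncomputable def c1 (m : ℕ) (ρ e σ : ℝ) : ℝ :=
  36 * cd m * ρ * 2 ^ e * ((m + 2 + ⌈2 * σ⌉₊ : ℕ) : ℝ) ^ 2 * 2 ^ (4 * σ)

lemma c1_nonneg {m : ℕ} {ρ e σ : ℝ} (hρ : 0 < ρ) : 0 ≤ c1 m ρ e σ := by
  have := cd_pos m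
  unfold c1; positivity

lemma sum_fin {C θ : ℝ} (h0 : 0 < θ) (h1 : θ < 1) :
    ∑' l : ℕ, ENNReal.ofReal (C * (((l : ℝ) + 1) ^ 2 * θ ^ l)) ≠ ⊤ := by
  have hs : Summable fun l : ℕ => C * (((l : ℝ) + 1) ^ 2 * θ ^ l) := by
    refine Summable.mul_left C ?_
    have h2 := summable_pow_mul_geometric_of_norm_lt_one (R := ℝ) 2 (r := θ)
      (by rwa [Real.norm_of_nonneg h0.le])
    have h3 := (summable_nat_add_iff 1).2 h2
    refine (h3.mul_left θ⁻¹).congr fun l => ?_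
    push_cast
    rw [pow_succ θ l]
    field_simp
  exact hs.tsum_ofReal_ne_top

/-- **bad times** -/
lemma bad_zero {m : ℕ} {σ e : ℝ} (hσ : 0 ≤ σ) (he : 1 ≤ e) {G : En (m + 1) → ℂ}
    (hG : AEStronglyMeasurable G) (hW : WW σ G < ⊤) {ρ T : ℝ} (hρ : 0 < ρ) (hT : 0 < T)
    {α γ : ℝ} (hα : 0 < α) (hγ : 0 < γ) (hγ1 : 1 + 2 * σ + γ ≤ e * α) :
    μH[α] {t : ℝ | t ∈ Icc (-T) T ∧ ∀ n, ∃ l ≥ n,
      ENNReal.ofReal (th (γ / 2) ^ l) ≤ JJ e σ ρ T G l (qq e T l t)} = 0 := by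
  classical
  refine cover_zero hα (VV_pos e) (VV_mono he) (VV_tendsto he)
    (c := fun l q => -T + q / VV e l)
    (fun l q => ENNReal.ofReal (th (γ / 2) ^ l) ≤ JJ e σ ρ T G l q) (QQ e T)
    (fun l => ENNReal.ofReal (c1 m ρ e σ * (((l : ℝ) + 1) ^ 2 * th (γ / 2) ^ l)) * WW σ G)
    ?_ ?_ _ ?_
  · intro l
    have hθ : 0 < th (γ / 2) ^ l := pow_pos (th_pos _) l
    have hV := VV_pos e l
    have hk : 0 ≤ kap m ρ e σ l := by
      have := cd_pos m
      unfold kap; positivity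
    have h1 : ∀ q ∈ Finset.range (QQ e T l),
        (if ENNReal.ofReal (th (γ / 2) ^ l) ≤ JJ e σ ρ T G l q then
          ENNReal.ofReal (1 / VV e l) ^ α else 0) ≤
        ENNReal.ofReal ((th (γ / 2) ^ l)⁻¹ * (1 / VV e l) ^ α) * JJ e σ ρ T G l q := by
      intro q _
      split_ifs with h
      · refine le_trans (le_of_eq ?_) (mul_le_mul_right h _)
        rw [← ENNReal.ofReal_mul (by positivity), ENNReal.ofReal_rpow_of_pos (by positivity)]
        congr 1
        field_simp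
      · exact zero_le
    have h2 : ∀ (inst : ∀ l q, Decidable (ENNReal.ofReal (th (γ / 2) ^ l) ≤ JJ e σ ρ T G l q)),
        ∑ q ∈ Finset.range (QQ e T l), (if ENNReal.ofReal (th (γ / 2) ^ l) ≤ JJ e σ ρ T G l q then
          ENNReal.ofReal (1 / VV e l) ^ α else 0) ≤
        ENNReal.ofReal (c1 m ρ e σ * (((l : ℝ) + 1) ^ 2 * th (γ / 2) ^ l)) * WW σ G := by
      intro inst
      refine (Finset.sum_le_sum fun q hq => (le_of_eq (by congr)).trans (h1 q hq)).trans ?_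
      rw [← Finset.mul_sum]
      refine (mul_le_mul_right (JJ_sum hσ he hG hW l hρ hT) _).trans ?_
      rw [← mul_assoc, ← ENNReal.ofReal_mul (by positivity)]
      refine mul_le_mul_left (ENNReal.ofReal_le_ofReal ?_) _
      refine le_trans (le_of_eq ?_) (kap_bd (m := m) (σ := σ) hρ he hα.le hγ1 l)
      ring
    convert h2 (fun _ _ => Classical.propDecidable _) using 2
  · rw [ENNReal.tsum_mul_right]
    exact (ENNReal.mul_lt_top (lt_top_iff_ne_top.2 (sum_fin (th_pos _) (th_lt (by positivity))))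
      hW).ne
  · rintro t ⟨ht, h⟩ n
    obtain ⟨l, hl, hb⟩ := h n
    exact ⟨l, hl, qq e T l t, qq_lt l ht, hb, qq_mem l ht⟩

/-- the constant for the cells -/
noncomputable def c2 (m : ℕ) (σ : ℝ) : ℝ :=
  rexp 1 * (2 * (m + 1) * √(m + 1)) * π ^ ((m : ℝ) / 2) * 2 ^ (m + 4 * σ)

lemma c2_nonneg (m : ℕ) (σ : ℝ) : 0 ≤ c2 m σ := by
  have := pi_pos
  unfold c2; positivity

/-- **good times** -/
lemma good_conv {m : ℕ} {σ e : ℝ} (hσ : 0 ≤ σ) (he : 1 ≤ e) {G : En (m + 1) → ℂ}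
    (hG : AEStronglyMeasurable G) (hW : WW σ G < ⊤) {ρ T : ℝ}
    {γ : ℝ} (hγ : 0 < γ) (hγ1 : γ ≤ 1) {t : ℝ} (ht : t ∈ Icc (-T) T) (l0 : ℕ)
    (h : ∀ l ≥ l0, JJ e σ ρ T G l (qq e T l t) < ENNReal.ofReal (th (γ / 2) ^ l)) :
    ∀ᵐ x ∂(volume.restrict (Metric.closedBall (0 : En (m + 1)) ρ)),
      ∃ A, Tendsto (fun R => ps (tw (pw e) t G) R x) atTop (𝓝 A) := by
  set P : ℕ → En (m + 1) → ℝ≥0∞ := fun l x => Ph e (bl G l) l (LL m σ l) x
    (Ioc (-T + (qq e T l t : ℝ) / VV e l) (-T + (qq e T l t : ℝ) / VV e l + 1 / VV e l)) with hP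
  have hPm : ∀ l, Measurable (P l) := fun l => Ph_meas he (bl_mem hσ hG hW l) _ _ _
  set w : ℕ → ℝ≥0∞ := fun k => ENNReal.ofReal ((th (γ / 4) ^ (k + l0))⁻¹) with hw
  have hS : ∫⁻ x in Metric.closedBall (0 : En (m + 1)) ρ, ∑' k, w k * P (k + l0) x < ⊤ := by
    rw [lintegral_tsum fun k => ((hPm _).const_mul _).aemeasurable]
    have h1 : ∀ k, ∫⁻ x in Metric.closedBall (0 : En (m + 1)) ρ, w k * P (k + l0) x ≤
        ENNReal.ofReal (th (γ / 4) ^ (k + l0)) := by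
      intro k
      rw [lintegral_const_mul _ (hPm _)]
      have h2 : ∫⁻ x in Metric.closedBall (0 : En (m + 1)) ρ, P (k + l0) x ≤
          ENNReal.ofReal (th (γ / 2) ^ (k + l0)) := (h (k + l0) (by omega)).le
      refine (mul_le_mul_right h2 _).trans (le_of_eq ?_)
      rw [hw]
      simp only
      have h3 : 0 < th (γ / 4) ^ (k + l0) := pow_pos (th_pos _) _
      rw [← ENNReal.ofReal_mul (by positivity)]
      congr 1
      rw [show γ / 2 = γ / 4 + γ / 4 by ring, th_add]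
      field_simp
    refine lt_of_le_of_lt (ENNReal.tsum_le_tsum h1) (lt_top_iff_ne_top.2 ?_)
    have hs : Summable fun k : ℕ => th (γ / 4) ^ (k + l0) :=
      (summable_nat_add_iff l0).2 (summable_geometric_of_lt_one (th_pos _).le
        (th_lt (by positivity)))
    exact hs.tsum_ofReal_ne_top
  have hae := ae_lt_top (Measurable.tsum fun k => (hPm _).const_mul _) hS.ne
  filter_upwards [hae] with x hx
  set K := ∑' k, w k * P (k + l0) x with hK
  set K2 : ℝ := 2 * (K.toReal + c2 m σ * (WW σ G).toReal) with hK2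
  have hc2 := c2_nonneg m σ
  have hK20 : 0 ≤ K2 := by positivity
  refine conv (θ := th (γ / 8)) (th_pos _) (th_lt (by positivity)) (K := √K2) l0 ?_
  intro l hl R hR
  have hθ : 0 < th (γ / 4) ^ l := pow_pos (th_pos _) l
  have h1 : P l x ≤ ENNReal.ofReal (K.toReal * th (γ / 4) ^ l) := by
    have h2 : w (l - l0) * P l x ≤ K := by
      have := ENNReal.le_tsum (f := fun k => w k * P (k + l0) x) (l - l0)
      rwa [show l - l0 + l0 = l by omega] at this
    rw [ENNReal.ofReal_mul ENNReal.toReal_nonneg, ENNReal.ofReal_toReal hx.ne]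
    calc P l x = ENNReal.ofReal (th (γ / 4) ^ l) * (w (l - l0) * P l x) := by
          rw [← mul_assoc, hw]
          simp only
          rw [show l - l0 + l0 = l by omega, ← ENNReal.ofReal_mul hθ.le,
            mul_inv_cancel₀ hθ.ne', ENNReal.ofReal_one, one_mul]
      _ ≤ ENNReal.ofReal (th (γ / 4) ^ l) * K := mul_le_mul_right h2 _
      _ = _ := mul_comm _ _
  have h2 : ENNReal.ofReal (cell m l (LL m σ l) * ((2 : ℝ) ^ (l + 2)) ^ (2 * σ)) * WW σ G ≤
      ENNReal.ofReal (c2 m σ * (WW σ G).toReal * th (γ / 4) ^ l) := by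
    refine (mul_le_mul_left (ENNReal.ofReal_le_ofReal (cell_bd (m := m) (σ := σ)
      (a := γ / 4) (by linarith) l)) _).trans (le_of_eq ?_)
    change ENNReal.ofReal (c2 m σ * _) * _ = _
    nth_rewrite 1 [← ENNReal.ofReal_toReal hW.ne]
    rw [← ENNReal.ofReal_mul (by positivity)]
    congr 1
    ring
  have h3 := (blk_bound hσ he hG hW l (LL m σ l) hR x (qq_mem l ht)).trans
    (mul_le_mul_right (add_le_add h1 h2) 2)
  rw [← ENNReal.ofReal_add (by positivity) (by positivity),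
    show (2 : ℝ≥0∞) = ENNReal.ofReal 2 by simp, ← ENNReal.ofReal_mul (by norm_num), ← ofReal_norm,
    ← ENNReal.ofReal_pow (norm_nonneg _), ENNReal.ofReal_le_ofReal_iff (by positivity)] at h3
  have h4 : ‖ps (tw (pw e) t G) R x - ps (tw (pw e) t G) (2 ^ l) x‖ ^ 2 ≤
      K2 * th (γ / 4) ^ l := by
    refine h3.trans (le_of_eq ?_)
    rw [hK2]; ring
  have h5 := Real.le_sqrt_of_sq_le h4
  rw [Real.sqrt_mul hK20, th_half] at h5
  rwa [show γ / 4 / 2 = γ / 8 by ring] at h5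

end Run7.h726.Fl
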