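import Mathlib
import Pool.Agent.Run7.h726.Fl.F

/-! The dimension of the set of bad times, and the maximal estimate for fractal measures. -/

set_option autoImplicit false

open MeasureTheory Real Set Filter Topology
open scoped ENNReal NNReal RealInnerProductSpace

namespace Run7.h726.Fl

open Pool.Agent.Helper93.Sph

/-- the set of bad times -/
def badT {m : ℕ} (e : ℝ) (G : En (m + 1) → ℂ) : Set ℝ :=
  {t : ℝ | ¬ ∀ᵐ x : En (m + 1), ∃ A, Tendsto (fun R => ps (tw (pw e) t G) R x) atTop (𝓝 A)}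

lemma badT_sub {m : ℕ} {σ e : ℝ} (hσ : 0 ≤ σ) (he : 1 ≤ e) {G : En (m + 1) → ℂ}
    (hG : AEStronglyMeasurable G) (hW : WW σ G < ⊤) {γ : ℝ} (hγ : 0 < γ) (hγ1 : γ ≤ 1) :
    badT e G ⊆ ⋃ i : ℕ × ℕ, {t : ℝ | t ∈ Icc (-((i.1 : ℝ) + 1)) (i.1 + 1) ∧ ∀ n, ∃ l ≥ n,
      ENNReal.ofReal (th (γ / 2) ^ l) ≤ JJ e σ ((i.2 : ℝ) + 1) ((i.1 : ℝ) + 1) G l
        (qq e ((i.1 : ℝ) + 1) l t)} := by
  intro t ht
  by_contra hcon
  refine ht ?_
  simp only [mem_iUnion, mem_ofPred_eq, not_exists, not_and, not_forall] at hcon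
  obtain ⟨T, hT⟩ := exists_nat_ge |t|
  have htT : t ∈ Icc (-((T : ℝ) + 1)) (T + 1) := by
    rw [mem_Icc, ← abs_le]; linarith
  have hb : ∀ ρ : ℕ, ∀ᵐ x ∂(volume.restrict (Metric.closedBall (0 : En (m + 1)) ((ρ : ℝ) + 1))),
      ∃ A, Tendsto (fun R => ps (tw (pw e) t G) R x) atTop (𝓝 A) := by
    intro ρ
    obtain ⟨l0, h⟩ := hcon (T, ρ) htT
    refine good_conv hσ he hG hW hγ hγ1 htT l0 fun l hl => ?_
    exact not_le.1 (h l hl)
  have hall := ae_all_iff.2 fun ρ => (ae_restrict_iff' (Metric.isClosed_closedBall.measurableSet)).1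
    (hb ρ)
  filter_upwards [hall] with x hx
  obtain ⟨ρ, hρ⟩ := exists_nat_ge ‖x‖
  exact hx ρ (by rw [Metric.mem_closedBall, dist_zero_right]; linarith)

lemma badT_haus {m : ℕ} {σ e : ℝ} (hσ : 0 ≤ σ) (he : 1 ≤ e) {G : En (m + 1) → ℂ}
    (hG : AEStronglyMeasurable G) (hW : WW σ G < ⊤) {α : ℝ} (hα : (1 + 2 * σ) / e < α) :
    μH[α] (badT e G) = 0 := by
  have he0 : 0 < e := by linarith
  have hα0 : 0 < α := lt_trans (by positivity) hα
  rw [div_lt_iff₀ he0] at hα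
  set γ : ℝ := min 1 (e * α - (1 + 2 * σ)) with hγ
  have h0 : 0 < γ := lt_min one_pos (by linarith)
  have h1 : γ ≤ 1 := min_le_left _ _
  have h2 : γ ≤ e * α - (1 + 2 * σ) := min_le_right _ _
  refine measure_mono_null (badT_sub hσ he hG hW h0 h1) (measure_iUnion_null fun i => ?_)
  exact bad_zero hσ he hG hW (by positivity) (by positivity) hα0 h0 (by linarith)

/-- **dimension of the set of bad times** -/
theorem badT_dim {m : ℕ} {σ e : ℝ} (hσ : 0 ≤ σ) (he : 1 ≤ e) {G : En (m + 1) → ℂ}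
    (hG : AEStronglyMeasurable G) (hW : WW σ G < ⊤) :
    dimH (badT e G) ≤ ENNReal.ofReal ((1 + 2 * σ) / e) := by
  have he0 : 0 < e := by linarith
  refine le_of_forall_gt_imp_ge_of_dense fun a ha => ?_
  rcases eq_or_ne a ⊤ with rfl | hat
  · exact le_top
  lift a to ℝ≥0 using hat
  have h1 : (1 + 2 * σ) / e < a := by
    have := (ENNReal.ofReal_lt_iff_lt_toReal (by positivity) ENNReal.coe_ne_top).1 ha
    simpa using this
  refine dimH_le_of_hausdorffMeasure_ne_top ?_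
  rw [badT_haus hσ he hG hW h1]
  simp

end Run7.h726.Fl
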