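import Mathlib
import Pool.Agent.Run7.h726.Fl.G

/-! Good times: convergence almost everywhere and in `L²` on balls to the same function. -/

set_option autoImplicit false

open MeasureTheory Real Set Filter Topology
open scoped ENNReal NNReal RealInnerProductSpace

namespace Run7.h726.Fl

open Pool.Agent.Helper93.Sph

/-- the rate of convergence along all radii -/
lemma conv_rate {s : ℝ → ℂ} {θ : ℝ} (h0 : 0 < θ) (h1 : θ < 1) {K : ℝ} (hK : 0 ≤ K) (l0 : ℕ)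
    (h : ∀ l ≥ l0, ∀ R ∈ Icc ((2 : ℝ) ^ l) (2 ^ (l + 1)), ‖s R - s (2 ^ l)‖ ≤ K * θ ^ l)
    {A : ℂ} (hA : Tendsto s atTop (𝓝 A)) :
    ∀ l ≥ l0, ∀ R ∈ Icc ((2 : ℝ) ^ l) (2 ^ (l + 1)), ‖s R - A‖ ≤ 2 / (1 - θ) * K * θ ^ l := by
  intro l hl R hR
  have hA' : Tendsto (fun k : ℕ => s (2 ^ (k + l))) atTop (𝓝 A) :=
    hA.comp ((tendsto_pow_atTop_atTop_of_one_lt (by norm_num : (1 : ℝ) < 2)).comp
      (tendsto_add_atTop_nat l))
  have h2 : dist (s (2 ^ (0 + l))) A ≤ K * θ ^ l / (1 - θ) := by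
    refine dist_le_of_le_geometric_of_tendsto₀ (f := fun k : ℕ => s (2 ^ (k + l))) θ (K * θ ^ l) h1
      (fun k => ?_) hA'
    rw [dist_comm, dist_eq_norm]
    have := h (k + l) (by omega) (2 ^ (k + l + 1)) ⟨by
      rw [pow_succ]; linarith [pow_pos (by norm_num : (0:ℝ) < 2) (k + l)], le_rfl⟩
    rw [show k + 1 + l = k + l + 1 by ring]
    refine this.trans (le_of_eq ?_)
    rw [pow_add]; ring
  rw [zero_add, dist_eq_norm] at h2
  have h3 := h l hl R hR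
  have hθ : 0 < 1 - θ := by linarith
  have h4 : K * θ ^ l ≤ K * θ ^ l / (1 - θ) := by
    rw [le_div_iff₀ hθ]
    have : 0 ≤ K * θ ^ l := by positivity
    nlinarith
  calc ‖s R - A‖ = ‖(s R - s (2 ^ l)) + (s (2 ^ l) - A)‖ := by congr 1; ring
    _ ≤ ‖s R - s (2 ^ l)‖ + ‖s (2 ^ l) - A‖ := norm_add_le _ _
    _ ≤ K * θ ^ l / (1 - θ) + K * θ ^ l / (1 - θ) := by linarith
    _ = _ := by field_simp; ring

/-- **good times**, with a square integrable majorant of the errors -/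
lemma good_rate {m : ℕ} {σ e : ℝ} (hσ : 0 ≤ σ) (he : 1 ≤ e) {G : En (m + 1) → ℂ}
    (hG : AEStronglyMeasurable G) (hW : WW σ G < ⊤) {ρ T : ℝ}
    {γ : ℝ} (hγ : 0 < γ) (hγ1 : γ ≤ 1) {t : ℝ} (ht : t ∈ Icc (-T) T) (l0 : ℕ)
    (h : ∀ l ≥ l0, JJ e σ ρ T G l (qq e T l t) < ENNReal.ofReal (th (γ / 2) ^ l)) :
    ∃ k : En (m + 1) → ℝ≥0∞, Measurable k ∧
      ∫⁻ x in Metric.closedBall (0 : En (m + 1)) ρ, k x < ⊤ ∧
      ∀ x, k x < ⊤ → ∀ l ≥ l0, ∀ R ∈ Icc ((2 : ℝ) ^ l) (2 ^ (l + 1)),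
        ‖ps (tw (pw e) t G) R x - ps (tw (pw e) t G) (2 ^ l) x‖ ≤
          √((k x).toReal) * th (γ / 8) ^ l := by
  set P : ℕ → En (m + 1) → ℝ≥0∞ := fun l x => Ph e (bl G l) l (LL m σ l) x
    (Ioc (-T + (qq e T l t : ℝ) / VV e l) (-T + (qq e T l t : ℝ) / VV e l + 1 / VV e l)) with hP
  have hPm : ∀ l, Measurable (P l) := fun l => Ph_meas he (bl_mem hσ hG hW l) _ _ _
  set w : ℕ → ℝ≥0∞ := fun k => ENNReal.ofReal ((th (γ / 4) ^ (k + l0))⁻¹) with hw
  have hS : ∫⁻ x in Metric.closedBall (0 : En (m + 1)) ρ, ∑' k, w k * P (k + l0) x < ⊤ := by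
    rw [lintegral_tsum fun k => ((hPm _).const_mul _).aemeasurable]
    have h1 : ∀ k, ∫⁻ x in Metric.closedBall (0 : En (m + 1)) ρ, w k * P (k + l0) x ≤
        ENNReal.ofReal (th (γ / 4) ^ (k + l0)) := by
      intro k
      rw [lintegral_const_mul _ (hPm _)]
      have h2 : ∫⁻ x in Metric.closedBall (0 : En (m + 1)) ρ, P (k + l0) x ≤
          ENNReal.ofReal (th (γ / 2) ^ (k + l0)) := (h (k + l0) (by omega)).le
      refine (mul_le_mul_right h2 _).trans (le_of_eq ?_)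
      rw [hw]
      simp only
      have h3 : 0 < th (γ / 4) ^ (k + l0) := pow_pos (th_pos _) _
      rw [← ENNReal.ofReal_mul (by positivity)]
      congr 1
      rw [show γ / 2 = γ / 4 + γ / 4 by ring, th_add]
      field_simp
    refine lt_of_le_of_lt (ENNReal.tsum_le_tsum h1) (lt_top_iff_ne_top.2 ?_)
    have hs : Summable fun k : ℕ => th (γ / 4) ^ (k + l0) :=
      (summable_nat_add_iff l0).2 (summable_geometric_of_lt_one (th_pos _).le
        (th_lt (by positivity)))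
    exact hs.tsum_ofReal_ne_top
  have hc2 := c2_nonneg m σ
  set N : ℝ≥0∞ := ENNReal.ofReal (c2 m σ) * WW σ G with hN
  have hNf : N < ⊤ := ENNReal.mul_lt_top ENNReal.ofReal_lt_top hW
  have hSm : Measurable fun x => ∑' k, w k * P (k + l0) x :=
    Measurable.tsum fun k => (hPm _).const_mul _
  refine ⟨fun x => 2 * ((∑' k, w k * P (k + l0) x) + N), ?_, ?_, ?_⟩
  · exact (hSm.add_const _).const_mul _
  · rw [lintegral_const_mul _ (hSm.add_const _), lintegral_add_left hSm, lintegral_const,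
      Measure.restrict_apply_univ]
    refine ENNReal.mul_lt_top (by simp) (ENNReal.add_lt_top.2 ⟨hS, ENNReal.mul_lt_top hNf ?_⟩)
    exact measure_closedBall_lt_top
  intro x hx l hl R hR
  simp only at hx ⊢
  set K := ∑' k, w k * P (k + l0) x with hK
  have hθ : 0 < th (γ / 4) ^ l := pow_pos (th_pos _) l
  have hxK : K ≠ ⊤ := by
    intro h'
    rw [h'] at hx
    simp at hx
  have h1 : P l x ≤ ENNReal.ofReal (th (γ / 4) ^ l) * K := by
    have h2 : w (l - l0) * P l x ≤ K := by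
      have := ENNReal.le_tsum (f := fun k => w k * P (k + l0) x) (l - l0)
      rwa [show l - l0 + l0 = l by omega] at this
    calc P l x = ENNReal.ofReal (th (γ / 4) ^ l) * (w (l - l0) * P l x) := by
          rw [← mul_assoc, hw]
          simp only
          rw [show l - l0 + l0 = l by omega, ← ENNReal.ofReal_mul hθ.le,
            mul_inv_cancel₀ hθ.ne', ENNReal.ofReal_one, one_mul]
      _ ≤ ENNReal.ofReal (th (γ / 4) ^ l) * K := mul_le_mul_right h2 _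
  have h2 : ENNReal.ofReal (cell m l (LL m σ l) * ((2 : ℝ) ^ (l + 2)) ^ (2 * σ)) * WW σ G ≤
      ENNReal.ofReal (th (γ / 4) ^ l) * N := by
    refine (mul_le_mul_left (ENNReal.ofReal_le_ofReal (cell_bd (m := m) (σ := σ)
      (a := γ / 4) (by linarith) l)) _).trans (le_of_eq ?_)
    change ENNReal.ofReal (c2 m σ * _) * _ = _
    rw [ENNReal.ofReal_mul hc2, hN]
    ring
  have h3 := (blk_bound hσ he hG hW l (LL m σ l) hR x (qq_mem l ht)).trans
    (mul_le_mul_right (add_le_add h1 h2) 2)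
  have h4 : 2 * (ENNReal.ofReal (th (γ / 4) ^ l) * K + ENNReal.ofReal (th (γ / 4) ^ l) * N) =
      ENNReal.ofReal ((2 * (K + N)).toReal * th (γ / 4) ^ l) := by
    rw [ENNReal.ofReal_mul ENNReal.toReal_nonneg, ENNReal.ofReal_toReal hx.ne]
    ring
  rw [h4, ← ofReal_norm, ← ENNReal.ofReal_pow (norm_nonneg _),
    ENNReal.ofReal_le_ofReal_iff (mul_nonneg ENNReal.toReal_nonneg hθ.le)] at h3
  have h5 := Real.le_sqrt_of_sq_le h3
  rw [Real.sqrt_mul ENNReal.toReal_nonneg, th_half] at h5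
  rwa [show γ / 4 / 2 = γ / 8 by ring] at h5

/-- **good times**: convergence almost everywhere and in `L²` on the ball -/
lemma good_both {m : ℕ} {σ e : ℝ} (hσ : 0 ≤ σ) (he : 1 ≤ e) {G : En (m + 1) → ℂ}
    (hG : AEStronglyMeasurable G) (hW : WW σ G < ⊤) {ρ T : ℝ}
    {γ : ℝ} (hγ : 0 < γ) (hγ1 : γ ≤ 1) {t : ℝ} (ht : t ∈ Icc (-T) T) (l0 : ℕ)
    (h : ∀ l ≥ l0, JJ e σ ρ T G l (qq e T l t) < ENNReal.ofReal (th (γ / 2) ^ l)) :
    (∀ᵐ x ∂(volume.restrict (Metric.closedBall (0 : En (m + 1)) ρ)),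
      Tendsto (fun R => ps (tw (pw e) t G) R x) atTop
        (𝓝 (limUnder atTop fun R => ps (tw (pw e) t G) R x))) ∧
    Tendsto (fun R => ∫⁻ x in Metric.closedBall (0 : En (m + 1)) ρ,
      ‖ps (tw (pw e) t G) R x - limUnder atTop (fun R => ps (tw (pw e) t G) R x)‖ₑ ^ 2)
      atTop (𝓝 0) := by
  obtain ⟨k, hkm, hki, hk⟩ := good_rate hσ he hG hW hγ hγ1 ht l0 h
  have hae := ae_lt_top hkm hki.ne
  have hlim : ∀ x, k x < ⊤ → Tendsto (fun R => ps (tw (pw e) t G) R x) atTop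
        (𝓝 (limUnder atTop fun R => ps (tw (pw e) t G) R x)) := by
    intro x hx
    obtain ⟨A, hA⟩ := conv (θ := th (γ / 8)) (th_pos _) (th_lt (by positivity))
      (K := √((k x).toReal)) l0 (hk x hx)
    rw [hA.limUnder_eq]
    exact hA
  refine ⟨hae.mono hlim, ?_⟩
  set θ := th (γ / 8) with hθ
  have hθ0 : 0 < θ := th_pos _
  have hθ1 : θ < 1 := th_lt (by positivity)
  have h1θ : 0 < 1 - θ := by linarith
  set I := ∫⁻ x in Metric.closedBall (0 : En (m + 1)) ρ, k x with hI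
  have hbd : ∀ l ≥ l0, ∀ R ∈ Icc ((2 : ℝ) ^ l) (2 ^ (l + 1)),
      ∫⁻ x in Metric.closedBall (0 : En (m + 1)) ρ,
      ‖ps (tw (pw e) t G) R x - limUnder atTop (fun R => ps (tw (pw e) t G) R x)‖ₑ ^ 2 ≤
      ENNReal.ofReal ((2 / (1 - θ)) ^ 2 * (θ ^ 2) ^ l) * I := by
    intro l hl R hR
    rw [hI, ← lintegral_const_mul _ hkm]
    refine lintegral_mono_ae (hae.mono fun x hx => ?_)
    have h2 := conv_rate hθ0 hθ1 (Real.sqrt_nonneg _) l0 (hk x hx) (hlim x hx) l hl R hR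
    rw [← ofReal_norm, ← ENNReal.ofReal_pow (norm_nonneg _)]
    have h3 := pow_le_pow_left₀ (norm_nonneg _) h2 2
    refine (ENNReal.ofReal_le_ofReal h3).trans (le_of_eq ?_)
    rw [show (2 / (1 - θ) * √((k x).toReal) * θ ^ l) ^ 2 =
      ((2 / (1 - θ)) ^ 2 * (θ ^ 2) ^ l) * (√((k x).toReal)) ^ 2 by ring,
      Real.sq_sqrt ENNReal.toReal_nonneg, ENNReal.ofReal_mul (by positivity),
      ENNReal.ofReal_toReal hx.ne]
  have hlog : Tendsto (fun R : ℝ => Nat.log 2 ⌊R⌋₊) atTop atTop := by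
    have h2 : Tendsto (fun R : ℝ => ⌊R⌋₊) atTop atTop := tendsto_nat_floor_atTop
    have h3 : Tendsto (Nat.log 2) atTop atTop := by
      refine tendsto_atTop.2 fun b => ?_
      filter_upwards [eventually_ge_atTop (2 ^ b)] with n hn
      exact (Nat.le_log_iff_pow_le (by norm_num) (by
        have : 0 < 2 ^ b := by positivity
        omega)).2 hn
    exact h3.comp h2
  have hz : Tendsto (fun R : ℝ => ENNReal.ofReal ((2 / (1 - θ)) ^ 2 *
      (θ ^ 2) ^ (Nat.log 2 ⌊R⌋₊)) * I) atTop (𝓝 0) := by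
    have h4 : Tendsto (fun R : ℝ => (2 / (1 - θ)) ^ 2 * (θ ^ 2) ^ (Nat.log 2 ⌊R⌋₊)) atTop
        (𝓝 0) := by
      have := ((tendsto_pow_atTop_nhds_zero_of_lt_one (r := θ ^ 2) (by positivity)
        (by nlinarith)).comp hlog).const_mul ((2 / (1 - θ)) ^ 2)
      simpa using this
    have h5 := ENNReal.tendsto_ofReal h4
    rw [ENNReal.ofReal_zero] at h5
    have h6 := ENNReal.Tendsto.mul_const h5 (b := I) (Or.inr hki.ne)
    rwa [zero_mul] at h6
  refine tendsto_of_tendsto_of_tendsto_of_le_of_le' tendsto_const_nhds hz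
    (Eventually.of_forall fun _ => zero_le) ?_
  filter_upwards [hlog.eventually_ge_atTop l0, eventually_ge_atTop (1 : ℝ)] with R hR hR1
  refine hbd _ hR R ⟨?_, ?_⟩
  · have h4 : 2 ^ Nat.log 2 ⌊R⌋₊ ≤ ⌊R⌋₊ := Nat.pow_log_le_self 2 (Nat.floor_pos.2 hR1).ne'
    calc (2 : ℝ) ^ Nat.log 2 ⌊R⌋₊ ≤ (⌊R⌋₊ : ℝ) := by exact_mod_cast h4
      _ ≤ R := Nat.floor_le (by linarith)
  · have h4 : ⌊R⌋₊ < 2 ^ (Nat.log 2 ⌊R⌋₊ + 1) := Nat.lt_pow_succ_log_self (by norm_num) _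
    have h5 : (⌊R⌋₊ : ℝ) + 1 ≤ 2 ^ (Nat.log 2 ⌊R⌋₊ + 1) := by exact_mod_cast h4
    exact (Nat.lt_floor_add_one R).le.trans h5

/-- the set of bad times, strong form -/
def badS {m : ℕ} (e : ℝ) (G : En (m + 1) → ℂ) : Set ℝ :=
  {t : ℝ | ¬ ∃ f : En (m + 1) → ℂ,
    (∀ᵐ x : En (m + 1), Tendsto (fun R => ps (tw (pw e) t G) R x) atTop (𝓝 (f x))) ∧
    ∀ ρ : ℝ, Tendsto (fun R => ∫⁻ x in Metric.closedBall (0 : En (m + 1)) ρ,
      ‖ps (tw (pw e) t G) R x - f x‖ₑ ^ 2) atTop (𝓝 0)}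

lemma badS_sub {m : ℕ} {σ e : ℝ} (hσ : 0 ≤ σ) (he : 1 ≤ e) {G : En (m + 1) → ℂ}
    (hG : AEStronglyMeasurable G) (hW : WW σ G < ⊤) {γ : ℝ} (hγ : 0 < γ) (hγ1 : γ ≤ 1) :
    badS e G ⊆ ⋃ i : ℕ × ℕ, {t : ℝ | t ∈ Icc (-((i.1 : ℝ) + 1)) (i.1 + 1) ∧ ∀ n, ∃ l ≥ n,
      ENNReal.ofReal (th (γ / 2) ^ l) ≤ JJ e σ ((i.2 : ℝ) + 1) ((i.1 : ℝ) + 1) G l
        (qq e ((i.1 : ℝ) + 1) l t)} := by
  intro t ht
  by_contra hcon
  refine ht ⟨fun x => limUnder atTop (fun R => ps (tw (pw e) t G) R x), ?_⟩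
  simp only [mem_iUnion, mem_ofPred_eq, not_exists, not_and, not_forall] at hcon
  obtain ⟨T, hT⟩ := exists_nat_ge |t|
  have htT : t ∈ Icc (-((T : ℝ) + 1)) (T + 1) := by
    rw [mem_Icc, ← abs_le]; linarith
  have hb := fun ρ : ℕ => good_both (ρ := (ρ : ℝ) + 1) hσ he hG hW hγ hγ1 htT
    (hcon (T, ρ) htT).choose fun l hl => not_le.1 ((hcon (T, ρ) htT).choose_spec l hl)
  constructor
  · have hall := ae_all_iff.2 fun ρ : ℕ =>
      (ae_restrict_iff' (Metric.isClosed_closedBall.measurableSet)).1 (hb ρ).1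
    filter_upwards [hall] with x hx
    obtain ⟨ρ, hρ⟩ := exists_nat_ge ‖x‖
    exact hx ρ (by rw [Metric.mem_closedBall, dist_zero_right]; linarith)
  · intro r
    obtain ⟨ρ, hρ⟩ := exists_nat_ge r
    refine tendsto_of_tendsto_of_tendsto_of_le_of_le tendsto_const_nhds (hb ρ).2
      (fun _ => zero_le) (fun R => ?_)
    exact lintegral_mono_set (Metric.closedBall_subset_closedBall (by linarith))

/-- **dimension of the set of bad times** -/
theorem badS_dim {m : ℕ} {σ e : ℝ} (hσ : 0 ≤ σ) (he : 1 ≤ e) {G : En (m + 1) → ℂ}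
    (hG : AEStronglyMeasurable G) (hW : WW σ G < ⊤) :
    dimH (badS e G) ≤ ENNReal.ofReal ((1 + 2 * σ) / e) := by
  have he0 : 0 < e := by linarith
  have hhaus : ∀ α : ℝ, (1 + 2 * σ) / e < α → μH[α] (badS e G) = 0 := by
    intro α hα
    have hα0 : 0 < α := lt_trans (by positivity) hα
    rw [div_lt_iff₀ he0] at hα
    set γ : ℝ := min 1 (e * α - (1 + 2 * σ)) with hγ
    have h0 : 0 < γ := lt_min one_pos (by linarith)
    have h1 : γ ≤ 1 := min_le_left _ _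
    have h2 : γ ≤ e * α - (1 + 2 * σ) := min_le_right _ _
    refine measure_mono_null (badS_sub hσ he hG hW h0 h1) (measure_iUnion_null fun i => ?_)
    exact bad_zero hσ he hG hW (by positivity) (by positivity) hα0 h0 (by linarith)
  refine le_of_forall_gt_imp_ge_of_dense fun a ha => ?_
  rcases eq_or_ne a ⊤ with rfl | hat
  · exact le_top
  lift a to ℝ≥0 using hat
  have h1 : (1 + 2 * σ) / e < a := by
    have := (ENNReal.ofReal_lt_iff_lt_toReal (by positivity) ENNReal.coe_ne_top).1 ha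
    simpa using this
  refine dimH_le_of_hausdorffMeasure_ne_top ?_
  rw [hhaus a h1]
  simp

end Run7.h726.Fl
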