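import Mathlib
import Pool.Agent.Run7.h726.Fl.I

/-! Good times: the maximal function is locally square integrable. -/

set_option autoImplicit false

open MeasureTheory Real Set Filter Topology
open scoped ENNReal NNReal RealInnerProductSpace

namespace Run7.h726.Fl

open Pool.Agent.Helper93.Sph

lemma small_b {m : ℕ} {σ e : ℝ} (hσ : 0 ≤ σ) {G : En (m + 1) → ℂ}
    (hG : AEStronglyMeasurable G) (hW : WW σ G < ⊤) (t : ℝ) (x : En (m + 1)) {R b : ℝ}
    (hR : R ≤ b) : ‖ps (tw (pw e) t G) R x‖ₑ ^ 2 ≤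
      volume (shell (m + 1) 0 (b + 1)) *
        (ENNReal.ofReal ((1 + (b + 1)) ^ (2 * σ)) * WW σ G) := by
  set H := tw (pw e) t G with hH
  have hm : MemLp ((shell (m + 1) 0 (b + 1)).indicator H) 2 :=
    loc_mem hσ (tw_meas (pw_meas e) t hG) (by rw [WW_tw]; exact hW) (shell_meas _ _ _)
      (b := b + 1) fun _ h => h.2.le
  rw [← ps_loc (H := H) (b := b + 1) (by linarith : R < b + 1), ps_eq]
  refine (piece_pt hm (shell_meas _ _ _) x).trans ?_
  refine mul_le_mul' (measure_mono fun ξ h => ⟨h.1, by linarith [h.2]⟩) ?_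
  refine (setLIntegral_le_lintegral _ _).trans ?_
  rw [ind_sq H (shell_meas _ _ _), ← WW_tw σ (pw e) t G]
  exact loc_bd hσ H (shell_meas _ _ _) (b := b + 1) fun _ h => h.2.le

/-- **good times**: the maximal function -/
lemma good_max {m : ℕ} {σ e : ℝ} (hσ : 0 ≤ σ) (he : 1 ≤ e) {G : En (m + 1) → ℂ}
    (hG : AEStronglyMeasurable G) (hW : WW σ G < ⊤) {ρ T : ℝ}
    {γ : ℝ} (hγ : 0 < γ) (hγ1 : γ ≤ 1) {t : ℝ} (ht : t ∈ Icc (-T) T) (l0 : ℕ)
    (h : ∀ l ≥ l0, JJ e σ ρ T G l (qq e T l t) < ENNReal.ofReal (th (γ / 2) ^ l)) :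
    ∫⁻ x in Metric.closedBall (0 : En (m + 1)) ρ,
      ⨆ R : ℝ, ‖ps (tw (pw e) t G) R x‖ₑ ^ 2 < ⊤ := by
  obtain ⟨k, hkm, hki, hk⟩ := good_rate hσ he hG hW hγ hγ1 ht l0 h
  have hae := ae_lt_top hkm hki.ne
  set θ := th (γ / 8) with hθ
  have hθ0 : 0 < θ := th_pos _
  have hθ1 : θ < 1 := th_lt (by positivity)
  have h1θ : 0 < 1 - θ := by linarith
  set N : ℝ≥0∞ := volume (shell (m + 1) 0 ((2 : ℝ) ^ l0 + 1)) *
        (ENNReal.ofReal ((1 + ((2 : ℝ) ^ l0 + 1)) ^ (2 * σ)) * WW σ G) with hN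
  have hNf : N < ⊤ := ENNReal.mul_lt_top (shell_finite _ _ _)
    (ENNReal.mul_lt_top ENNReal.ofReal_lt_top hW)
  set c : ℝ := 2 * (4 / (1 - θ)) ^ 2 with hc
  have hc0 : 0 ≤ c := by positivity
  have hb : ∀ x, k x < ⊤ → ⨆ R : ℝ, ‖ps (tw (pw e) t G) R x‖ₑ ^ 2 ≤
      2 * N + ENNReal.ofReal c * k x := by
    intro x hx
    obtain ⟨A, hA⟩ := conv hθ0 hθ1 (K := √((k x).toReal)) l0 (hk x hx)
    have hr := conv_rate hθ0 hθ1 (Real.sqrt_nonneg _) l0 (hk x hx) hA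
    refine iSup_le fun R => ?_
    rcases le_total R (2 ^ l0) with hR | hR
    · refine (small_b hσ hG hW t x hR).trans ?_
      calc N ≤ 2 * N := by rw [two_mul]; exact le_self_add
        _ ≤ 2 * N + ENNReal.ofReal c * k x := le_self_add
    · have hR1 : 1 ≤ R := le_trans (one_le_pow₀ (by norm_num)) hR
      have hR0 : ⌊R⌋₊ ≠ 0 := (Nat.floor_pos.2 hR1).ne'
      set l := Nat.log 2 ⌊R⌋₊ with hl
      have hll : l0 ≤ l := by
        rw [hl, Nat.le_log_iff_pow_le (by norm_num) hR0]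
        exact Nat.le_floor (by exact_mod_cast hR)
      have hm : R ∈ Icc ((2 : ℝ) ^ l) (2 ^ (l + 1)) := by
        refine ⟨?_, ?_⟩
        · have h4 : 2 ^ Nat.log 2 ⌊R⌋₊ ≤ ⌊R⌋₊ := Nat.pow_log_le_self 2 hR0
          calc (2 : ℝ) ^ Nat.log 2 ⌊R⌋₊ ≤ (⌊R⌋₊ : ℝ) := by exact_mod_cast h4
            _ ≤ R := Nat.floor_le (by linarith)
        · have h4 : ⌊R⌋₊ < 2 ^ (Nat.log 2 ⌊R⌋₊ + 1) := Nat.lt_pow_succ_log_self (by norm_num) _
          have h5 : (⌊R⌋₊ : ℝ) + 1 ≤ 2 ^ (Nat.log 2 ⌊R⌋₊ + 1) := by exact_mod_cast h4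
          exact (Nat.lt_floor_add_one R).le.trans h5
      have h1 := hr l hll R hm
      have h2 := hr l0 le_rfl (2 ^ l0) ⟨le_rfl, by
        rw [pow_succ]; linarith [pow_pos (by norm_num : (0:ℝ) < 2) l0]⟩
      have hone : ∀ j : ℕ, θ ^ j ≤ 1 := fun j => pow_le_one₀ hθ0.le hθ1.le
      have hq : 0 ≤ 2 / (1 - θ) * √((k x).toReal) := by positivity
      have h3 : ‖ps (tw (pw e) t G) R x‖ ≤ ‖ps (tw (pw e) t G) (2 ^ l0) x‖ +
          4 / (1 - θ) * √((k x).toReal) := by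
        have e1 : ps (tw (pw e) t G) R x = ps (tw (pw e) t G) (2 ^ l0) x +
            ((ps (tw (pw e) t G) R x - A) - (ps (tw (pw e) t G) (2 ^ l0) x - A)) := by ring
        have e2 : 4 / (1 - θ) * √((k x).toReal) = 2 / (1 - θ) * √((k x).toReal) +
            2 / (1 - θ) * √((k x).toReal) := by ring
        rw [e2]
        calc ‖ps (tw (pw e) t G) R x‖ = ‖ps (tw (pw e) t G) (2 ^ l0) x +
            ((ps (tw (pw e) t G) R x - A) - (ps (tw (pw e) t G) (2 ^ l0) x - A))‖ :=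
              congrArg _ e1
          _ ≤ ‖ps (tw (pw e) t G) (2 ^ l0) x‖ + (‖ps (tw (pw e) t G) R x - A‖ +
            ‖ps (tw (pw e) t G) (2 ^ l0) x - A‖) := (norm_add_le _ _).trans
              (add_le_add le_rfl (norm_sub_le _ _))
          _ ≤ _ := by
            have h4 := mul_le_mul_of_nonneg_left (hone l) hq
            have h5 := mul_le_mul_of_nonneg_left (hone l0) hq
            linarith
      have h6 : ‖ps (tw (pw e) t G) R x‖ ^ 2 ≤ 2 * ‖ps (tw (pw e) t G) (2 ^ l0) x‖ ^ 2 +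
          c * (k x).toReal := by
        have h7 := pow_le_pow_left₀ (norm_nonneg _) h3 2
        have h8 : (4 / (1 - θ) * √((k x).toReal)) ^ 2 = (4 / (1 - θ)) ^ 2 * (k x).toReal := by
          rw [mul_pow, Real.sq_sqrt ENNReal.toReal_nonneg]
        have h9 : c * (k x).toReal = 2 * (4 / (1 - θ) * √((k x).toReal)) ^ 2 := by
          rw [h8, hc]; ring
        rw [h9]
        nlinarith [sq_nonneg (‖ps (tw (pw e) t G) (2 ^ l0) x‖ - 4 / (1 - θ) * √((k x).toReal))]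
      have h10 := ENNReal.ofReal_le_ofReal h6
      rw [ENNReal.ofReal_pow (norm_nonneg _), ofReal_norm, ENNReal.ofReal_add (by positivity)
        (by positivity), ENNReal.ofReal_mul (by norm_num), ENNReal.ofReal_pow (norm_nonneg _),
        ofReal_norm, ENNReal.ofReal_mul hc0, ENNReal.ofReal_toReal hx.ne] at h10
      refine h10.trans (add_le_add ?_ le_rfl)
      rw [show ENNReal.ofReal 2 = 2 by simp]
      exact mul_le_mul_right (small_b hσ hG hW t x le_rfl) _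
  refine lt_of_le_of_lt (lintegral_mono_ae (hae.mono hb)) ?_
  rw [lintegral_add_left measurable_const, lintegral_const, Measure.restrict_apply_univ,
    lintegral_const_mul _ hkm]
  refine ENNReal.add_lt_top.2 ⟨ENNReal.mul_lt_top (ENNReal.mul_lt_top (by simp) hNf)
    measure_closedBall_lt_top, ENNReal.mul_lt_top ENNReal.ofReal_lt_top hki⟩

/-- the set of bad times, full form -/
def badF {m : ℕ} (e : ℝ) (G : En (m + 1) → ℂ) : Set ℝ :=
  {t : ℝ | ¬ ((∀ ρ : ℝ, ∫⁻ x in Metric.closedBall (0 : En (m + 1)) ρ,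
      ⨆ R : ℝ, ‖ps (tw (pw e) t G) R x‖ₑ ^ 2 < ⊤) ∧ ∃ f : En (m + 1) → ℂ,
    (∀ᵐ x : En (m + 1), Tendsto (fun R => ps (tw (pw e) t G) R x) atTop (𝓝 (f x))) ∧
    ∀ ρ : ℝ, Tendsto (fun R => ∫⁻ x in Metric.closedBall (0 : En (m + 1)) ρ,
      ‖ps (tw (pw e) t G) R x - f x‖ₑ ^ 2) atTop (𝓝 0))}

lemma badF_sub {m : ℕ} {σ e : ℝ} (hσ : 0 ≤ σ) (he : 1 ≤ e) {G : En (m + 1) → ℂ}
    (hG : AEStronglyMeasurable G) (hW : WW σ G < ⊤) {γ : ℝ} (hγ : 0 < γ) (hγ1 : γ ≤ 1) :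
    badF e G ⊆ ⋃ i : ℕ × ℕ, {t : ℝ | t ∈ Icc (-((i.1 : ℝ) + 1)) (i.1 + 1) ∧ ∀ n, ∃ l ≥ n,
      ENNReal.ofReal (th (γ / 2) ^ l) ≤ JJ e σ ((i.2 : ℝ) + 1) ((i.1 : ℝ) + 1) G l
        (qq e ((i.1 : ℝ) + 1) l t)} := by
  intro t ht
  by_contra hcon
  refine ht ⟨?_, fun x => limUnder atTop (fun R => ps (tw (pw e) t G) R x), ?_⟩
  all_goals
    simp only [mem_iUnion, mem_ofPred_eq, not_exists, not_and, not_forall] at hcon
    obtain ⟨T, hT⟩ := exists_nat_ge |t|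
    have htT : t ∈ Icc (-((T : ℝ) + 1)) (T + 1) := by
      rw [mem_Icc, ← abs_le]; linarith
  · intro r
    obtain ⟨ρ, hρ⟩ := exists_nat_ge r
    refine lt_of_le_of_lt (lintegral_mono_set (Metric.closedBall_subset_closedBall
      (by linarith : r ≤ (ρ : ℝ) + 1))) (good_max (ρ := (ρ : ℝ) + 1) hσ he hG hW hγ hγ1 htT
    (hcon (T, ρ) htT).choose fun l hl => not_le.1 ((hcon (T, ρ) htT).choose_spec l hl))
  have hb := fun ρ : ℕ => good_both (ρ := (ρ : ℝ) + 1) hσ he hG hW hγ hγ1 htT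
    (hcon (T, ρ) htT).choose fun l hl => not_le.1 ((hcon (T, ρ) htT).choose_spec l hl)
  constructor
  · have hall := ae_all_iff.2 fun ρ : ℕ =>
      (ae_restrict_iff' (Metric.isClosed_closedBall.measurableSet)).1 (hb ρ).1
    filter_upwards [hall] with x hx
    obtain ⟨ρ, hρ⟩ := exists_nat_ge ‖x‖
    exact hx ρ (by rw [Metric.mem_closedBall, dist_zero_right]; linarith)
  · intro r
    obtain ⟨ρ, hρ⟩ := exists_nat_ge r
    refine tendsto_of_tendsto_of_tendsto_of_le_of_le tendsto_const_nhds (hb ρ).2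
      (fun _ => zero_le) (fun R => ?_)
    exact lintegral_mono_set (Metric.closedBall_subset_closedBall (by linarith))

/-- **dimension of the set of bad times** -/
theorem badF_dim {m : ℕ} {σ e : ℝ} (hσ : 0 ≤ σ) (he : 1 ≤ e) {G : En (m + 1) → ℂ}
    (hG : AEStronglyMeasurable G) (hW : WW σ G < ⊤) :
    dimH (badF e G) ≤ ENNReal.ofReal ((1 + 2 * σ) / e) := by
  have he0 : 0 < e := by linarith
  have hhaus : ∀ α : ℝ, (1 + 2 * σ) / e < α → μH[α] (badF e G) = 0 := by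
    intro α hα
    have hα0 : 0 < α := lt_trans (by positivity) hα
    rw [div_lt_iff₀ he0] at hα
    set γ : ℝ := min 1 (e * α - (1 + 2 * σ)) with hγ
    have h0 : 0 < γ := lt_min one_pos (by linarith)
    have h1 : γ ≤ 1 := min_le_left _ _
    have h2 : γ ≤ e * α - (1 + 2 * σ) := min_le_right _ _
    refine measure_mono_null (badF_sub hσ he hG hW h0 h1) (measure_iUnion_null fun i => ?_)
    exact bad_zero hσ he hG hW (by positivity) (by positivity) hα0 h0 (by linarith)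
  refine le_of_forall_gt_imp_ge_of_dense fun a ha => ?_
  rcases eq_or_ne a ⊤ with rfl | hat
  · exact le_top
  lift a to ℝ≥0 using hat
  have h1 : (1 + 2 * σ) / e < a := by
    have := (ENNReal.ofReal_lt_iff_lt_toReal (by positivity) ENNReal.coe_ne_top).1 ha
    simpa using this
  refine dimH_le_of_hausdorffMeasure_ne_top ?_
  rw [hhaus a h1]
  simp

end Run7.h726.Fl
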