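import Mathlib
import Pool.Agent.Run7.h726.Fl.G

/-! The maximal estimate for fractal measures in time. -/

set_option autoImplicit false

open MeasureTheory Real Set Filter Topology
open scoped ENNReal NNReal RealInnerProductSpace

namespace Run7.h726.Fl

open Pool.Agent.Helper93.Sph

/-- the constant for small radii -/
noncomputable def a0 (m : ℕ) (σ : ℝ) : ℝ≥0∞ :=
  volume (shell (m + 1) 0 2) * ENNReal.ofReal (3 ^ (2 * σ))

lemma a0_fin (m : ℕ) (σ : ℝ) : a0 m σ < ⊤ :=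
  ENNReal.mul_lt_top (shell_finite _ _ _) ENNReal.ofReal_lt_top

lemma small_R {m : ℕ} {σ e : ℝ} (hσ : 0 ≤ σ) {G : En (m + 1) → ℂ}
    (hG : AEStronglyMeasurable G) (hW : WW σ G < ⊤) (t : ℝ) (x : En (m + 1)) {R : ℝ}
    (hR : R ≤ 1) : ‖ps (tw (pw e) t G) R x‖ₑ ^ 2 ≤ a0 m σ * WW σ G := by
  set H := tw (pw e) t G with hH
  have hm : MemLp ((shell (m + 1) 0 2).indicator H) 2 :=
    loc_mem hσ (tw_meas (pw_meas e) t hG) (by rw [WW_tw]; exact hW) (shell_meas _ _ _)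
      (b := 2) fun _ h => h.2.le
  rw [← ps_loc (H := H) (b := 2) (by linarith : R < 2), ps_eq]
  refine (piece_pt hm (shell_meas _ _ _) x).trans ?_
  rw [a0, mul_assoc]
  refine mul_le_mul' (measure_mono fun ξ h => ⟨h.1, by linarith [h.2]⟩) ?_
  refine (setLIntegral_le_lintegral _ _).trans ?_
  rw [ind_sq H (shell_meas _ _ _), ← WW_tw σ (pw e) t G]
  refine (loc_bd hσ H (shell_meas _ _ _) (b := 2) fun _ h => h.2.le).trans (le_of_eq ?_)
  norm_num
  rfl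

/-- the dominating sum -/
noncomputable def SS {m : ℕ} (e σ T γ : ℝ) (G : En (m + 1) → ℂ) (t : ℝ) (x : En (m + 1)) :
    ℝ≥0∞ :=
  ∑' l : ℕ, ENNReal.ofReal ((th (γ / 4) ^ l)⁻¹) * (Ph e (bl G l) l (LL m σ l) x
      (Ioc (-T + (qq e T l t : ℝ) / VV e l) (-T + (qq e T l t : ℝ) / VV e l + 1 / VV e l)) +
    ENNReal.ofReal (cell m l (LL m σ l) * ((2 : ℝ) ^ (l + 2)) ^ (2 * σ)) * WW σ G)

/-- the numerical constant -/
noncomputable def c4 (γ : ℝ) : ℝ := 4 / (1 - th (γ / 8)) ^ 2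

lemma large_R {m : ℕ} {σ e : ℝ} (hσ : 0 ≤ σ) (he : 1 ≤ e) {G : En (m + 1) → ℂ}
    (hG : AEStronglyMeasurable G) (hW : WW σ G < ⊤) {T : ℝ}
    {γ : ℝ} (hγ : 0 < γ) {t : ℝ} (ht : t ∈ Icc (-T) T) (x : En (m + 1)) {R : ℝ} (hR : 1 ≤ R) :
    ‖ps (tw (pw e) t G) R x‖ₑ ^ 2 ≤ 2 * ‖ps (tw (pw e) t G) 1 x‖ₑ ^ 2 +
      ENNReal.ofReal (c4 γ) * SS e σ T γ G t x := by
  have hθ1 : 0 < 1 - th (γ / 8) := by linarith [th_lt (show 0 < γ / 8 by positivity)]
  have hc4 : 0 < c4 γ := by unfold c4; positivity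
  rcases eq_or_ne (SS e σ T γ G t x) ⊤ with htop | hfin
  · rw [htop, ENNReal.mul_top (by simpa using hc4)]
    simp
  set K := (SS e σ T γ G t x).toReal with hK
  have hK0 : 0 ≤ K := ENNReal.toReal_nonneg
  have hb : ∀ l, ∀ R ∈ Icc ((2 : ℝ) ^ l) (2 ^ (l + 1)),
      ‖ps (tw (pw e) t G) R x - ps (tw (pw e) t G) (2 ^ l) x‖ ≤ √(2 * K) * th (γ / 8) ^ l := by
    intro l R hR
    have hθ : 0 < th (γ / 4) ^ l := pow_pos (th_pos _) l
    have h1 := blk_bound hσ he hG hW l (LL m σ l) hR x (qq_mem l ht)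
    have h2 := ENNReal.le_tsum (f := fun l : ℕ =>
      ENNReal.ofReal ((th (γ / 4) ^ l)⁻¹) * (Ph e (bl G l) l (LL m σ l) x
      (Ioc (-T + (qq e T l t : ℝ) / VV e l) (-T + (qq e T l t : ℝ) / VV e l + 1 / VV e l)) +
      ENNReal.ofReal (cell m l (LL m σ l) * ((2 : ℝ) ^ (l + 2)) ^ (2 * σ)) * WW σ G)) l
    change _ ≤ SS e σ T γ G t x at h2
    set Z := Ph e (bl G l) l (LL m σ l) x
      (Ioc (-T + (qq e T l t : ℝ) / VV e l) (-T + (qq e T l t : ℝ) / VV e l + 1 / VV e l)) +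
      ENNReal.ofReal (cell m l (LL m σ l) * ((2 : ℝ) ^ (l + 2)) ^ (2 * σ)) * WW σ G with hZ
    have h3 : Z ≤ ENNReal.ofReal (K * th (γ / 4) ^ l) := by
      rw [mul_comm K, ENNReal.ofReal_mul hθ.le, hK, ENNReal.ofReal_toReal hfin]
      calc Z = ENNReal.ofReal (th (γ / 4) ^ l) * (ENNReal.ofReal ((th (γ / 4) ^ l)⁻¹) * Z) := by
            rw [← mul_assoc, ← ENNReal.ofReal_mul hθ.le, mul_inv_cancel₀ hθ.ne',
              ENNReal.ofReal_one, one_mul]
        _ ≤ _ := mul_le_mul_right h2 _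
    have h4 := h1.trans (mul_le_mul_right h3 2)
    rw [show (2 : ℝ≥0∞) = ENNReal.ofReal 2 by simp, ← ENNReal.ofReal_mul (by norm_num),
      ← ofReal_norm, ← ENNReal.ofReal_pow (norm_nonneg _),
      ENNReal.ofReal_le_ofReal_iff (by positivity)] at h4
    have h5 := Real.le_sqrt_of_sq_le (h4.trans (le_of_eq
      (show 2 * (K * th (γ / 4) ^ l) = (2 * K) * th (γ / 4) ^ l by ring)))
    rw [Real.sqrt_mul (by positivity), th_half] at h5
    rwa [show γ / 4 / 2 = γ / 8 by ring] at h5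
  have h6 := bdd_all (s := fun R => ps (tw (pw e) t G) R x) (th_pos (γ / 8))
    (th_lt (show 0 < γ / 8 by positivity)) (Real.sqrt_nonneg (2 * K)) hb hR
  have h7 : ‖ps (tw (pw e) t G) R x‖ ^ 2 ≤ 2 * ‖ps (tw (pw e) t G) 1 x‖ ^ 2 + c4 γ * K := by
    have h8 : (√(2 * K) / (1 - th (γ / 8))) ^ 2 = 2 * K / (1 - th (γ / 8)) ^ 2 := by
      rw [div_pow, Real.sq_sqrt (by positivity)]
    have h9 : 0 ≤ √(2 * K) / (1 - th (γ / 8)) := by positivity
    have h10 : c4 γ * K = 2 * (2 * K / (1 - th (γ / 8)) ^ 2) := by unfold c4; ring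
    rw [h10, ← h8]
    have h11 := pow_le_pow_left₀ (norm_nonneg _) h6 2
    nlinarith [sq_nonneg (‖ps (tw (pw e) t G) 1 x‖ - √(2 * K) / (1 - th (γ / 8)))]
  have h12 := ENNReal.ofReal_le_ofReal h7
  rw [ENNReal.ofReal_pow (norm_nonneg _), ofReal_norm, ENNReal.ofReal_add (by positivity)
    (by positivity), ENNReal.ofReal_mul (by norm_num), ENNReal.ofReal_pow (norm_nonneg _),
    ofReal_norm, ENNReal.ofReal_mul hc4.le, hK, ENNReal.ofReal_toReal hfin] at h12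
  simpa using h12

/-- pointwise bound of the maximal function -/
lemma all_R {m : ℕ} {σ e : ℝ} (hσ : 0 ≤ σ) (he : 1 ≤ e) {G : En (m + 1) → ℂ}
    (hG : AEStronglyMeasurable G) (hW : WW σ G < ⊤) {T : ℝ}
    {γ : ℝ} (hγ : 0 < γ) {t : ℝ} (ht : t ∈ Icc (-T) T) (x : En (m + 1)) :
    ⨆ R : ℝ, ‖ps (tw (pw e) t G) R x‖ₑ ^ 2 ≤ 2 * (a0 m σ * WW σ G) +
      ENNReal.ofReal (c4 γ) * SS e σ T γ G t x := by
  refine iSup_le fun R => ?_
  rcases le_total R 1 with h | h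
  · refine (small_R hσ hG hW t x h).trans ?_
    refine le_trans ?_ (le_self_add)
    rw [two_mul]; exact le_self_add
  · refine (large_R hσ he hG hW hγ ht x h).trans (add_le_add ?_ le_rfl)
    exact mul_le_mul_right (small_R hσ hG hW t x le_rfl) _

lemma SS_int {m : ℕ} {σ e : ℝ} (hσ : 0 ≤ σ) (he : 1 ≤ e) {G : En (m + 1) → ℂ}
    (hG : AEStronglyMeasurable G) (hW : WW σ G < ⊤) {ρ T γ : ℝ} (t : ℝ) :
    ∫⁻ x in Metric.closedBall (0 : En (m + 1)) ρ, SS e σ T γ G t x =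
      ∑' l : ℕ, ENNReal.ofReal ((th (γ / 4) ^ l)⁻¹) * (JJ e σ ρ T G l (qq e T l t) +
        ENNReal.ofReal (cell m l (LL m σ l) * ((2 : ℝ) ^ (l + 2)) ^ (2 * σ)) * WW σ G *
          volume (Metric.closedBall (0 : En (m + 1)) ρ)) := by
  unfold SS
  have hPm : ∀ l, Measurable fun x => Ph e (bl G l) l (LL m σ l) x
      (Ioc (-T + (qq e T l t : ℝ) / VV e l) (-T + (qq e T l t : ℝ) / VV e l + 1 / VV e l)) :=
    fun l => Ph_meas he (bl_mem hσ hG hW l) _ _ _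
  rw [lintegral_tsum fun l => (((hPm l).add_const _).const_mul _).aemeasurable]
  refine tsum_congr fun l => ?_
  rw [lintegral_const_mul _ ((hPm l).add_const _), lintegral_add_left (hPm l),
    lintegral_const, Measure.restrict_apply_univ]
  rfl

lemma JJ_time {m : ℕ} {σ e : ℝ} (hσ : 0 ≤ σ) (he : 1 ≤ e) {G : En (m + 1) → ℂ}
    (hG : AEStronglyMeasurable G) (hW : WW σ G < ⊤) {ρ T : ℝ} (hρ : 0 < ρ) (hT : 0 < T)
    {μ : Measure ℝ} {C₀ : ℝ≥0∞} {α : ℝ}
    (hμ : ∀ s r : ℝ, 0 < r → r ≤ 1 → μ (Icc s (s + r)) ≤ C₀ * ENNReal.ofReal (r ^ α)) (l : ℕ) :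
    ∫⁻ t in Icc (-T) T, JJ e σ ρ T G l (qq e T l t) ∂μ ≤
      C₀ * ENNReal.ofReal (kap m ρ e σ l * (1 / VV e l) ^ α) * WW σ G := by
  have hV := VV_pos e l
  have hk : 0 ≤ kap m ρ e σ l := by
    have := cd_pos m
    unfold kap; positivity
  set I : ℕ → Set ℝ := fun q => Icc (-T + (q : ℝ) / VV e l) (-T + (q : ℝ) / VV e l + 1 / VV e l)
    with hI
  have h1 : ∀ t ∈ Icc (-T) T, JJ e σ ρ T G l (qq e T l t) ≤
      ∑ q ∈ Finset.range (QQ e T l), (I q).indicator (fun _ => JJ e σ ρ T G l q) t := by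
    intro t ht
    have h2 := Finset.single_le_sum (f := fun q => (I q).indicator (fun _ => JJ e σ ρ T G l q) t)
      (fun _ _ => zero_le) (Finset.mem_range.2 (qq_lt (e := e) l ht))
    refine le_trans (le_of_eq ?_) h2
    rw [indicator_of_mem (qq_mem l ht)]
  calc ∫⁻ t in Icc (-T) T, JJ e σ ρ T G l (qq e T l t) ∂μ
      ≤ ∫⁻ t in Icc (-T) T, ∑ q ∈ Finset.range (QQ e T l),
          (I q).indicator (fun _ => JJ e σ ρ T G l q) t ∂μ :=
        setLIntegral_mono' measurableSet_Icc h1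
    _ ≤ ∫⁻ t, ∑ q ∈ Finset.range (QQ e T l),
          (I q).indicator (fun _ => JJ e σ ρ T G l q) t ∂μ := setLIntegral_le_lintegral _ _
    _ = ∑ q ∈ Finset.range (QQ e T l), JJ e σ ρ T G l q * μ (I q) := by
        rw [lintegral_finsetSum _ fun q _ => measurable_const.indicator measurableSet_Icc]
        refine Finset.sum_congr rfl fun q _ => ?_
        rw [lintegral_indicator_const measurableSet_Icc]
    _ ≤ ∑ q ∈ Finset.range (QQ e T l), JJ e σ ρ T G l q *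
          (C₀ * ENNReal.ofReal ((1 / VV e l) ^ α)) := by
        refine Finset.sum_le_sum fun q _ => mul_le_mul_right ?_ _
        refine hμ _ _ (by positivity) ?_
        rw [div_le_one hV]; exact VV_one he l
    _ ≤ ENNReal.ofReal (kap m ρ e σ l) * WW σ G * (C₀ * ENNReal.ofReal ((1 / VV e l) ^ α)) := by
        rw [← Finset.sum_mul]
        exact mul_le_mul_left (JJ_sum hσ he hG hW l hρ hT) _
    _ = _ := by
        rw [ENNReal.ofReal_mul hk]; ring

lemma mu_fin {e T : ℝ} (he : 1 ≤ e) {μ : Measure ℝ} {C₀ : ℝ≥0∞} (hC₀ : C₀ ≠ ⊤) {α : ℝ}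
    (hμ : ∀ s r : ℝ, 0 < r → r ≤ 1 → μ (Icc s (s + r)) ≤ C₀ * ENNReal.ofReal (r ^ α)) :
    μ (Icc (-T) T) < ⊤ := by
  have hV := VV_pos e 0
  have h1 : Icc (-T) T ⊆ ⋃ q ∈ Finset.range (QQ e T 0),
      Icc (-T + (q : ℝ) / VV e 0) (-T + (q : ℝ) / VV e 0 + 1 / VV e 0) := by
    intro t ht
    simp only [mem_iUnion]
    exact ⟨qq e T 0 t, Finset.mem_range.2 (qq_lt 0 ht), qq_mem 0 ht⟩
  refine lt_of_le_of_lt (measure_mono h1) (lt_of_le_of_lt (measure_biUnion_finset_le _ _) ?_)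
  refine ENNReal.sum_lt_top.2 fun q _ => ?_
  refine lt_of_le_of_lt (hμ _ _ (by positivity) ?_)
    (ENNReal.mul_lt_top (lt_top_iff_ne_top.2 hC₀) ENNReal.ofReal_lt_top)
  rw [div_le_one hV]; exact VV_one he 0

/-- **the maximal estimate for fractal measures** -/
theorem frost {m : ℕ} {σ e : ℝ} (hσ : 0 ≤ σ) (he : 1 ≤ e) {ρ T : ℝ} (hρ : 0 < ρ) (hT : 0 < T)
    {μ : Measure ℝ} {C₀ : ℝ≥0∞} (hC₀ : C₀ ≠ ⊤) {α : ℝ} (hα : 1 + 2 * σ < e * α)
    (hμ : ∀ s r : ℝ, 0 < r → r ≤ 1 → μ (Icc s (s + r)) ≤ C₀ * ENNReal.ofReal (r ^ α)) :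
    ∃ C : ℝ≥0, ∀ G : En (m + 1) → ℂ, AEStronglyMeasurable G →
      ∫⁻ t in Icc (-T) T, ∫⁻ x in Metric.closedBall (0 : En (m + 1)) ρ,
        ⨆ R : ℝ, ‖ps (tw (pw e) t G) R x‖ₑ ^ 2 ∂volume ∂μ ≤ C * WW σ G := by
  have he0 : 0 < e := by linarith
  have hα0 : 0 < α := by
    by_contra h
    have : e * α ≤ 0 := mul_nonpos_of_nonneg_of_nonpos he0.le (not_lt.1 h)
    linarith
  set γ : ℝ := min 1 (e * α - (1 + 2 * σ)) with hγ
  have h0 : 0 < γ := lt_min one_pos (by linarith)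
  have h1 : γ ≤ 1 := min_le_left _ _
  have h2 : 1 + 2 * σ + γ ≤ e * α := by
    have : γ ≤ e * α - (1 + 2 * σ) := min_le_right _ _
    linarith
  set vB := volume (Metric.closedBall (0 : En (m + 1)) ρ) with hvB
  have hvBf : vB < ⊤ := measure_closedBall_lt_top
  set M := μ (Icc (-T) T) with hM
  have hMf : M < ⊤ := mu_fin he hC₀ hμ
  set S1 := ∑' l : ℕ, ENNReal.ofReal (c1 m ρ e σ * (((l : ℝ) + 1) ^ 2 * th (γ / 2) ^ l)) with hS1
  have hS1f : S1 ≠ ⊤ := sum_fin (th_pos _) (th_lt (by positivity))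
  set S2 := ∑' l : ℕ, ENNReal.ofReal (c2 m σ * th (γ / 4) ^ l) with hS2
  have hS2f : S2 ≠ ⊤ := ((summable_geometric_of_lt_one (th_pos _).le
    (th_lt (show 0 < γ / 4 by positivity))).mul_left (c2 m σ)).tsum_ofReal_ne_top
  set C : ℝ≥0∞ := 2 * a0 m σ * vB * M + ENNReal.ofReal (c4 γ) * (C₀ * S1 + S2 * vB * M) + 1 with hC
  have hCf : C ≠ ⊤ := by
    rw [hC]
    refine ENNReal.add_ne_top.2 ⟨ENNReal.add_ne_top.2 ⟨?_, ?_⟩, ENNReal.one_ne_top⟩
    · exact ENNReal.mul_ne_top (ENNReal.mul_ne_top (ENNReal.mul_ne_top (by simp)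
        (a0_fin m σ).ne) hvBf.ne) hMf.ne
    · refine ENNReal.mul_ne_top ENNReal.ofReal_ne_top (ENNReal.add_ne_top.2 ⟨?_, ?_⟩)
      · exact ENNReal.mul_ne_top hC₀ hS1f
      · exact ENNReal.mul_ne_top (ENNReal.mul_ne_top hS2f hvBf.ne) hMf.ne
  refine ⟨C.toNNReal, fun G hG => ?_⟩
  rw [ENNReal.coe_toNNReal hCf]
  rcases eq_or_ne (WW σ G) ⊤ with htop | hfin
  · have hC0 : C ≠ 0 := by
      have : (1 : ℝ≥0∞) ≤ C := by rw [hC]; exact le_add_self
      exact (lt_of_lt_of_le one_pos this).ne'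
    rw [htop, ENNReal.mul_top hC0]
    exact le_top
  have hW : WW σ G < ⊤ := lt_top_iff_ne_top.2 hfin
  have b1 : ∫⁻ t in Icc (-T) T, ∫⁻ x in Metric.closedBall (0 : En (m + 1)) ρ,
        ⨆ R : ℝ, ‖ps (tw (pw e) t G) R x‖ₑ ^ 2 ∂volume ∂μ ≤
      ∫⁻ t in Icc (-T) T, (2 * (a0 m σ * WW σ G) * vB + ENNReal.ofReal (c4 γ) *
        ∫⁻ x in Metric.closedBall (0 : En (m + 1)) ρ, SS e σ T γ G t x) ∂μ := by
    refine setLIntegral_mono' measurableSet_Icc fun t ht => ?_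
    refine (lintegral_mono fun x => all_R hσ he hG hW h0 ht x).trans (le_of_eq ?_)
    rw [lintegral_add_left measurable_const, lintegral_const, Measure.restrict_apply_univ,
      lintegral_const_mul' _ _ ENNReal.ofReal_ne_top]
  refine b1.trans ?_
  have hqm : ∀ l, Measurable fun t : ℝ => JJ e σ ρ T G l (qq e T l t) := by
    intro l
    have : Measurable fun t : ℝ => qq e T l t := by
      unfold qq
      exact Nat.measurable_floor.comp (by fun_prop)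
    exact (measurable_from_top (f := fun q : ℕ => JJ e σ ρ T G l q)).comp this
  have b2 : ∫⁻ t in Icc (-T) T, ∫⁻ x in Metric.closedBall (0 : En (m + 1)) ρ,
      SS e σ T γ G t x ∂volume ∂μ ≤ (C₀ * S1 + S2 * vB * M) * WW σ G := by
    simp_rw [SS_int hσ he hG hW]
    rw [lintegral_tsum fun l => (((hqm l).add_const _).const_mul _).aemeasurable]
    have b3 : ∀ l : ℕ, ∫⁻ t in Icc (-T) T, ENNReal.ofReal ((th (γ / 4) ^ l)⁻¹) *
        (JJ e σ ρ T G l (qq e T l t) +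
        ENNReal.ofReal (cell m l (LL m σ l) * ((2 : ℝ) ^ (l + 2)) ^ (2 * σ)) * WW σ G * vB) ∂μ ≤
        C₀ * ENNReal.ofReal (c1 m ρ e σ * (((l : ℝ) + 1) ^ 2 * th (γ / 2) ^ l)) * WW σ G +
        ENNReal.ofReal (c2 m σ * th (γ / 4) ^ l) * vB * M * WW σ G := by
      intro l
      have hθ : 0 < th (γ / 4) ^ l := pow_pos (th_pos _) l
      have hθ2 : 0 < th (γ / 2) ^ l := pow_pos (th_pos _) l
      have hV := VV_pos e l
      have hk : 0 ≤ kap m ρ e σ l := by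
        have := cd_pos m
        unfold kap; positivity
      rw [lintegral_const_mul _ ((hqm l).add_const _), lintegral_add_left (hqm l),
        lintegral_const, Measure.restrict_apply_univ, mul_add]
      refine add_le_add ?_ ?_
      · refine (mul_le_mul_right (JJ_time hσ he hG hW hρ hT hμ l) _).trans ?_
        have e1 : ENNReal.ofReal ((th (γ / 4) ^ l)⁻¹) *
            (C₀ * ENNReal.ofReal (kap m ρ e σ l * (1 / VV e l) ^ α) * WW σ G) =
            C₀ * ENNReal.ofReal (kap m ρ e σ l * (th (γ / 4) ^ l)⁻¹ * (1 / VV e l) ^ α) *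
              WW σ G := by
          rw [show kap m ρ e σ l * (th (γ / 4) ^ l)⁻¹ * (1 / VV e l) ^ α =
            (th (γ / 4) ^ l)⁻¹ * (kap m ρ e σ l * (1 / VV e l) ^ α) by ring,
            ENNReal.ofReal_mul (by positivity : 0 ≤ (th (γ / 4) ^ l)⁻¹)]
          ring
        rw [e1]
        refine mul_le_mul_left (mul_le_mul_right (ENNReal.ofReal_le_ofReal ?_) _) _
        refine le_trans ?_ (kap_bd (m := m) (σ := σ) hρ he hα0.le h2 l)
        have e2 : (th (γ / 4) ^ l)⁻¹ ≤ (th (γ / 2) ^ l)⁻¹ := by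
          refine inv_anti₀ hθ2 ?_
          rw [show γ / 2 = γ / 4 + γ / 4 by ring, th_add]
          have : th (γ / 4) ^ l ≤ 1 := pow_le_one₀ (th_pos _).le (th_lt (by positivity)).le
          nlinarith
        gcongr
      · have e3 : ENNReal.ofReal ((th (γ / 4) ^ l)⁻¹) *
            ENNReal.ofReal (cell m l (LL m σ l) * ((2 : ℝ) ^ (l + 2)) ^ (2 * σ)) ≤
            ENNReal.ofReal (c2 m σ * th (γ / 4) ^ l) := by
          rw [← ENNReal.ofReal_mul (by positivity)]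
          refine ENNReal.ofReal_le_ofReal ?_
          refine (mul_le_mul_of_nonneg_left (cell_bd (m := m) (σ := σ) (a := γ / 2)
            (by linarith) l) (by positivity)).trans (le_of_eq ?_)
          change _ * (c2 m σ * _) = _
          rw [show γ / 2 = γ / 4 + γ / 4 by ring, th_add]
          field_simp
        calc _ = (ENNReal.ofReal ((th (γ / 4) ^ l)⁻¹) *
            ENNReal.ofReal (cell m l (LL m σ l) * ((2 : ℝ) ^ (l + 2)) ^ (2 * σ))) *
              (WW σ G * vB * M) := by ring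
          _ ≤ ENNReal.ofReal (c2 m σ * th (γ / 4) ^ l) * (WW σ G * vB * M) :=
              mul_le_mul_left e3 _
          _ = _ := by ring
    refine (ENNReal.tsum_le_tsum b3).trans (le_of_eq ?_)
    rw [ENNReal.tsum_add, ENNReal.tsum_mul_right, ENNReal.tsum_mul_left, ENNReal.tsum_mul_right,
      ENNReal.tsum_mul_right, ENNReal.tsum_mul_right]
    ring
  rw [lintegral_add_left measurable_const, lintegral_const, Measure.restrict_apply_univ,
    lintegral_const_mul' _ _ ENNReal.ofReal_ne_top]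
  calc _ ≤ 2 * (a0 m σ * WW σ G) * vB * M + ENNReal.ofReal (c4 γ) *
        ((C₀ * S1 + S2 * vB * M) * WW σ G) := add_le_add le_rfl (mul_le_mul_right b2 _)
    _ = (2 * a0 m σ * vB * M + ENNReal.ofReal (c4 γ) * (C₀ * S1 + S2 * vB * M)) * WW σ G := by
        ring
    _ ≤ C * WW σ G := by
        refine mul_le_mul_left ?_ _
        rw [hC]; exact le_self_add

end Run7.h726.Fl
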