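import Mathlib
import Pool.Agent.Run7.h726.Fl.H

/-! The maximal estimate on balls with arbitrary centres. -/

set_option autoImplicit false

open MeasureTheory Real Set Filter Topology
open scoped ENNReal NNReal RealInnerProductSpace

namespace Run7.h726.Fl

open Pool.Agent.Helper93.Sph

lemma ps_shift {m : ℕ} {p : En (m + 1) → ℝ} {G : En (m + 1) → ℂ} (t R : ℝ)
    (x₀ y : En (m + 1)) :
    ps (tw p t G) R (x₀ + y) = ps (tw p t (fun ξ => ek x₀ ξ * G ξ)) R y := by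
  unfold ps
  refine setIntegral_congr_fun Metric.isClosed_closedBall.measurableSet fun ξ _ => ?_
  simp only [tw]
  rw [ek_add]
  ring

lemma WW_shift {m : ℕ} {σ : ℝ} {G : En (m + 1) → ℂ} (x₀ : En (m + 1)) :
    WW σ (fun ξ => ek x₀ ξ * G ξ) = WW σ G := by
  unfold WW
  refine lintegral_congr fun ξ => ?_
  rw [enorm_mul, ← ofReal_norm (ek x₀ ξ), ek_norm]
  simp

/-- **the maximal estimate for fractal measures, all balls of one radius** -/
theorem frost_all {m : ℕ} {σ e : ℝ} (hσ : 0 ≤ σ) (he : 1 ≤ e) {ρ T : ℝ} (hρ : 0 < ρ) (hT : 0 < T)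
    {μ : Measure ℝ} {C₀ : ℝ≥0∞} (hC₀ : C₀ ≠ ⊤) {α : ℝ} (hα : 1 + 2 * σ < e * α)
    (hμ : ∀ s r : ℝ, 0 < r → r ≤ 1 → μ (Icc s (s + r)) ≤ C₀ * ENNReal.ofReal (r ^ α)) :
    ∃ C : ℝ≥0, ∀ G : En (m + 1) → ℂ, AEStronglyMeasurable G → ∀ x₀ : En (m + 1),
      ∫⁻ t in Icc (-T) T, ∫⁻ x in Metric.closedBall x₀ ρ,
        ⨆ R : ℝ, ‖ps (tw (pw e) t G) R x‖ₑ ^ 2 ∂volume ∂μ ≤ C * WW σ G := by
  obtain ⟨C, hC⟩ := frost (m := m) hσ he hρ hT hC₀ hα hμ
  refine ⟨C, fun G hG x₀ => ?_⟩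
  have hG' : AEStronglyMeasurable (fun ξ => ek x₀ ξ * G ξ) :=
    ((ek_cont.comp (by fun_prop : Continuous fun ξ : En (m + 1) => (x₀, ξ))
      ).aestronglyMeasurable).mul hG
  have h := hC _ hG'
  rw [WW_shift] at h
  refine le_trans (le_of_eq ?_) h
  refine lintegral_congr fun t => ?_
  rw [← lintegral_indicator Metric.isClosed_closedBall.measurableSet,
    ← lintegral_indicator Metric.isClosed_closedBall.measurableSet,
    ← lintegral_add_left_eq_self _ x₀]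
  refine lintegral_congr fun y => ?_
  have hiff : x₀ + y ∈ Metric.closedBall x₀ ρ ↔ y ∈ Metric.closedBall (0 : En (m + 1)) ρ := by
    simp
  by_cases hy : y ∈ Metric.closedBall (0 : En (m + 1)) ρ
  · rw [indicator_of_mem hy, indicator_of_mem (hiff.2 hy)]
    refine iSup_congr fun R => ?_
    rw [ps_shift]
  · rw [indicator_of_notMem hy, indicator_of_notMem (fun h' => hy (hiff.1 h'))]

end Run7.h726.Fl
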